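import Pool.Agent.L0h49.P.Defs

/-! Module M1, stronger form: from the continued fraction of period two or four to the parameters. -/

set_option autoImplicit false
set_option maxHeartbeats 4000000

namespace Pool.Agent.L0h49.P

open Pool.Agent.N911 (nextQ nextQ_spec floor_pos_of floor_lt_of lin_zero)
open Pool.Agent.N156.EP (Par4)

/-- The stronger form of `S_CF`: the parameters of a period of length four are the first two
partial quotients. -/
def S_CF2 : Prop := ∀ (α : ℝ) (t P : ℤ), α ^ 2 = t * α + P → Irrational α → 0 < t → (t : ℝ) < α →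
  α < t + 1 → ∀ l : ℕ, l = 2 ∨ l = 4 → nextQ^[l + 1] α = nextQ α →
    P = 1 ∨ Par2 t P ⌊nextQ α⌋ ∨ (l = 4 ∧ Par4 t P ⌊nextQ α⌋ ⌊nextQ (nextQ α)⌋)

theorem cf2_holds : S_CF2 := by
  intro α t P hα hirr ht h1 h2 l hl hper
  have ht' : (0 : ℝ) < t := by exact_mod_cast ht
  have hP : 1 ≤ P := by
    have : (0 : ℝ) < P := by nlinarith
    exact_mod_cast this
  have hfl : ⌊α⌋ = t := by
    rw [Int.floor_eq_iff]
    exact ⟨h1.le, h2⟩
  obtain ⟨i1, g1, e0⟩ := nextQ_spec hirr
  rw [hfl] at e0
  have p1 : nextQ α ≠ 0 := by positivity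
  have e0' : (α - t) * nextQ α = 1 := by
    have : α - t = (nextQ α)⁻¹ := by linarith
    rw [this]; exact inv_mul_cancel₀ p1
  rcases hl with rfl | rfl
  · -- period 2
    have hp : nextQ (nextQ (nextQ α)) = nextQ α := hper
    obtain ⟨i2, g2, e1⟩ := nextQ_spec i1
    obtain ⟨_, _, e2⟩ := nextQ_spec i2
    rw [hp] at e2
    have b1 := floor_pos_of g1
    have b2 := floor_pos_of g2
    set x1 := nextQ α with hx1
    set x2 := nextQ x1 with hx2
    have q2 : x2 ≠ 0 := by positivity
    generalize ha1 : ⌊x1⌋ = a1 at *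
    generalize ha2 : ⌊x2⌋ = a2 at *
    obtain ⟨e, he⟩ : ∃ e : ℤ, e = a2 - t := ⟨_, rfl⟩
    have hu : x2 = α + e := by
      rw [he]; push_cast
      linear_combination e2 + (-1 : ℝ) * e0
    have m1 : x1 * x2 = a1 * x2 + 1 := by
      nth_rewrite 1 [e1]; field_simp
    have m : (α - t) * (a1 * (α + e) + 1) = α + e := by
      rw [← hu, ← m1]
      linear_combination x2 * e0'
    have hlin : ((a1 * e : ℤ) : ℝ) * α + ((a1 * P - t * (a1 * e + 1) - e : ℤ) : ℝ) = 0 := by
      push_cast
      linear_combination m - (a1 : ℝ) * hα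
    obtain ⟨z1, z2⟩ := lin_zero hirr hlin
    have he0 : e = 0 := by
      rcases mul_eq_zero.mp z1 with h | h
      · omega
      · exact h
    rw [he0] at z2
    rcases eq_or_ne P 1 with h | h
    · exact Or.inl h
    · exact Or.inr (Or.inl ⟨ht, by omega, by omega, by linear_combination -z2⟩)
  · -- period 4
    have hp : nextQ (nextQ (nextQ (nextQ (nextQ α)))) = nextQ α := hper
    obtain ⟨i2, g2, e1⟩ := nextQ_spec i1
    obtain ⟨i3, g3, e2⟩ := nextQ_spec i2
    obtain ⟨i4, g4, e3⟩ := nextQ_spec i3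
    obtain ⟨_, _, e4⟩ := nextQ_spec i4
    rw [hp] at e4
    have b1 := floor_pos_of g1
    have b2 := floor_pos_of g2
    have b3 := floor_pos_of g3
    have lt1 := floor_lt_of i1
    set x1 := nextQ α with hx1
    set x2 := nextQ x1 with hx2
    set x3 := nextQ x2 with hx3
    set x4 := nextQ x3 with hx4
    have q2 : x2 ≠ 0 := by positivity
    have q3 : x3 ≠ 0 := by positivity
    have q4 : x4 ≠ 0 := by positivity
    generalize ha1 : ⌊x1⌋ = a1 at *
    generalize ha2 : ⌊x2⌋ = a2 at *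
    generalize ha3 : ⌊x3⌋ = a3 at *
    generalize ha4 : ⌊x4⌋ = a4 at *
    obtain ⟨e, he⟩ : ∃ e : ℤ, e = a4 - t := ⟨_, rfl⟩
    have hu : x4 = α + e := by
      rw [he]; push_cast
      linear_combination e4 + (-1 : ℝ) * e0
    have m1 : x1 * x2 = a1 * x2 + 1 := by
      nth_rewrite 1 [e1]; field_simp
    have m2 : x2 * x3 = a2 * x3 + 1 := by
      nth_rewrite 1 [e2]; field_simp
    have m3 : x3 * x4 = a3 * x4 + 1 := by
      nth_rewrite 1 [e3]; field_simp
    obtain ⟨r3, hr3⟩ : ∃ r3 : ℤ, r3 = a2 * a3 + 1 := ⟨_, rfl⟩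
    obtain ⟨k3, hk3⟩ : ∃ k3 : ℤ, k3 = a1 * r3 + a3 := ⟨_, rfl⟩
    obtain ⟨k2, hk2⟩ : ∃ k2 : ℤ, k2 = a1 * a2 + 1 := ⟨_, rfl⟩
    have n2 : x2 * x3 * x4 = r3 * x4 + a2 := by
      rw [hr3]; push_cast
      linear_combination x4 * m2 + (a2 : ℝ) * m3
    have n1 : x1 * x2 * x3 * x4 = k3 * x4 + k2 := by
      rw [hk3, hk2, hr3]; push_cast
      rw [hr3] at n2; push_cast at n2
      linear_combination x3 * x4 * m1 + (a1 : ℝ) * n2 + m3
    have m : (α - t) * (k3 * (α + e) + k2) = r3 * (α + e) + a2 := by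
      rw [← hu, ← n1, ← n2]
      linear_combination (x2 * x3 * x4) * e0'
    have hlin : ((k3 * e + k2 - r3 : ℤ) : ℝ) * α +
        ((k3 * P - t * (k3 * e + k2) - r3 * e - a2 : ℤ) : ℝ) = 0 := by
      push_cast
      linear_combination m - (k3 : ℝ) * hα
    obtain ⟨z1, z2⟩ := lin_zero hirr hlin
    have c1 : r3 < k3 := by
      have : 0 ≤ (a1 - 1) * r3 := mul_nonneg (by omega) (by rw [hr3]; positivity)
      nlinarith
    have c2 : k2 < k3 := by
      have h3 : k3 = a3 * k2 + a1 := by rw [hk3, hk2, hr3]; ring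
      have hk2p : 0 ≤ k2 := by rw [hk2]; positivity
      have : 0 ≤ (a3 - 1) * k2 := mul_nonneg (by omega) hk2p
      nlinarith
    have r3p : 0 < r3 := by rw [hr3]; positivity
    have k2p : 0 < k2 := by rw [hk2]; positivity
    have he0 : e = 0 := by
      rcases lt_trichotomy e 0 with h | h | h
      · exfalso
        have : k3 * (e + 1) ≤ 0 := mul_nonpos_of_nonneg_of_nonpos (by omega) (by omega)
        nlinarith
      · exact h
      · exfalso
        have : 0 ≤ k3 * (e - 1) := mul_nonneg (by omega) (by omega)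
        nlinarith
    rw [he0] at z1 z2
    have h13 : a1 = a3 := by
      have h : a2 * (a1 - a3) = 0 := by
        rw [hk2, hr3] at z1
        linear_combination z1
      rcases mul_eq_zero.mp h with h | h <;> omega
    subst h13
    -- positivity of `R`
    have hR : 1 ≤ 1 + a1 * t - a1 ^ 2 * P := by
      have a1p : (0 : ℝ) < a1 := by exact_mod_cast (by omega : 0 < a1)
      have hd : 0 < α - t := by linarith
      have h3 : (a1 : ℝ) * (α - t) < 1 := by
        rw [← e0', mul_comm]
        exact mul_lt_mul_of_pos_left lt1 hd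
      have h4 : (P : ℝ) = α * (α - t) := by linear_combination -hα
      have h5 : (0 : ℝ) < 1 + a1 * t - a1 ^ 2 * P := by
        rw [h4]
        have h6 : (a1 : ℝ) * α * (a1 * (α - t)) < a1 * α * 1 :=
          mul_lt_mul_of_pos_left h3 (mul_pos a1p (by linarith))
        nlinarith
      have h6 : (0 : ℤ) < 1 + a1 * t - a1 ^ 2 * P := by exact_mod_cast h5
      omega
    rw [hk3, hk2, hr3] at z2
    have key : a2 * (1 + a1 * t - a1 ^ 2 * P) = 2 * a1 * P - t := by linear_combination -z2
    rcases eq_or_ne P 1 with h | h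
    · exact Or.inl h
    rcases eq_or_ne (1 + a1 * t - a1 ^ 2 * P) 1 with hR1 | hR1
    · have h5 : a1 * (t - a1 * P) = 0 := by linear_combination hR1
      have h6 : t = a1 * P := by
        rcases mul_eq_zero.mp h5 with h | h
        · omega
        · linarith
      exact Or.inr (Or.inl ⟨ht, by omega, by omega, h6⟩)
    · exact Or.inr (Or.inr ⟨rfl, ht, by omega, by omega, by omega,
        lt_of_le_of_ne hR (Ne.symm hR1), key⟩)

end Pool.Agent.L0h49.P
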