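import Pool.Agent.L0h49.P.Defs

/-! M5: periods of length two and four with `d ≡ 2, 3 (mod 4)`. -/

set_option autoImplicit false
set_option maxHeartbeats 4000000

universe u

namespace Pool.Agent.L0h49.P

open Pool.Agent.N911 (isDomain_even pid_even)
open Pool.Agent.N156.EP
open H419R2

namespace EvenM

/-- the norms of the cycle -/
theorem split_par24 {t P : ℤ} (h : (∃ a, Par2 t P a) ∨ ∃ a b, Par4 t P a b)
    [IsDomain (QA P t)] [IsPrincipalIdealRing (QA P t)] {D : ℕ} (hD : (D : ℤ) = t ^ 2 + 4 * P)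
    {l : ℕ} (hl : l.Prime)
    (hlD : 4 * (l : ℤ) ^ 2 ≤ D) (hw : ∃ w0 : ℤ, (l : ℤ) ∣ w0 ^ 2 + t * w0 - P) :
    ((∃ a, Par2 t P a) ∧ (l : ℤ) = P) ∨
      (∃ a b, Par4 t P a b ∧ ((l : ℤ) = P ∨ (l : ℤ) = 1 + a * t - a ^ 2 * P)) := by
  have one : ∀ x : ℤ, x = 1 → x = l → False := by
    intro x h1 h2
    rw [h1] at h2
    have : l = 1 := by exact_mod_cast h2.symm
    exact hl.one_lt.ne' this
  rcases h with ⟨a, h⟩ | ⟨a, b, h⟩
  · left
    refine ⟨⟨a, h⟩, ?_⟩
    obtain ⟨h1, hP, ha, hc⟩ := h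
    obtain ⟨t', rfl⟩ := Int.eq_ofNat_of_zero_le h1.le
    obtain ⟨a', rfl⟩ := Int.eq_ofNat_of_zero_le ha.le
    have ht0 : 0 < t' := by exact_mod_cast h1
    have ha0 : 0 < a' := by exact_mod_cast ha
    obtain ⟨n, hn⟩ := (cyc2 a' t' P ha0 ht0 hP hc).split_norm hD hl hlD hw
    have e : (cyc2 a' t' P ha0 ht0 hP hc).q n = v2 1 P n := rfl
    have e2 := e
    unfold v2 at e2
    split_ifs at e2
    · exact (one _ e2 hn).elim
    · rw [← hn, e2]
  · right
    refine ⟨a, b, h, ?_⟩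
    obtain ⟨h1, hP, ha, hb, hQ, hc⟩ := h
    obtain ⟨t', rfl⟩ := Int.eq_ofNat_of_zero_le h1.le
    obtain ⟨a', rfl⟩ := Int.eq_ofNat_of_zero_le ha.le
    obtain ⟨b', rfl⟩ := Int.eq_ofNat_of_zero_le hb.le
    have ht0 : 0 < t' := by exact_mod_cast h1
    have ha0 : 0 < a' := by exact_mod_cast ha
    have hb0 : 0 < b' := by exact_mod_cast hb
    obtain ⟨n, hn⟩ := (cyc4 a' b' t' P _ ha0 hb0 ht0 hP hQ rfl hc).split_norm hD hl hlD hw
    have e : (cyc4 a' b' t' P _ ha0 hb0 ht0 hP hQ rfl hc).q n =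
      v4 1 P (1 + a' * t' - (a' : ℤ) ^ 2 * P) P n := rfl
    have e2 := e
    unfold v4 at e2
    split_ifs at e2
    · exact (one _ e2 hn).elim
    · left; rw [← hn, e2]
    · right; rw [← hn, e2]
    · left; rw [← hn, e2]

end EvenM

theorem even_holds : S_Even.{u} := by
  intro K _ _ hK d n P hsf h4 hd x hx hcl hd3 hpar
  have hsf' : Squarefree (d : ℤ) := Int.squarefree_natCast.mpr hsf
  have hd1' : (1 : ℤ) < d := by exact_mod_cast (show 1 < d by omega)
  have h4' : (d : ℤ) % 4 = 2 ∨ (d : ℤ) % 4 = 3 := by omega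
  have hns := not_sq_of_squarefree hsf' hd1'
  have hx' : x ^ 2 = ((d : ℤ) : K) := by rw [hx]; push_cast; rfl
  have i1 : IsDomain (QA P (2 * n)) := isDomain_even hd hns
  have i2 : IsPrincipalIdealRing (QA P (2 * n)) := pid_even hd hsf' h4' hd1' hK hx' hcl
  have hD : ((4 * d : ℕ) : ℤ) = (2 * n) ^ 2 + 4 * P := by push_cast; rw [hd]; ring
  have h5 := EvenM.split_par24 hpar hD Nat.prime_two (by push_cast; omega) ⟨P, by
      have : P ^ 2 + 2 * n * P - P = 2 * (n * P) + P * (P - 1) := by ring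
      rw [this]
      apply dvd_add (Dvd.intro _ rfl)
      rcases Int.emod_two_eq_zero_or_one P with h | h
      · exact Dvd.dvd.mul_right (Int.dvd_of_emod_eq_zero h) _
      · exact Dvd.dvd.mul_left (Int.dvd_of_emod_eq_zero (by omega)) _⟩
  have case2 : P = 2 → (∃ a, Par2 (2 * n) P a) → ∃ m : ℕ, 1 < m ∧ (d = m ^ 2 + 2 ∨ d + 2 = m ^ 2) := by
    rintro rfl ⟨a, h1, -, ha, hc⟩
    obtain ⟨n', rfl⟩ := Int.eq_ofNat_of_zero_le (show 0 ≤ n by omega)
    have e : d = n' ^ 2 + 2 := by exact_mod_cast hd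
    refine ⟨n', ?_, Or.inl e⟩
    by_contra hn
    have : n' = 0 ∨ n' = 1 := by omega
    rcases this with rfl | rfl
    · omega
    · omega
  rcases h5 with ⟨h, h6⟩ | ⟨a, b, h, h6⟩
  · exact case2 (by rw [← h6]; rfl) h
  · obtain ⟨h1, hP, ha, hb, hQ, hc⟩ := h
    rcases h6 with h6 | h6
    · exfalso
      have hP2 : P = 2 := by rw [← h6]; rfl
      subst hP2
      -- s = 2 (n - a) , R = 1 + a s > 1
      have hR : 1 + a * (2 * n) - a ^ 2 * 2 = 1 + 2 * (a * (n - a)) := by ring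
      rw [hR] at hc hQ
      have hs : 0 < a * (n - a) := by linarith
      have hs1 : 0 < n - a := by
        rcases (mul_pos_iff.mp hs) with h | h
        · exact h.2
        · omega
      have h7 : 1 + 2 * (a * (n - a)) ≤ b * (1 + 2 * (a * (n - a))) := by nlinarith
      have h8 : a ≤ a * (n - a) := by nlinarith
      rw [hc] at h7
      nlinarith
    · have h7 : a * (2 * n - a * P) = 1 := by
        have : (2 : ℤ) = 1 + a * (2 * n) - a ^ 2 * P := by exact_mod_cast h6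
        linear_combination -this
      have ha1 : a = 1 := by
        have := Int.eq_one_or_neg_one_of_mul_eq_one h7
        omega
      subst ha1
      have hn : 2 * n = P + 1 := by linear_combination h7
      have h2 : b * 2 = P - 1 := by
        have : (2 : ℤ) = 1 + 1 * (2 * n) - 1 ^ 2 * P := by exact_mod_cast h6
        rw [← this] at hc
        linear_combination hc + hn * (-1)
      have hnb : n = b + 1 := by linarith
      have hPb : P = 2 * b + 1 := by linarith
      obtain ⟨b', rfl⟩ := Int.eq_ofNat_of_zero_le hb.le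
      refine ⟨b' + 2, by omega, Or.inr ?_⟩
      have : (d : ℤ) + 2 = ((b' + 2 : ℕ) : ℤ) ^ 2 := by
        rw [hd, hnb, hPb]; push_cast; ring
      exact_mod_cast this

end Pool.Agent.L0h49.P
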