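import Pool.Agent.L0h49.E.B6

/-! Class number one and `d = m² ± 2`. -/

set_option autoImplicit false
set_option maxRecDepth 100000
set_option maxHeartbeats 4000000

namespace Pool.Agent.L0h49.P.EvS

open H419R2 Finset
open Pool.Agent.N911
open Pool.Agent.L0h49.E

/-- elements of norms `-1` and `± 2` -/
theorem neg_two {d : ℕ} (hsf : Squarefree d) (hd : 2 < d) {S V a b : ℕ}
    (h1 : S * S + 1 = d * (V * V))
    (h2 : a * a = d * (b * b) + 2 ∨ a * a + 2 = d * (b * b)) : False := by
  have e1 : (S : ℤ) ^ 2 - d * (V : ℤ) ^ 2 = -1 := by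
    have : (S : ℤ) * S + 1 = d * (V * V) := by exact_mod_cast h1
    linear_combination this
  rcases h2 with h2 | h2
  · refine Ev.pell_two hsf hd (a := a) (b := b) e1 ?_
    have : (a : ℤ) * a = d * (b * b) + 2 := by exact_mod_cast h2
    linear_combination this
  · have e2 : (a : ℤ) * a + 2 = d * (b * b) := by exact_mod_cast h2
    refine Ev.pell_two hsf hd (a := a * S + d * b * V) (b := a * V + b * S) e1 ?_
    have : ((a : ℤ) * S + d * b * V) ^ 2 - d * (a * V + b * S) ^ 2 =
        ((a : ℤ) ^ 2 - d * b ^ 2) * (S ^ 2 - d * V ^ 2) := by ring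
    rw [this, e1]
    linear_combination -e2

theorem hcy_nat (c : ℕ) : ∀ l : ℕ, l ∈ LPh → ((c : ℕ) : ZMod l) = (((c : ℕ) : ℤ) : ZMod l) := by
  intro l _
  simp

section final

variable {d : ℕ} {K : Type*} [Field K] [NumberField K] {z : K}

/-- `d = T² ± 2` -/
theorem small_final (hsf : Squarefree (d : ℤ)) (hd4 : d % 4 = 2 ∨ d % 4 = 3) (hd2 : 2 < d)
    (hK : Module.finrank ℚ K = 2) (hz : z ^ 2 = ((d : ℤ) : K))
    (hcl : NumberField.classNumber K = 1) {T : ℕ}
    (h : T * T = d * (1 * 1) + 2 ∨ T * T + 2 = d * (1 * 1)) : d ∈ LH := by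
  have hmin : ∀ T' U' : ℕ, 0 < U' →
      (T' * T' = d * (U' * U') + 2 ∨ T' * T' + 2 = d * (U' * U')) → 1 ≤ U' :=
    fun _ _ h _ => h
  have hneg : ∀ T' U' : ℕ, T' * T' + 1 ≠ d * (U' * U') := by
    intro T' U' h'
    exact neg_two (b := 1) (Int.squarefree_natCast.mp hsf) hd2 h' h
  rcases h with h | h
  · -- `T ^ 2 - d = 2`
    have hT3 : 3 ≤ T := by
      by_contra hc
      have h1 : T ≤ 2 := by omega
      have := Nat.mul_le_mul h1 h1
      omega
    obtain ⟨n, rfl⟩ : ∃ n, T = n + 1 := ⟨T - 1, by omega⟩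
    have hdn : d + 1 = n * n + 2 * n := by
      have e : (n + 1) * (n + 1) = n * n + 2 * n + 1 := by ring
      omega
    have hsp := spec_minus
    rw [cj_true, cj_true] at hsp
    obtain ⟨h1, h2, h3⟩ := hsp
    have hck := smN_all h1 h2 (n - 1)
    have e1 : 2 + (n - 1) * 2 = 2 * n := by omega
    have e2 : 1 + (n - 1) * 2 = 2 * n - 1 := by omega
    rw [e1, e2] at hck
    refine word_finalH (v := .cons 1 .nil) (t := 2 * n) (P := 2 * n - 1) (U := 1) (x := 1)
      (c := -1) (cy := M2n - 1) ⟨one_pos, trivial⟩ rfl ?_ ?_ ?_ (by omega) (by omega) ?_ hsf hd4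
      hd2 hK hz hcl hmin hneg hck h3
    · rw [Nat.cast_sub (by omega)]
      push_cast
      ring
    · have : (WL.cons 1 WL.nil).len = 1 := rfl
      rw [this]
      norm_num
    · intro l hl
      have hM : 1 ≤ M2n := by unfold M2n; norm_num
      rw [Nat.cast_sub hM, (ZMod.natCast_eq_zero_iff M2n l).mpr (LPh_dvd hl)]
      push_cast
      ring
    · have e : 2 * n * (2 * n) = 4 * (n * n) := by ring
      omega
  · -- `T ^ 2 + 2 = d`
    obtain ⟨v, hv, hcw, hlen, hsm, hw⟩ := wordOK_plus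
    have hT0 : 0 < T := by
      rcases Nat.eq_zero_or_pos T with h0 | h0
      · subst h0; omega
      · exact h0
    have hck := smAH_sound hsm (by norm_num) (Or.inl (by norm_num)) (t := 2 * T) (P := 2)
      (by omega) (by ring)
    refine word_finalH (v := v) (t := 2 * T) (P := 2) (U := 1) (x := 0)
      (c := ((2 : ℕ) : ℤ)) (cy := 2) hv hcw ?_ ?_ (hcy_nat 2) (by omega) (by omega) ?_ hsf hd4
      hd2 hK hz hcl hmin hneg hck hw
    · push_cast
      ring
    · have : Even v.len := Nat.even_iff.mpr hlen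
      rw [this.neg_one_pow]
      norm_num
    · have e : 2 * T * (2 * T) = 4 * (T * T) := by ring
      omega

end final

end Pool.Agent.L0h49.P.EvS
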