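import Pool.Agent.L0h49.P.Defs
import Pool.Agent.H419R2.A3
import Pool.Agent.H419R2.D1

set_option autoImplicit false
set_option linter.style.haveILetI false

universe u

namespace Pool.Agent.L0h49.P

theorem exists_jac_neg_one {a : ℕ} (h1 : 1 < a) (ho : a % 2 = 1) (hsf : Squarefree a) :
    ∃ u : ℕ, jacobiSym u a = -1 := by
  obtain ⟨r, hr, a', rfl⟩ : ∃ r, r.Prime ∧ ∃ a', a = r * a' := by
    obtain ⟨r, hr, hd⟩ := Nat.exists_prime_and_dvd (n := a) (by omega)
    exact ⟨r, hr, hd⟩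
  have hcop : Nat.Coprime r a' := Nat.coprime_of_squarefree_mul hsf
  have hr2 : r ≠ 2 := by
    rintro rfl
    omega
  haveI := Fact.mk hr
  obtain ⟨y, hy⟩ : ∃ y : ZMod r, ¬ IsSquare y :=
    FiniteField.exists_nonsquare (by rw [ZMod.ringChar_zmod_n]; exact hr2)
  obtain ⟨k, hk1, hk2⟩ := Nat.chineseRemainder hcop y.val 1
  refine ⟨k, ?_⟩
  have hyk : ((k : ℤ) : ZMod r) = y := by
    have := (ZMod.natCast_eq_natCast_iff _ _ _).mpr hk1
    rw [Int.cast_natCast, this, ZMod.natCast_zmod_val]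
  have e1 : jacobiSym k r = -1 := by
    rw [← jacobiSym.legendreSym.to_jacobiSym]
    rw [legendreSym.eq_neg_one_iff, hyk]
    exact hy
  have e2 : jacobiSym k a' = 1 := by
    have h3 : ((k : ℕ) : ℤ) % (a' : ℤ) = (1 : ℤ) % (a' : ℤ) := by
      have := hk2
      unfold Nat.ModEq at this
      exact_mod_cast this
    rw [jacobiSym.mod_left, h3, ← jacobiSym.mod_left, jacobiSym.one_left]
  haveI : NeZero r := ⟨hr.ne_zero⟩
  haveI : NeZero a' := ⟨by rintro rfl; omega⟩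
  rw [jacobiSym.mul_right, e1, e2]
  norm_num

theorem exists_prime_jac {a b : ℕ} (ha4 : a % 4 = 1) (hb4 : b % 4 = 1) (ha : 1 < a) (hb : 1 < b)
    (hsf : Squarefree (a * b)) :
    ∃ p : ℕ, p.Prime ∧ p ≠ 2 ∧ jacobiSym p a = -1 ∧ jacobiSym ((a * b : ℕ) : ℤ) p = 1 := by
  have hcop : Nat.Coprime a b := Nat.coprime_of_squarefree_mul hsf
  have hsa : Squarefree a := hsf.squarefree_of_dvd (Dvd.intro _ rfl)
  have hsb : Squarefree b := hsf.squarefree_of_dvd (Dvd.intro_left _ rfl)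
  obtain ⟨u, hu⟩ := exists_jac_neg_one ha (by omega) hsa
  obtain ⟨v, hv⟩ := exists_jac_neg_one hb (by omega) hsb
  obtain ⟨k, hk1, hk2⟩ := Nat.chineseRemainder hcop u v
  have key : ∀ (w c n : ℕ), n ≡ c [MOD w] → jacobiSym n w = jacobiSym c w := by
    intro w c n h
    have h3 : ((n : ℕ) : ℤ) % (w : ℤ) = (c : ℤ) % (w : ℤ) := by
      unfold Nat.ModEq at h
      exact_mod_cast h
    rw [jacobiSym.mod_left, h3, ← jacobiSym.mod_left]
  haveI : NeZero a := ⟨by omega⟩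
  haveI : NeZero b := ⟨by omega⟩
  haveI : NeZero (a * b) := ⟨by positivity⟩
  have hka : jacobiSym k a = -1 := by rw [key a u k hk1, hu]
  have hkb : jacobiSym k b = -1 := by rw [key b v k hk2, hv]
  have hkab : jacobiSym k (a * b) = 1 := by rw [jacobiSym.mul_right, hka, hkb]; norm_num
  have hkc : Nat.Coprime k (a * b) := by
    by_contra h
    have h0 : jacobiSym k (a * b) = 0 := by
      rw [jacobiSym.eq_zero_iff_not_coprime, Int.gcd_natCast_natCast]
      exact h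
    rw [h0] at hkab
    norm_num at hkab
  have hunit : IsUnit ((k : ℕ) : ZMod (a * b)) := (ZMod.isUnit_iff_coprime k (a * b)).mpr hkc
  obtain ⟨p, hp2, hp, hpk⟩ := Nat.forall_exists_prime_gt_and_eq_mod hunit 2
  have hmod : p ≡ k [MOD (a * b)] := (ZMod.natCast_eq_natCast_iff _ _ _).mp hpk
  refine ⟨p, hp, by omega, ?_, ?_⟩
  · rw [key a k p (hmod.of_mul_right b), hka]
  · rw [jacobiSym.quadratic_reciprocity_one_mod_four (by rw [Nat.mul_mod, ha4, hb4])
      (hp.odd_of_ne_two (by omega))]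
    rw [key (a * b) k p hmod, hkab]

open H419R2 in
theorem parity_holds : S_Parity.{u} := by
  intro K _ _ hK a b ha4 hb4 ha hb hsf x hx hcl
  obtain ⟨p, hp, hp2, hpa, hDp⟩ := exists_prime_jac ha4 hb4 ha hb hsf
  haveI := Fact.mk hp
  set D : ℕ := a * b with hDdef
  have hD4 : D % 4 = 1 := by rw [hDdef, Nat.mul_mod, ha4, hb4]
  obtain ⟨P, hP⟩ : ∃ P : ℤ, (D : ℤ) = (1 : ℤ) ^ 2 + 4 * P := ⟨((D : ℤ) - 1) / 4, by omega⟩
  have hD1 : (1 : ℤ) < D := by
    have : 1 < a * b := by nlinarith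
    exact_mod_cast this
  have hsfZ : Squarefree (D : ℤ) := Int.squarefree_natCast.mpr hsf
  have hxZ : x ^ 2 = (((D : ℕ) : ℤ) : K) := by rw [hx]; push_cast; rfl
  have i1 : IsDomain (QA P 1) := isDomain_of hP hsfZ hD1
  have i2 : IsPrincipalIdealRing (QA P 1) :=
    pid_of_classNumber_one (by norm_num) hP hsfZ hD1 hK hxZ hcl
  have hsq : IsSquare (((D : ℤ)) : ZMod p) := by
    have h1 : legendreSym p (D : ℤ) = 1 := by
      rw [jacobiSym.legendreSym.to_jacobiSym]; exact hDp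
    have h0 : (((D : ℤ)) : ZMod p) ≠ 0 := by
      intro h
      have := (legendreSym.eq_zero_iff p (D : ℤ)).mpr h
      rw [this] at h1
      norm_num at h1
    exact (legendreSym.eq_one_iff p h0).mp h1
  obtain ⟨w0, hw⟩ := root_of_square hp hp2 hP hsq
  obtain ⟨z, hz⟩ := exists_norm_prime hp hw
  have hn : 4 * QuadraticAlgebra.norm z = (2 * z.re + z.im) ^ 2 - (D : ℤ) * z.im ^ 2 := by
    rw [norm_eq, hP]; ring
  have hodd : Odd a := Nat.odd_iff.mpr (by omega)
  haveI : NeZero a := ⟨by omega⟩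
  have hneg : jacobiSym (-1) a = 1 := by
    rw [jacobiSym.at_neg_one hodd, ZMod.χ₄_nat_one_mod_four ha4]
  have hcop2 : jacobiSym 4 a = 1 := by
    have h22 : (4 : ℤ) = 2 ^ 2 := by norm_num
    have hc : Nat.Coprime 2 a := (Nat.coprime_two_left).mpr hodd
    have hg : Int.gcd (2 : ℤ) (a : ℤ) = 1 := by exact_mod_cast hc
    rw [h22, jacobiSym.sq_one' hg]
  have hsgn : jacobiSym (QuadraticAlgebra.norm z) a = -1 := by
    rcases Int.natAbs_eq (QuadraticAlgebra.norm z) with h | h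
    · rw [h, hz]; exact hpa
    · rw [h, hz, neg_eq_neg_one_mul, jacobiSym.mul_left, hneg, hpa]; norm_num
  have h4n : jacobiSym (4 * QuadraticAlgebra.norm z) a = -1 := by
    rw [jacobiSym.mul_left, hcop2, hsgn]; norm_num
  have hmod : (4 * QuadraticAlgebra.norm z) % (a : ℤ) = (2 * z.re + z.im) ^ 2 % (a : ℤ) := by
    rw [hn]
    have : (2 * z.re + z.im) ^ 2 - (D : ℤ) * z.im ^ 2 =
        (2 * z.re + z.im) ^ 2 + (a : ℤ) * (-(b : ℤ) * z.im ^ 2) := by
      rw [hDdef]; push_cast; ring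
    rw [this, Int.add_mul_emod_self_left]
  rw [jacobiSym.mod_left, hmod, ← jacobiSym.mod_left, sq, jacobiSym.mul_left] at h4n
  nlinarith [mul_self_nonneg (jacobiSym (2 * z.re + z.im) a)]

end Pool.Agent.L0h49.P
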