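import Pool.Agent.L0h49.P.N2
import Pool.Agent.L0h49.P.CF2
import Pool.Agent.L0h49.P.Even
import Pool.Agent.L0h49.P.EvenS
import Pool.Agent.L0h49.P.Parity

/-! Class number one and periods of length two or four. -/

set_option autoImplicit false
set_option maxHeartbeats 4000000

namespace Pool.Agent.L0h49.P

open Pool.Agent.N911 (nextQ omega nextQ_shift Fin29 Par good_of_par
  final_par even_final)
open H419R2 (not_sq_of_squarefree)
open Pool.Agent.N156.EP (Par4 good2 good_of_par4 Good4)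
open Pool.Agent.L0h49.E (LH)

/-- the fields with `d = m² ± 2`, `d > 2` -/
def Ev13 : List ℕ := [3, 6, 7, 11, 14, 23, 38, 47, 62, 83, 167, 227, 398]

theorem ev13_dec : ∀ d ∈ LH, d = 2 ∨ d ∈ Ev13 ∨
    ∀ m ∈ List.range 64, d ≠ m ^ 2 + 2 ∧ d + 2 ≠ m ^ 2 := by
  decide +kernel

theorem LH_le : ∀ d ∈ LH, d ≤ 3947 := by decide +kernel

theorem ev13_of {d m : ℕ} (hd : d ∈ LH) (hm : d = m ^ 2 + 2 ∨ d + 2 = m ^ 2) : d = 2 ∨ d ∈ Ev13 := by
  rcases ev13_dec d hd with h | h | h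
  · exact Or.inl h
  · exact Or.inr h
  · exfalso
    have h1 := LH_le d hd
    have h2 : m < 64 := by
      by_contra hc
      have h3 : 64 ^ 2 ≤ m ^ 2 := Nat.pow_le_pow_left (by omega) 2
      omega
    have h3 := h m (List.mem_range.mpr h2)
    rcases hm with hm | hm
    · exact h3.1 hm
    · exact h3.2 hm

section

variable {d : ℕ} {K : Type*} [Field K] [NumberField K] {x : K}

theorem pm2_final (hsf : Squarefree d) (h4 : d % 4 = 2 ∨ d % 4 = 3)
    (hK : Module.finrank ℚ K = 2) (hx : x ^ 2 = (d : K))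
    (hcl : NumberField.classNumber K = 1) {m : ℕ} (hm : d = m ^ 2 + 2 ∨ d + 2 = m ^ 2) :
    d = 2 ∨ d ∈ Ev13 := by
  rcases Nat.lt_or_ge 2 d with h2 | h2
  · refine ev13_of (m := m) ?_ hm
    refine EvS.small_final (z := x) (T := m) (Int.squarefree_natCast.mpr hsf) h4 h2 hK
      (by rw [hx]; push_cast; rfl) hcl ?_
    rw [pow_two] at hm
    omega
  · left; omega

theorem pd_of (hsf : Squarefree d) (hK : Module.finrank ℚ K = 2) (hx : x ^ 2 = (d : K))
    (hcl : NumberField.classNumber K = 1) : PD d := by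
  intro a b ha hb ha1 hb1 hab
  subst hab
  exact parity_holds K hK a b ha hb ha1 hb1 hsf x hx hcl

/-- odd discriminants, from the parameters -/
theorem fin2 (hsf : Squarefree d) (hK : Module.finrank ℚ K = 2)
    (hx : x ^ 2 = (d : K)) (hcl : NumberField.classNumber K = 1) {t P a : ℤ}
    (h : Par2 t P a) (ht : t % 2 = 1) (hD : (d : ℤ) = t ^ 2 + 4 * P) : d ∈ Fin21 := by
  have hpd := pd_of hsf hK hx hcl
  have hx' : x ^ 2 = ((d : ℤ) : K) := by rw [hx]; push_cast; rfl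
  have hsf' : Squarefree (d : ℤ) := Int.squarefree_natCast.mpr hsf
  refine final_par2 h ht ?_ hpd
  obtain ⟨h1, hP, ha, hc⟩ := h
  obtain ⟨t', rfl⟩ := Int.eq_ofNat_of_zero_le h1.le
  obtain ⟨a', rfl⟩ := Int.eq_ofNat_of_zero_le ha.le
  exact good2 (by exact_mod_cast h1) (by exact_mod_cast ha) hP hc hD hsf' (by exact_mod_cast ht)
    hK hx' hcl

theorem fin4 (hsf : Squarefree d) (hK : Module.finrank ℚ K = 2)
    (hx : x ^ 2 = (d : K)) (hcl : NumberField.classNumber K = 1) {t P a b : ℤ}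
    (h : Par4 t P a b) (ht : t % 2 = 1) (hD : (d : ℤ) = t ^ 2 + 4 * P) (hX : NX a b) :
    d ∈ Fin21 := by
  have hpd := pd_of hsf hK hx hcl
  have hx' : x ^ 2 = ((d : ℤ) : K) := by rw [hx]; push_cast; rfl
  have hsf' : Squarefree (d : ℤ) := Int.squarefree_natCast.mpr hsf
  exact final_par4 h ht (good_of_par4 h hD hsf' ht hK hx' hcl) hpd hX

theorem fin1 (hsf : Squarefree d) (hK : Module.finrank ℚ K = 2)
    (hx : x ^ 2 = (d : K)) (hcl : NumberField.classNumber K = 1) {t P a b : ℤ}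
    (h : Par t P a b) (ht : t % 2 = 1) (hD : (d : ℤ) = t ^ 2 + 4 * P) :
    d ∈ Fin29 := by
  have hx' : x ^ 2 = ((d : ℤ) : K) := by rw [hx]; push_cast; rfl
  have hsf' : Squarefree (d : ℤ) := Int.squarefree_natCast.mpr hsf
  exact final_par h ht (good_of_par h hD hsf' ht hK hx' hcl)

theorem not0 (hsf : Squarefree d) : d % 4 ≠ 0 := by
  intro h0
  have h1 : (2 * 2) ∣ d := by omega
  have h2 := hsf 2 h1
  exact absurd h2 (by decide)

/-- The classification for periods of length two and four. -/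
theorem even_period (hsf : Squarefree d) (hd1 : 1 < d) (hK : Module.finrank ℚ K = 2)
    (hx : x ^ 2 = (d : K)) (hcl : NumberField.classNumber K = 1) {l : ℕ} (hl : l = 2 ∨ l = 4)
    (hper : nextQ^[l + 1] (omega d) = nextQ (omega d)) :
    d = 2 ∨ d ∈ Fin29 ∨ d ∈ Fin21 ∨ d ∈ Ev13 ∨
      (d % 4 = 1 ∧ l = 4 ∧ ¬ NX ⌊nextQ (omega d)⌋ ⌊nextQ (nextQ (omega d))⌋) := by
  have hsf' : Squarefree (d : ℤ) := Int.squarefree_natCast.mpr hsf
  have hd1' : (1 : ℤ) < d := by exact_mod_cast hd1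
  have hns := not_sq_of_squarefree hsf' hd1'
  have hx' : x ^ 2 = ((d : ℤ) : K) := by rw [hx]; push_cast; rfl
  have hirr : Irrational (√(d : ℝ)) := by
    rintro ⟨q, hq⟩
    apply hns
    refine ⟨q, ?_⟩
    have h1 : ((q : ℝ)) ^ 2 = d := by
      rw [hq]
      exact Real.sq_sqrt (by positivity)
    have h2 : ((q ^ 2 : ℚ) : ℝ) = ((d : ℚ) : ℝ) := by push_cast; exact h1
    have h3 : q ^ 2 = (d : ℚ) := by exact_mod_cast h2
    rw [h3]; push_cast; rfl
  have hsq : √(d : ℝ) ^ 2 = d := Real.sq_sqrt (by positivity)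
  have hs1 : 1 < √(d : ℝ) := by
    rw [show (1 : ℝ) = √1 by simp]
    apply Real.sqrt_lt_sqrt (by norm_num)
    exact_mod_cast hd1
  by_cases h4 : d % 4 = 1
  · have ho : omega d = (1 + √(d : ℝ)) / 2 := by unfold omega; rw [if_pos h4]
    rw [ho] at hper ⊢
    obtain ⟨n, hn⟩ : ∃ n : ℤ, n = ⌊(1 + √(d : ℝ)) / 2⌋ := ⟨_, rfl⟩
    have hn1 : 1 ≤ n := by
      rw [hn]
      apply Int.le_floor.mpr
      push_cast
      linarith
    have hfl : (n : ℝ) ≤ (1 + √(d : ℝ)) / 2 := by rw [hn]; exact Int.floor_le _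
    have hfl2 : (1 + √(d : ℝ)) / 2 < n + 1 := by rw [hn]; exact Int.lt_floor_add_one _
    have hsh := nextQ_shift _ (n - 1) l hper
    have hnq : nextQ ((1 + √(d : ℝ)) / 2 + ((n - 1 : ℤ) : ℝ)) = nextQ ((1 + √(d : ℝ)) / 2) := by
      unfold nextQ
      rw [Int.fract_add_intCast]
    set α : ℝ := (1 + √(d : ℝ)) / 2 + ((n - 1 : ℤ) : ℝ) with hα
    have hα' : α = ((2 * n - 1 : ℤ) + √(d : ℝ)) / 2 := by rw [hα]; push_cast; ring
    have hαirr : Irrational α := by
      rw [hα']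
      exact ((hirr.intCast_add _).div_natCast (m := 2) (by norm_num))
    obtain ⟨P, hP⟩ : ∃ P : ℤ, (d : ℤ) = (2 * n - 1) ^ 2 + 4 * P := by
      refine ⟨((d : ℤ) - (2 * n - 1) ^ 2) / 4, ?_⟩
      have : ((d : ℤ) - (2 * n - 1) ^ 2) % 4 = 0 := by
        have e : (d : ℤ) - (2 * n - 1) ^ 2 = d - 1 - 4 * (n ^ 2 - n) := by ring
        rw [e]; omega
      omega
    have hPr : (d : ℝ) = (2 * n - 1) ^ 2 + 4 * P := by exact_mod_cast hP
    have hq : α ^ 2 = ((2 * n - 1 : ℤ) : ℝ) * α + P := by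
      rw [hα']
      push_cast
      linear_combination (1 / 4) * hsq + (1 / 4) * hPr
    have ht : (0 : ℤ) < 2 * n - 1 := by omega
    have hstr : (n : ℝ) < (1 + √(d : ℝ)) / 2 := by
      refine lt_of_le_of_ne hfl ?_
      intro h
      apply hirr
      refine ⟨2 * n - 1, ?_⟩
      push_cast
      linarith
    have hb1 : ((2 * n - 1 : ℤ) : ℝ) < α := by rw [hα]; push_cast; linarith
    have hb2 : α < ((2 * n - 1 : ℤ) : ℝ) + 1 := by rw [hα]; push_cast; linarith
    have hodd' : (2 * n - 1) % 2 = 1 := by omega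
    rcases cf2_holds α (2 * n - 1) P hq hαirr ht hb1 hb2 l hl hsh with h | h | ⟨h0, h⟩
    · right; left
      refine fin1 (t := 2 * n - 1) (P := P) (a := 0) (b := 0) hsf hK hx hcl ?_ hodd' hP
      exact ⟨ht, by omega, Or.inl ⟨h, rfl, rfl⟩⟩
    · right; right; left
      exact fin2 hsf hK hx hcl h hodd' hP
    · rw [hnq] at h
      by_cases hX : NX ⌊nextQ ((1 + √(d : ℝ)) / 2)⌋ ⌊nextQ (nextQ ((1 + √(d : ℝ)) / 2))⌋
      · right; right; left
        exact fin4 hsf hK hx hcl h hodd' hP hX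
      · exact Or.inr (Or.inr (Or.inr (Or.inr ⟨h4, h0, hX⟩)))
  · have h4' : d % 4 = 2 ∨ d % 4 = 3 := by
      have := not0 hsf
      omega
    have ho : omega d = √(d : ℝ) := by unfold omega; rw [if_neg h4]
    rw [ho] at hper
    obtain ⟨n, hn⟩ : ∃ n : ℤ, n = ⌊√(d : ℝ)⌋ := ⟨_, rfl⟩
    have hn1 : 1 ≤ n := by
      rw [hn]
      apply Int.le_floor.mpr
      push_cast
      linarith
    have hfl : (n : ℝ) ≤ √(d : ℝ) := by rw [hn]; exact Int.floor_le _
    have hfl2 : √(d : ℝ) < n + 1 := by rw [hn]; exact Int.lt_floor_add_one _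
    have hsh := nextQ_shift _ n l hper
    set α : ℝ := √(d : ℝ) + ((n : ℤ) : ℝ) with hα
    have hαirr : Irrational α := hirr.add_intCast _
    obtain ⟨P, hP⟩ : ∃ P : ℤ, (d : ℤ) = n ^ 2 + P := ⟨d - n ^ 2, by ring⟩
    have hPr : (d : ℝ) = n ^ 2 + P := by exact_mod_cast hP
    have hq : α ^ 2 = ((2 * n : ℤ) : ℝ) * α + P := by
      rw [hα]
      push_cast
      linear_combination hsq + hPr
    have ht : (0 : ℤ) < 2 * n := by omega
    have hstr : (n : ℝ) < √(d : ℝ) := by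
      refine lt_of_le_of_ne hfl ?_
      intro h
      exact hirr ⟨n, by push_cast; exact h⟩
    have hb1 : ((2 * n : ℤ) : ℝ) < α := by rw [hα]; push_cast; linarith
    have hb2 : α < ((2 * n : ℤ) : ℝ) + 1 := by rw [hα]; push_cast; linarith
    rcases Nat.lt_or_ge 3 d with hd3 | hd3
    · rcases cf2_holds α (2 * n) P hq hαirr ht hb1 hb2 l hl hsh with h | h | ⟨h0, h⟩
      · left
        exact even_final (n := n) (P := P) (a := 0) (b := 0)
          ⟨ht, by omega, Or.inl ⟨h, rfl, rfl⟩⟩ hP hsf' h4' hd1 hK hx' hcl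
      · obtain ⟨m, hm1, hm⟩ := even_holds K hK d n P hsf h4' hP x hx hcl hd3 (Or.inl ⟨_, h⟩)
        rcases pm2_final hsf h4' hK hx hcl hm with h | h
        · exact Or.inl h
        · exact Or.inr (Or.inr (Or.inr (Or.inl h)))
      · obtain ⟨m, hm1, hm⟩ := even_holds K hK d n P hsf h4' hP x hx hcl hd3 (Or.inr ⟨_, _, h⟩)
        rcases pm2_final hsf h4' hK hx hcl hm with h | h
        · exact Or.inl h
        · exact Or.inr (Or.inr (Or.inr (Or.inl h)))
    · have : d = 2 ∨ d = 3 := by omega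
      rcases this with h | h
      · exact Or.inl h
      · right; right; right; left
        rw [h]; decide

end

end Pool.Agent.L0h49.P
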