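import Pool.Agent.L0h49.C.C2
import Pool.Agent.N156.EP.A5

/-! Statements of the modules for periods of length two and four and for the extended
Richaud-Degert types (MP_321647). -/

set_option autoImplicit false

universe u

namespace Pool.Agent.L0h49.P

open Pool.Agent.N911 (nextQ Par)
open Pool.Agent.N156.EP (Par4)

/-- parameters of a period of length two: `α² = t α + P`, `α = [t; a, t, a, …]`, `t = a P` -/
def Par2 (t P a : ℤ) : Prop := 0 < t ∧ 1 < P ∧ 0 < a ∧ t = a * P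

/-- M1: from the continued fraction to the parameters.  Model: `Pool.Agent.N911.par_of_per` in
`Pool/Agent/N911/C1.lean` (period 5 there; periods 2 and 4 are shorter). -/
def S_CF : Prop := ∀ (α : ℝ) (t P : ℤ), α ^ 2 = t * α + P → Irrational α → 0 < t → (t : ℝ) < α →
  α < t + 1 → ∀ l : ℕ, l = 2 ∨ l = 4 → nextQ^[l + 1] α = nextQ α →
    P = 1 ∨ Par2 t P ⌊nextQ α⌋ ∨ ∃ b, Par4 t P ⌊nextQ α⌋ b

/-- M2: no unique factorisation if the discriminant is a product of two numbers which are `1`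
modulo `4`. -/
def S_Parity : Prop := ∀ (K : Type u) [Field K] [NumberField K], Module.finrank ℚ K = 2 →
  ∀ a b : ℕ, a % 4 = 1 → b % 4 = 1 → 1 < a → 1 < b → Squarefree (a * b) →
  ∀ x : K, x ^ 2 = ((a * b : ℕ) : K) → NumberField.classNumber K ≠ 1

/-- M5: periods of length two and four with `d ≡ 2, 3 (mod 4)`: only `d = m² ± 2` remains. -/
def S_Even : Prop := ∀ (K : Type u) [Field K] [NumberField K], Module.finrank ℚ K = 2 →
  ∀ (d : ℕ) (n P : ℤ), Squarefree d → d % 4 = 2 ∨ d % 4 = 3 → (d : ℤ) = n ^ 2 + P →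
  ∀ x : K, x ^ 2 = (d : K) → NumberField.classNumber K = 1 → 3 < d →
  ((∃ a, Par2 (2 * n) P a) ∨ ∃ a b, Par4 (2 * n) P a b) →
  ∃ m : ℕ, 1 < m ∧ (d = m ^ 2 + 2 ∨ d + 2 = m ^ 2)

/-- The parameters which the search treats: periods of length two, or of length four with
the first partial quotient not divisible by 259. -/
def Cov (t P : ℤ) : Prop := (∃ a, Par2 t P a) ∨ ∃ a b, Par4 t P a b ∧ ¬ (259 : ℤ) ∣ a

/-- M6: the extended Richaud-Degert types `d = m² + r`, `r ∣ 4 m`, with `d ≡ 1 (mod 4)`. -/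
def S_ERD : Prop := ∀ (d : ℕ) (m r : ℤ), 0 < m → r ≠ 0 → r ∣ 4 * m → (d : ℤ) = m ^ 2 + r →
  Squarefree d → 1 < d → d % 4 = 1 →
    -- `d = n² + 4` or `d = 4 n² + 1`: period of length one or three
    (∃ t P a b : ℤ, t % 2 = 1 ∧ (d : ℤ) = t ^ 2 + 4 * P ∧ Par t P a b) ∨
    -- periods of length two and four
    (∃ t P : ℤ, t % 2 = 1 ∧ (d : ℤ) = t ^ 2 + 4 * P ∧ Cov t P) ∨
    -- `d = r (r n² + 1)`, `r > 1`
    (∃ a b : ℕ, a % 4 = 1 ∧ b % 4 = 1 ∧ 1 < a ∧ 1 < b ∧ a * b = d)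

/-- M7: extended Richaud-Degert types with `d ≡ 2, 3 (mod 4)` have a small unit. -/
def S_ERDEven : Prop := ∀ (d : ℕ) (m r : ℤ), 0 < m → r ≠ 0 → r ∣ 4 * m → (d : ℤ) = m ^ 2 + r →
  Squarefree d → 1 < d → d % 4 = 2 ∨ d % 4 = 3 →
  ∃ T U : ℕ, 1 < T ∧ T ^ 2 = d * U ^ 2 + 1 ∧ T < 10 ^ 8 * d

end Pool.Agent.L0h49.P
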