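import Pool.Agent.L0h49.P.Defs

/-! The final form of the module on extended Richaud-Degert types. -/

set_option autoImplicit false

namespace Pool.Agent.L0h49.P

open Pool.Agent.N911 (Par)
open Pool.Agent.N156.EP (Par4)

/-- M6, final form: the extended Richaud-Degert types `d = m² + r`, `r ∣ 4 m`, with
`d ≡ 1 (mod 4)`. -/
def S_ERD2 : Prop := ∀ (d : ℕ) (m r : ℤ), 0 < m → r ≠ 0 → r ∣ 4 * m → (d : ℤ) = m ^ 2 + r →
  Squarefree d → 1 < d → d % 4 = 1 →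
    -- `d = n² + 4` or `d = 4 n² + 1`: period of length one or three
    (∃ t P a b : ℤ, t % 2 = 1 ∧ (d : ℤ) = t ^ 2 + 4 * P ∧ Par t P a b) ∨
    -- period two
    (∃ t P a : ℤ, t % 2 = 1 ∧ (d : ℤ) = t ^ 2 + 4 * P ∧ Par2 t P a) ∨
    -- period four, first partial quotient one
    (∃ t P b : ℤ, t % 2 = 1 ∧ (d : ℤ) = t ^ 2 + 4 * P ∧ Par4 t P 1 b) ∨
    -- period four, first partial quotient two
    (∃ t P b : ℤ, t % 2 = 1 ∧ (d : ℤ) = t ^ 2 + 4 * P ∧ Par4 t P 2 b ∧ r < 0 ∧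
      m = -r * (b + 1)) ∨
    -- `d = r (r n² + 1)`, `r > 1`
    (∃ a b : ℕ, a % 4 = 1 ∧ b % 4 = 1 ∧ 1 < a ∧ 1 < b ∧ a * b = d)

end Pool.Agent.L0h49.P
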