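import Pool.Agent.L0h49.P.Defs2

/-! M6: the extended Richaud-Degert types `d = m² + r`, `r ∣ 4 m`, with `d ≡ 1 (mod 4)`. -/

set_option autoImplicit false

namespace Pool.Agent.L0h49.P

open Pool.Agent.N911 (Par)
open Pool.Agent.N156.EP (Par4)

/-- `d = n² - 4`, `n` odd -/
lemma erd_four (d : ℕ) (n : ℤ) (hn : n % 2 = 1) (hn0 : 0 < n) (hd : (d : ℤ) = n ^ 2 - 4) (hd1 : 1 < d) :
    (∃ t P a b : ℤ, t % 2 = 1 ∧ (d : ℤ) = t ^ 2 + 4 * P ∧ Par t P a b) ∨
    (∃ t P a : ℤ, t % 2 = 1 ∧ (d : ℤ) = t ^ 2 + 4 * P ∧ Par2 t P a) := by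
  have h1 : (1 : ℤ) < d := by exact_mod_cast hd1
  have h3 : 3 ≤ n := by
    by_contra h
    have : n = 1 ∨ n = 2 := by omega
    rcases this with rfl | rfl
    · norm_num at hd; omega
    · norm_num at hd; omega
  rcases (show n = 3 ∨ 5 ≤ n by omega) with rfl | h5
  · left
    exact ⟨1, 1, 0, 0, by norm_num, by rw [hd]; norm_num, by norm_num, le_rfl, Or.inl ⟨rfl, rfl, rfl⟩⟩
  · right
    exact ⟨n - 2, n - 2, 1, by omega, by rw [hd]; ring, by omega, by omega, by norm_num, by ring⟩

theorem erd_holds : S_ERD2 := by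
  intro d m r hm hr0 hdvd hd hsf hd1 hd4
  have hd4' : (d : ℤ) % 4 = 1 := by exact_mod_cast congrArg (Nat.cast : ℕ → ℤ) hd4
  rcases Int.even_or_odd m with hmE | hmO
  · -- `m` even
    obtain ⟨m', hm'⟩ := hmE
    have hr4 : r % 4 = 1 := by
      have h1 : m ^ 2 = 4 * m' ^ 2 := by rw [hm']; ring
      omega
    have hcop : IsCoprime r 4 := by
      obtain ⟨k, hk⟩ : ∃ k, r = 4 * k + 1 := ⟨r / 4, by omega⟩
      exact ⟨1, -k, by rw [hk]; ring⟩
    have hrm : r ∣ m := hcop.dvd_of_dvd_mul_left hdvd
    rcases lt_trichotomy r 0 with hneg | h0 | hpos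
    · -- `r = -q`
      obtain ⟨q, hq⟩ : ∃ q, r = -q := ⟨-r, by ring⟩
      have hq0 : 0 < q := by omega
      have hqm : q ∣ m := by
        rw [hq] at hrm
        exact (neg_dvd).1 hrm
      obtain ⟨n, hn⟩ := hqm
      have hn0 : 0 < n := by
        by_contra h
        have : q * n ≤ 0 := mul_nonpos_of_nonneg_of_nonpos hq0.le (by omega)
        omega
      have hq4 : q % 4 = 3 := by omega
      have hnE : n % 2 = 0 := by
        have h2 : (q * n) % 2 = 0 := by rw [← hn, hm']; omega
        rw [Int.mul_emod] at h2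
        have h3 : q % 2 = 1 := by omega
        rw [h3] at h2
        omega
      obtain ⟨k, hk⟩ : ∃ k, n = 2 * k := ⟨n / 2, by omega⟩
      have hk0 : 1 ≤ k := by omega
      obtain ⟨j, hj⟩ : ∃ j, q = 4 * j + 3 := ⟨q / 4, by omega⟩
      have hj0 : 0 ≤ j := by omega
      -- `P = (q (2 n - 1) - 1) / 4`
      have hP : q * (2 * n - 1) - 1 = 4 * (4 * j * k - j + 3 * k - 1) := by
        rw [hj, hk]; ring
      right; right; right; left
      refine ⟨q * n - 1, 4 * j * k - j + 3 * k - 1, n - 1, ?_, ?_, ⟨?_, ?_, by norm_num, by omega, ?_, ?_⟩, hneg, ?_⟩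
      · rw [hk]
        have : q * (2 * k) = 2 * (q * k) := by ring
        omega
      · rw [hd, hn, hq]
        linear_combination hP
      · have : q * n = m := hn.symm
        have h6 : m = 2 * (q * k) := by rw [hn, hk]; ring
        nlinarith
      · nlinarith
      · have : 1 + 2 * (q * n - 1) - 2 ^ 2 * (4 * j * k - j + 3 * k - 1) = q := by
          linear_combination hP
        rw [this]; omega
      · have : 1 + 2 * (q * n - 1) - 2 ^ 2 * (4 * j * k - j + 3 * k - 1) = q := by
          linear_combination hP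
        rw [this]
        linear_combination hP
      · rw [hn, hq]; ring
    · exact absurd h0 hr0
    · obtain ⟨n, hn⟩ := hrm
      have hn0 : 0 < n := by
        by_contra h
        have : r * n ≤ 0 := mul_nonpos_of_nonneg_of_nonpos hpos.le (by omega)
        omega
      have hnE : n % 2 = 0 := by
        have h2 : (r * n) % 2 = 0 := by rw [← hn, hm']; omega
        rw [Int.mul_emod] at h2
        have h3 : r % 2 = 1 := by omega
        rw [h3] at h2
        omega
      obtain ⟨k, hk⟩ : ∃ k, n = 2 * k := ⟨n / 2, by omega⟩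
      rcases (show r = 1 ∨ 1 < r by omega) with h1 | h1
      · left
        rcases (show k = 1 ∨ 1 < k by omega) with hk1 | hk1
        · refine ⟨1, 1, 0, 0, by norm_num, ?_, by norm_num, le_rfl, Or.inl ⟨rfl, rfl, rfl⟩⟩
          rw [hd, hn, h1, hk, hk1]; norm_num
        · refine ⟨2 * k - 1, k, 1, 0, by omega, ?_, by omega, by omega,
            Or.inr (Or.inl ⟨hk1, by norm_num, rfl, by ring⟩)⟩
          rw [hd, hn, h1, hk]; ring
      · right; right; right; right
        lift r to ℕ using hpos.le
        lift n to ℕ using hn0.le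
        refine ⟨r, r * n ^ 2 + 1, by omega, ?_, by exact_mod_cast h1, ?_, ?_⟩
        · obtain ⟨k', hk'⟩ : ∃ k' : ℕ, n = 2 * k' := ⟨n / 2, by omega⟩
          rw [hk']
          have : r * (2 * k') ^ 2 = 4 * (r * k' ^ 2) := by ring
          omega
        · have h7 : 0 < r * n ^ 2 := by
            have : 0 < n := by exact_mod_cast hn0
            have h8 : 0 < r := by omega
            positivity
          omega
        · have : ((r * (r * n ^ 2 + 1) : ℕ) : ℤ) = d := by
            rw [hd, hn]; push_cast; ring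
          exact_mod_cast this
  · -- `m` odd
    obtain ⟨m', hm'⟩ := hmO
    have hr4 : r % 4 = 0 := by
      have h1 : m ^ 2 = 4 * (m' ^ 2 + m') + 1 := by rw [hm']; ring
      omega
    obtain ⟨s, hs⟩ : ∃ s, r = 4 * s := ⟨r / 4, by omega⟩
    have hsm : s ∣ m := by
      rw [hs] at hdvd
      exact (mul_dvd_mul_iff_left (by norm_num : (4 : ℤ) ≠ 0)).1 hdvd
    have hs0 : s ≠ 0 := by rintro rfl; exact hr0 (by rw [hs]; ring)
    rcases lt_or_gt_of_ne hs0 with hneg | hpos
    · obtain ⟨q, hq⟩ : ∃ q, s = -q := ⟨-s, by ring⟩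
      have hq0 : 0 < q := by omega
      have hqm : q ∣ m := by
        rw [hq] at hsm
        exact (neg_dvd).1 hsm
      obtain ⟨n, hn⟩ := hqm
      have hn0 : 0 < n := by
        by_contra h
        have : q * n ≤ 0 := mul_nonpos_of_nonneg_of_nonpos hq0.le (by omega)
        omega
      have hodd : (q * n) % 2 = 1 := by rw [← hn]; omega
      have hq2 : q % 2 = 1 := by
        by_contra h
        have h0 : q % 2 = 0 := by omega
        rw [Int.mul_emod, h0] at hodd
        norm_num at hodd
      have hn2 : n % 2 = 1 := by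
        by_contra h
        have h0 : n % 2 = 0 := by omega
        rw [Int.mul_emod, h0] at hodd
        norm_num at hodd
      have hdq : (d : ℤ) = (q * n) ^ 2 - 4 * q := by rw [hd, hn, hs, hq]; ring
      rcases (show q = 1 ∨ 1 < q by omega) with h1 | h1
      · rw [h1] at hdq
        rcases erd_four d n hn2 hn0 (by rw [hdq]; ring) hd1 with h | h
        · exact Or.inl h
        · exact Or.inr (Or.inl h)
      · rcases (show n = 1 ∨ 3 ≤ n by omega) with h3 | h3
        · rw [h3] at hdq
          have h5 : 0 < q - 2 := by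
            have : (1 : ℤ) < d := by exact_mod_cast hd1
            nlinarith
          rcases erd_four d (q - 2) (by omega) h5 (by rw [hdq]; ring) hd1 with h | h
          · exact Or.inl h
          · exact Or.inr (Or.inl h)
        · right; right; left
          refine ⟨q * n - 2, q * (n - 1) - 1, n - 2, by omega, by rw [hdq]; ring, ?_, ?_, by norm_num,
            by omega, ?_, by ring⟩
          · nlinarith
          · nlinarith
          · have : 1 + 1 * (q * n - 2) - 1 ^ 2 * (q * (n - 1) - 1) = q := by ring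
            rw [this]; exact h1
    · obtain ⟨n, hn⟩ := hsm
      have hn0 : 0 < n := by
        by_contra h
        have : s * n ≤ 0 := mul_nonpos_of_nonneg_of_nonpos hpos.le (by omega)
        omega
      rcases (show s = 1 ∨ 1 < s by omega) with h1 | h1
      · left
        refine ⟨m, 1, 0, 0, by omega, ?_, hm, le_rfl, Or.inl ⟨rfl, rfl, rfl⟩⟩
        rw [hd, hs, h1]
      · right; left
        refine ⟨m, s, n, by omega, by rw [hd, hs], hm, h1, hn0, by rw [hn]; ring⟩

end Pool.Agent.L0h49.P
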