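import Pool.Agent.L0h49.P.Defs

/-! M7: extended Richaud-Degert types with `d ≡ 2, 3 (mod 4)` have a small unit. -/

set_option autoImplicit false

namespace Pool.Agent.L0h49.P

/-- the unit, from `2 m = |r| U` -/
theorem erdEven_aux (d : ℕ) (m r s U : ℤ) (hm : 0 < m) (hs : s = 1 ∨ s = -1) (hU : 0 < U)
    (hr : 2 * m = s * r * U) (hd : (d : ℤ) = m ^ 2 + r) (hd2 : 2 ≤ d) :
    ∃ T U : ℕ, 1 < T ∧ T ^ 2 = d * U ^ 2 + 1 ∧ T < 10 ^ 8 * d := by
  have hmU : 0 < m * U := mul_pos hm hU
  have hT0 : 0 ≤ m * U + s := by rcases hs with rfl | rfl <;> omega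
  have hs2 : s ^ 2 = 1 := by rcases hs with rfl | rfl <;> norm_num
  have hD2 : (2 : ℤ) ≤ d := by exact_mod_cast hd2
  have key : (m * U + s) ^ 2 = d * U ^ 2 + 1 := by
    have h1 : r * U ^ 2 = 2 * m * U * s := by
      have h2 : s * (2 * m) * U = s * (s * r * U) * U := by rw [hr]
      have h3 : s * (s * r * U) * U = s ^ 2 * (r * U ^ 2) := by ring
      rw [h3, hs2, one_mul] at h2
      rw [← h2]
      ring
    rw [hd, add_mul, h1]
    have : (m * U + s) ^ 2 = m ^ 2 * U ^ 2 + 2 * m * U * s + s ^ 2 := by ring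
    rw [this, hs2]
  obtain ⟨T, hT⟩ := Int.eq_ofNat_of_zero_le hT0
  obtain ⟨V, hV⟩ := Int.eq_ofNat_of_zero_le hU.le
  have hT' : m * U + s = (T : ℤ) := hT
  have hV' : U = (V : ℤ) := hV
  have hV1 : (1 : ℤ) ≤ V := by
    rw [← hV']
    exact hU
  rw [hT', hV'] at key
  refine ⟨T, V, ?_, by exact_mod_cast key, ?_⟩
  · by_contra h
    have h1 : (T : ℤ) ≤ 1 := by exact_mod_cast not_lt.1 h
    have h2 : (0 : ℤ) ≤ T := by positivity
    nlinarith
  · have hsr : 0 < s * r := by
      by_contra h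
      have h5 : s * r * U ≤ 0 := mul_nonpos_of_nonpos_of_nonneg (not_lt.1 h) hU.le
      linarith
    have hsr1 : 1 ≤ s * r := hsr
    have hU2 : U ≤ 2 * m := by nlinarith
    have hTle : (T : ℤ) ≤ 2 * m ^ 2 + 1 := by
      rw [← hT']
      rcases hs with rfl | rfl <;> nlinarith
    have hsr2 : s * r ≤ 2 * m := by nlinarith
    have hdl : m ^ 2 - 2 * m ≤ (d : ℤ) := by
      rw [hd]
      rcases hs with rfl | rfl <;> nlinarith
    have hfin : (T : ℤ) < 10 ^ 8 * d := by
      by_cases h : m ≤ 100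
      · nlinarith
      · push Not at h
        nlinarith
    exact_mod_cast hfin

theorem erdEven_holds : S_ERDEven := by
  intro d m r hm hr0 hr hd _ hd1 hd4
  -- `r ∣ 2 m`
  have h2m : r ∣ 2 * m := by
    obtain ⟨k, hk⟩ := hr
    rcases Int.even_or_odd k with ⟨j, hj⟩ | ⟨j, hj⟩
    · refine ⟨j, ?_⟩
      rw [hj] at hk
      linarith
    · exfalso
      have h4 : (4 : ℤ) ∣ r := by
        have h5 : (4 : ℤ) ∣ r * k := ⟨m, by linarith⟩
        have h6 : IsCoprime (4 : ℤ) k := by
          refine ⟨-(j * j + j), k, ?_⟩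
          rw [hj]
          ring
        exact h6.dvd_of_dvd_mul_right h5
      obtain ⟨s, hs⟩ := h4
      have h7 : (d : ℤ) % 4 = m ^ 2 % 4 := by
        rw [hd, hs]
        omega
      have h8 : m ^ 2 % 4 = 0 ∨ m ^ 2 % 4 = 1 := by
        rcases Int.even_or_odd m with ⟨j', hj'⟩ | ⟨j', hj'⟩
        · left
          have : m ^ 2 = 4 * (j' ^ 2) := by rw [hj']; ring
          omega
        · right
          have : m ^ 2 = 4 * (j' ^ 2 + j') + 1 := by rw [hj']; ring
          omega
      omega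
  obtain ⟨k, hk⟩ := h2m
  have hk0 : k ≠ 0 := by
    rintro rfl
    omega
  rcases lt_or_gt_of_ne hr0 with hneg | hpos
  · have hkneg : k < 0 := by
      by_contra h
      push Not at h
      nlinarith
    exact erdEven_aux d m r (-1) (-k) hm (Or.inr rfl) (by omega) (by rw [hk]; ring) hd (by omega)
  · have hkpos : 0 < k := by
      by_contra h
      push Not at h
      nlinarith
    exact erdEven_aux d m r 1 k hm (Or.inl rfl) hkpos (by rw [hk]; ring) hd (by omega)

end Pool.Agent.L0h49.P
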