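import Pool.Agent.L0h49.P.K4
import Pool.Agent.N911.K6

/-! One-parameter families: search and soundness. -/

set_option maxRecDepth 100000

namespace Pool.Agent.L0h49.P

open H419R2 Finset
open Pool.Agent.N911

/-- check of a relation; `t P a b` are natural numbers congruent to the data modulo `q`, and
modulo `p` if `full = 1`; `ex` is an exponent such that `x ^ ex` is the inverse of `x` -/
def relK (c : CD) (ex full t P a b : ℕ) : Bool :=
  force c.q (fun q => force (Nat.mod t q) (fun t' => force (Nat.mod P q) (fun P' =>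
  force (Nat.mod a q) (fun a' =>
  force (Nat.mod (Nat.add (Nat.mul (Nat.mul 2 a') P') (Nat.sub q t')) q) (fun B =>
  force (Nat.mod (Nat.add (Nat.add 1 (Nat.mul a' t')) (Nat.mul (Nat.mul a' a') (Nat.sub q P'))) q)
    (fun R =>
  force (Nat.mod (Nat.pow P' ex) q) (fun i => force (Nat.mod (Nat.pow R ex) q) (fun j =>
  @Bool.rec (fun _ => Bool) true
    (force (look c.T P') (fun xP => force (look c.T R) (fun xR =>
      force (evB c t' P') (fun e0 => force (evB c (Nat.mul B i) (Nat.mul R i)) (fun e1 =>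
      force (evB c (Nat.mul B j) (Nat.mul P' j)) (fun e2 =>
      @Bool.rec (fun _ => Bool)
        (imp (Nat.beq (Nat.div e0 128) 0) (imp (Nat.beq (Nat.div e1 128) 0)
          (imp (Nat.beq (Nat.div e2 128) 0) (ckF4 c.p xP xR e0 e1 e2 0 0 0))))
        (ckF4 c.p xP xR e0 e1 e2 a b t) (Nat.beq full 1)))))))
    (cj (Nat.beq (Nat.mod (Nat.mul P' i) q) 1) (Nat.beq (Nat.mod (Nat.mul R j) q) 1))))))))))

theorem relK_sound {c : CD} (hc : c.OK) {z : Dat} (hN : NRel4 c z)
    (hP : ((z.P * z.Pi : ℤ) : ZMod c.q) = 1) (hR : ((z.R * z.Ri : ℤ) : ZMod c.q) = 1)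
    {ex full t P a b : ℕ} (ht : (t : ZMod c.q) = z.t) (hPq : (P : ZMod c.q) = z.P)
    (ha : (a : ZMod c.q) = z.a)
    (hf : full = 1 → (t : ZMod c.p) = z.t ∧ (a : ZMod c.p) = z.a ∧ (b : ZMod c.p) = z.b) :
    relK c ex full t P a b = true := by
  have q1 := hc.q1
  have q0 : 0 < c.q := by omega
  have hNZ : NeZero c.q := ⟨by omega⟩
  have cl : ((c.q : ℕ) : ZMod c.q) = 0 := CharP.cast_eq_zero _ _
  unfold relK
  simp only [force_eq]
  have ct : ((Nat.mod t c.q : ℕ) : ZMod c.q) = z.t := by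
    change ((t % c.q : ℕ) : ZMod c.q) = _
    rw [ZMod.natCast_mod, ht]
  have cP : ((Nat.mod P c.q : ℕ) : ZMod c.q) = z.P := by
    change ((P % c.q : ℕ) : ZMod c.q) = _
    rw [ZMod.natCast_mod, hPq]
  have ca : ((Nat.mod a c.q : ℕ) : ZMod c.q) = z.a := by
    change ((a % c.q : ℕ) : ZMod c.q) = _
    rw [ZMod.natCast_mod, ha]
  have lt : Nat.mod t c.q < c.q := Nat.mod_lt _ q0
  have lP : Nat.mod P c.q < c.q := Nat.mod_lt _ q0
  generalize Nat.mod t c.q = t' at *
  generalize Nat.mod P c.q = P' at *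
  generalize Nat.mod a c.q = a' at *
  have cB : ((Nat.mod (Nat.add (Nat.mul (Nat.mul 2 a') P') (Nat.sub c.q t')) c.q : ℕ) :
      ZMod c.q) = z.B1 := by
    change (((2 * a' * P' + (c.q - t')) % c.q : ℕ) : ZMod c.q) = _
    rw [ZMod.natCast_mod]
    push_cast
    rw [Nat.cast_sub lt.le, ca, cP, ct, cl]
    unfold Dat.B1
    push_cast
    ring
  have cR : ((Nat.mod (Nat.add (Nat.add 1 (Nat.mul a' t')) (Nat.mul (Nat.mul a' a')
      (Nat.sub c.q P'))) c.q : ℕ) : ZMod c.q) = z.R := by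
    change (((1 + a' * t' + a' * a' * (c.q - P')) % c.q : ℕ) : ZMod c.q) = _
    rw [ZMod.natCast_mod]
    push_cast
    rw [Nat.cast_sub lP.le, ca, cP, ct, cl]
    unfold Dat.R
    push_cast
    ring
  have lR : Nat.mod (Nat.add (Nat.add 1 (Nat.mul a' t')) (Nat.mul (Nat.mul a' a')
      (Nat.sub c.q P'))) c.q < c.q := Nat.mod_lt _ q0
  generalize Nat.mod (Nat.add (Nat.mul (Nat.mul 2 a') P') (Nat.sub c.q t')) c.q = B at *
  generalize Nat.mod (Nat.add (Nat.add 1 (Nat.mul a' t')) (Nat.mul (Nat.mul a' a')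
      (Nat.sub c.q P'))) c.q = R at *
  generalize Nat.mod (Nat.pow P' ex) c.q = i at *
  generalize Nat.mod (Nat.pow R ex) c.q = j at *
  generalize hg : cj (Nat.beq (Nat.mod (Nat.mul P' i) c.q) 1)
    (Nat.beq (Nat.mod (Nat.mul R j) c.q) 1) = g
  cases g with
  | false => rfl
  | true =>
    rw [cj_true] at hg
    have e1 : P' * i % c.q = 1 := Nat.eq_of_beq_eq_true hg.1
    have e2 : R * j % c.q = 1 := Nat.eq_of_beq_eq_true hg.2
    have e1' : (z.P : ZMod c.q) * i = 1 := by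
      have h : ((P' * i : ℕ) : ZMod c.q) = ((1 : ℕ) : ZMod c.q) := by
        rw [ZMod.natCast_eq_natCast_iff', e1, Nat.mod_eq_of_lt q1]
      push_cast at h
      rw [cP] at h
      exact h
    have e2' : (z.R : ZMod c.q) * j = 1 := by
      have h : ((R * j : ℕ) : ZMod c.q) = ((1 : ℕ) : ZMod c.q) := by
        rw [ZMod.natCast_eq_natCast_iff', e2, Nat.mod_eq_of_lt q1]
      push_cast at h
      rw [cR] at h
      exact h
    push_cast at hP hR
    have ci : (i : ZMod c.q) = z.Pi := by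
      linear_combination (z.Pi : ZMod c.q) * e1' - (i : ZMod c.q) * hP
    have cj' : (j : ZMod c.q) = z.Ri := by
      linear_combination (z.Ri : ZMod c.q) * e2' - (j : ZMod c.q) * hR
    have E0 : Ent c (evB c t' P') z.t z.P := evB_sound hc ct cP
    have E1 : Ent c (evB c (Nat.mul B i) (Nat.mul R i)) (z.B1 * z.Pi) (z.R * z.Pi) := by
      apply evB_sound hc
      · change ((B * i : ℕ) : ZMod c.q) = _
        push_cast
        rw [cB, ci]
      · change ((R * i : ℕ) : ZMod c.q) = _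
        push_cast
        rw [cR, ci]
    have E2 : Ent c (evB c (Nat.mul B j) (Nat.mul P' j)) (z.B1 * z.Ri) (z.P * z.Ri) := by
      apply evB_sound hc
      · change ((B * j : ℕ) : ZMod c.q) = _
        push_cast
        rw [cB, cj']
      · change ((P' * j : ℕ) : ZMod c.q) = _
        push_cast
        rw [cP, cj']
    have X1 : Chv c (look c.T P') z.P := by
      intro _
      rw [← cP, chi_cast, Nat.mod_eq_of_lt lP]
    have X2 : Chv c (look c.T R) z.R := by
      intro _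
      rw [← cR, chi_cast, Nat.mod_eq_of_lt lR]
    generalize evB c t' P' = e0 at *
    generalize evB c (Nat.mul B i) (Nat.mul R i) = e1 at *
    generalize evB c (Nat.mul B j) (Nat.mul P' j) = e2 at *
    generalize look c.T P' = xP at *
    generalize look c.T R = xR at *
    generalize hb : Nat.beq full 1 = bb
    cases bb with
    | true =>
      have h1 : full = 1 := Nat.eq_of_beq_eq_true hb
      obtain ⟨g1, g2, g3⟩ := hf h1
      exact ckF4_sound hN rfl E0 E1 E2 X1 X2 g2 g3 g1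
    | false =>
      change imp (Nat.beq (Nat.div e0 128) 0) (imp (Nat.beq (Nat.div e1 128) 0)
          (imp (Nat.beq (Nat.div e2 128) 0) (ckF4 c.p xP xR e0 e1 e2 0 0 0))) = true
      have h3 := hN e0 e1 e2 xP xR E0 E1 E2 X1 X2
      cases hb0 : Nat.beq (Nat.div e0 128) 0 with
      | false => rfl
      | true =>
        cases hb1 : Nat.beq (Nat.div e1 128) 0 with
        | false => rfl
        | true =>
          cases hb2 : Nat.beq (Nat.div e2 128) 0 with
          | false => rfl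
          | true =>
            have z0 : e0 / 128 = 0 := Nat.eq_of_beq_eq_true hb0
            have z1 : e1 / 128 = 0 := Nat.eq_of_beq_eq_true hb1
            have z2 : e2 / 128 = 0 := Nat.eq_of_beq_eq_true hb2
            change ckF4 c.p xP xR e0 e1 e2 0 0 0 = true
            unfold ckF4
            rw [force_eq, force_eq, force_eq]
            apply beq_mod
            rw [z0, z1, z2] at h3
            change ((e0 % 128 + 0 * (e0 / 128) + xP * (e1 % 128 + 2 * 0 * (e1 / 128)) +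
              xR * (0 * (e2 / 128)) : ℕ) : ZMod c.p) = 0
            push_cast
            push_cast at h3
            linear_combination h3

/-- programs -/
inductive St where
  | nil : St
  | pr (l Q : ℕ) (s : St) : St
  | four (s : St) : St
  | rel (c : CD) (ex full : ℕ) (s : St) : St

/-- evaluation of a program for the family `t = t0 + t1 k`, …; the parameter is known to be `k`
modulo `M` -/
noncomputable def St.ev (t0 t1 P0 P1 a0 a1 b0 b1 : ℕ) (s : St) : ℕ → ℕ → Bool :=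
  @St.rec (fun _ => ℕ → ℕ → Bool)
    (fun _ _ => false)
    (fun l Q _ ih M k => force (Nat.mul M l) (fun M' => allN l (fun j =>
      force (Nat.add k (Nat.mul M j)) (fun k' =>
      force (Nat.add t0 (Nat.mul t1 k')) (fun t => force (Nat.add P0 (Nat.mul P1 k')) (fun P =>
      @Bool.rec (fun _ => Bool) (ih M' k') true
        (tb Q (Nat.mod (Nat.add (Nat.mul t t) (Nat.mul 4 P)) l))))))))
    (fun _ ih M k => force (Nat.mul M 4) (fun M' => allN 4 (fun j =>
      force (Nat.add k (Nat.mul M j)) (fun k' =>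
      imp (Nat.beq (Nat.mod (Nat.add t0 (Nat.mul t1 k')) 2) 1)
      (imp (Nat.beq (Nat.mod (Nat.add P0 (Nat.mul P1 k')) 2) 1) (ih M' k'))))))
    (fun c ex full _ ih M k => imp (relK c ex full (Nat.add t0 (Nat.mul t1 k))
      (Nat.add P0 (Nat.mul P1 k)) (Nat.add a0 (Nat.mul a1 k)) (Nat.add b0 (Nat.mul b1 k)))
      (ih M k)) s

/-- hypotheses of a program -/
def St.Hyp (z : Dat) : St → ℕ → Prop
  | .nil, _ => True
  | .pr l Q s, M => (0 < l ∧ chkIq l Q = true ∧ ¬ IsSquare ((z.t ^ 2 + 4 * z.P : ℤ) : ZMod l)) ∧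
      s.Hyp z (M * l)
  | .four s, M => (z.t % 2 = 1 ∧ z.P % 2 = 1) ∧ s.Hyp z (M * 4)
  | .rel c _ full s, M => (c.OK ∧ NRel4 c z ∧ ((z.P * z.Pi : ℤ) : ZMod c.q) = 1 ∧
      ((z.R * z.Ri : ℤ) : ZMod c.q) = 1 ∧ c.q ∣ M ∧ (full = 1 → c.p ∣ M)) ∧ s.Hyp z M

/-- the data belong to the family -/
structure Fam (z : Dat) (κ : ℤ) (t0 t1 P0 P1 a0 a1 b0 b1 : ℕ) : Prop where
  ht : z.t = t0 + t1 * κ
  hP : z.P = P0 + P1 * κ
  ha : z.a = a0 + a1 * κ
  hb : z.b = b0 + b1 * κ

theorem lin_cast {x κ : ℤ} {x0 x1 k M q : ℕ} (h : x = x0 + x1 * κ) (hk : (M : ℤ) ∣ κ - k)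
    (hq : q ∣ M) : ((Nat.add x0 (Nat.mul x1 k) : ℕ) : ZMod q) = x := by
  change ((x0 + x1 * k : ℕ) : ZMod q) = _
  have h1 : (q : ℤ) ∣ κ - k := (Int.natCast_dvd_natCast.mpr hq).trans hk
  have h2 : ((κ - k : ℤ) : ZMod q) = 0 := (ZMod.intCast_zmod_eq_zero_iff_dvd _ _).mpr h1
  push_cast at h2
  rw [h]
  push_cast
  linear_combination (-(x1 : ZMod q)) * h2

theorem ext_mod {κ : ℤ} {k M l : ℕ} (hM : 0 < M) (hl : 0 < l) (hk : (M : ℤ) ∣ κ - k) :
    ∃ j < l, ((M * l : ℕ) : ℤ) ∣ κ - ((Nat.add k (Nat.mul M j) : ℕ) : ℤ) := by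
  obtain ⟨x, hx⟩ := hk
  have hl' : (l : ℤ) ≠ 0 := by exact_mod_cast hl.ne'
  have h1 := Int.emod_nonneg x hl'
  have h2 := Int.emod_lt_of_pos x (show (0 : ℤ) < l by exact_mod_cast hl)
  refine ⟨(x % l).toNat, ?_, ?_⟩
  · zify
    rw [Int.toNat_of_nonneg h1]
    exact h2
  · have h3 := Int.mul_ediv_add_emod x l
    refine ⟨x / l, ?_⟩
    change κ - ((k + M * (x % l).toNat : ℕ) : ℤ) = ((M * l : ℕ) : ℤ) * (x / l)
    push_cast
    rw [Int.toNat_of_nonneg h1]
    linear_combination hx - (M : ℤ) * h3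

theorem ev_sound {z : Dat} {κ : ℤ} {t0 t1 P0 P1 a0 a1 b0 b1 : ℕ}
    (F : Fam z κ t0 t1 P0 P1 a0 a1 b0 b1) (s : St) : ∀ M k : ℕ, 0 < M → (M : ℤ) ∣ κ - k →
    s.Hyp z M → s.ev t0 t1 P0 P1 a0 a1 b0 b1 M k = true → False := by
  induction s with
  | nil => intro M k _ _ _ h; exact absurd h (by simp [St.ev])
  | pr l Q s ih =>
    intro M k hM hk hH h
    obtain ⟨⟨hl, hQ, hsq⟩, hH⟩ := hH
    obtain ⟨j, hj, hk'⟩ := ext_mod hM hl hk
    have h' : force (Nat.mul M l) (fun M' => allN l (fun j =>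
      force (Nat.add k (Nat.mul M j)) (fun k' =>
      force (Nat.add t0 (Nat.mul t1 k')) (fun t => force (Nat.add P0 (Nat.mul P1 k')) (fun P =>
      @Bool.rec (fun _ => Bool) (s.ev t0 t1 P0 P1 a0 a1 b0 b1 M' k') true
        (tb Q (Nat.mod (Nat.add (Nat.mul t t) (Nat.mul 4 P)) l))))))) = true := h
    rw [force_eq, allN_iff] at h'
    have h1 := h' j hj
    rw [force_eq, force_eq, force_eq] at h1
    have hlM : l ∣ M * l := Dvd.intro_left M rfl
    have ct := lin_cast F.ht hk' hlM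
    have cP := lin_cast F.hP hk' hlM
    have h2 : tb Q (Nat.mod (Nat.add (Nat.mul (Nat.add t0 (Nat.mul t1 (Nat.add k (Nat.mul M j))))
        (Nat.add t0 (Nat.mul t1 (Nat.add k (Nat.mul M j)))))
        (Nat.mul 4 (Nat.add P0 (Nat.mul P1 (Nat.add k (Nat.mul M j)))))) l) = false := by
      by_contra hc
      have hc' := Bool.eq_true_of_not_eq_false hc
      have h3 := tb_square hl hQ hc'
      apply hsq
      convert h3 using 1
      change _ = (((Nat.add t0 (Nat.mul t1 (Nat.add k (Nat.mul M j)))) *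
        (Nat.add t0 (Nat.mul t1 (Nat.add k (Nat.mul M j)))) +
        4 * (Nat.add P0 (Nat.mul P1 (Nat.add k (Nat.mul M j)))) : ℕ) : ZMod l)
      rw [Nat.cast_add, Nat.cast_mul, Nat.cast_mul, ct, cP]
      push_cast
      ring
    rw [h2] at h1
    exact ih (M * l) _ (Nat.mul_pos hM hl) hk' hH h1
  | four s ih =>
    intro M k hM hk hH h
    obtain ⟨⟨ht, hP⟩, hH⟩ := hH
    obtain ⟨j, hj, hk'⟩ := ext_mod hM (show 0 < 4 by norm_num) hk
    have h' : force (Nat.mul M 4) (fun M' => allN 4 (fun j =>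
      force (Nat.add k (Nat.mul M j)) (fun k' =>
      imp (Nat.beq (Nat.mod (Nat.add t0 (Nat.mul t1 k')) 2) 1)
      (imp (Nat.beq (Nat.mod (Nat.add P0 (Nat.mul P1 k')) 2) 1)
        (s.ev t0 t1 P0 P1 a0 a1 b0 b1 M' k'))))) = true := h
    rw [force_eq, allN_iff] at h'
    have h1 := h' j hj
    rw [force_eq] at h1
    have hlM : 2 ∣ M * 4 := ⟨M * 2, by ring⟩
    have key : ∀ (x : ℤ) (x0 x1 : ℕ), x = x0 + x1 * κ → x % 2 = 1 →
        Nat.beq (Nat.mod (Nat.add x0 (Nat.mul x1 (Nat.add k (Nat.mul M j)))) 2) 1 = true := by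
      intro x x0 x1 hx hx2
      have ct := lin_cast hx hk' hlM
      have e := res_unique (Nat.mod_lt (Nat.add x0 (Nat.mul x1 (Nat.add k (Nat.mul M j))))
        (show 0 < 2 by norm_num)) (by rw [ZMod.natCast_mod]; exact ct)
      have e2 := res_int x (M := 2) (by norm_num)
      have e3 : ((Nat.add x0 (Nat.mul x1 (Nat.add k (Nat.mul M j))) % 2 : ℕ) : ℤ) = 1 := by
        rw [e, e2]; exact_mod_cast hx2
      have e4 : Nat.add x0 (Nat.mul x1 (Nat.add k (Nat.mul M j))) % 2 = 1 := by exact_mod_cast e3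
      change Nat.beq (Nat.add x0 (Nat.mul x1 (Nat.add k (Nat.mul M j))) % 2) 1 = true
      rw [e4]; rfl
    have h2 := imp_true (imp_true h1 (key _ _ _ F.ht ht)) (key _ _ _ F.hP hP)
    exact ih (M * 4) _ (by omega) hk' hH h2
  | rel c ex full s ih =>
    intro M k hM hk hH h
    obtain ⟨⟨hc, hN, hP, hR, hq, hf⟩, hH⟩ := hH
    have h' : imp (relK c ex full (Nat.add t0 (Nat.mul t1 k))
      (Nat.add P0 (Nat.mul P1 k)) (Nat.add a0 (Nat.mul a1 k)) (Nat.add b0 (Nat.mul b1 k)))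
      (s.ev t0 t1 P0 P1 a0 a1 b0 b1 M k) = true := h
    exact ih M k hM hk hH (imp_true h' (relK_sound hc hN hP hR (lin_cast F.ht hk hq)
      (lin_cast F.hP hk hq) (lin_cast F.ha hk hq) (fun hff => ⟨lin_cast F.ht hk (hf hff),
        lin_cast F.ha hk (hf hff), lin_cast F.hb hk (hf hff)⟩)))

end Pool.Agent.L0h49.P
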