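import Pool.Agent.L0h49.P.F1
import Pool.Agent.L0h49.E.D1
import Pool.Agent.N911.K2
import Pool.Agent.N911.D1
import Pool.Agent.N911.D3
import Pool.Agent.H419R2.F1
import Pool.Agent.H419R2.F2
import Pool.Agent.H419R2.F3
import Pool.Agent.H419R2.F4
import Pool.Agent.H419R2.F5
import Pool.Agent.H419R2.F6

/-! One-parameter families: programs and runs. -/

set_option maxRecDepth 1000000

namespace Pool.Agent.L0h49.P

open H419R2
open Pool.Agent.N911
open Pool.Agent.L0h49.E (c481_61)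

/-- squares modulo 61 -/
def Q61 : ℕ := 1662926210933060155

/-- tail for the family `(3, 1)` -/
def tail61 : St := .pr 61 Q61 (.rel c481_61 35 1 .nil)

/-- program for the prime 3 -/
def prog3 (s : St) : St := .pr 37 Q37 (.pr 7 Q7 (.rel c259_19_2 35 0 (.pr 19 Q19 (.rel c259_19_0 35 1
  (.rel c259_19_1 35 1 (.rel c133_37 17 1 (.four (.rel c148_7 35 0 (.rel c148_19 35 0
  (.pr 5 Q5 (.rel c140_13 11 0 (.pr 13 Q13 (.rel c95_13 35 1 (.rel c185_13 35 1
  (.rel c133_13 17 1 (.rel c91_37 11 1 (.pr 73 Q73 (.rel c133_73 17 1 (.rel c247_73_0 35 1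
  (.rel c247_73_1 35 1 (.rel c259_73 35 1 s)))))))))))))))))))))

/-- program for the prime 7 -/
def prog7 : St := .pr 37 Q37 (.pr 19 Q19 (.pr 3 Q3 (.rel c111_19_0 35 1 (.rel c111_19_1 35 1
  (.four (.rel c148_19 35 0 (.pr 5 Q5 (.pr 13 Q13 (.rel c95_13 35 1 (.rel c185_13 35 1
  (.pr 73 Q73 (.rel c247_73_0 35 1 (.rel c247_73_1 35 1 .nil)))))))))))))

/-- program for the prime 19 -/
def prog19 : St := .pr 37 Q37 (.pr 7 Q7 (.four (.rel c148_7 35 0 (.pr 3 Q3 (.pr 5 Q5
  (.rel c140_13 11 0 (.pr 13 Q13 (.rel c105_13 11 1 (.rel c185_13 35 1 (.rel c91_37 11 1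
  (.pr 73 Q73 (.rel c259_73 35 1 .nil))))))))))))

theorem fam_3_1 : (prog3 tail61).ev 4 3 2 3 1 0 0 1 1 0 = true := by decide +kernel
theorem fam_3_2 : (prog3 .nil).ev 5 6 2 3 2 0 1 2 1 0 = true := by decide +kernel
theorem fam2_3 : (prog3 .nil).ev 0 3 3 0 0 1 0 3 1 0 = true := by decide +kernel
theorem fam_7_1 : (prog7).ev 12 7 6 7 1 0 0 1 1 0 = true := by decide +kernel
theorem fam_7_2 : (prog7).ev 13 14 5 7 2 0 1 2 1 0 = true := by decide +kernel
theorem fam_7_3 : (prog7).ev 11 21 3 7 3 0 1 3 1 0 = true := by decide +kernel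
theorem fam_7_6 : (prog7).ev 37 42 6 7 6 0 5 6 1 0 = true := by decide +kernel
theorem fam2_7 : (prog7).ev 0 7 7 0 0 1 0 7 1 0 = true := by decide +kernel
theorem fam_19_1 : (prog19).ev 36 19 18 19 1 0 0 1 1 0 = true := by decide +kernel
theorem fam_19_2 : (prog19).ev 37 38 14 19 2 0 1 2 1 0 = true := by decide +kernel
theorem fam_19_3 : (prog19).ev 12 57 2 19 3 0 0 3 1 0 = true := by decide +kernel
theorem fam_19_6 : (prog19).ev 63 114 10 19 6 0 3 6 1 0 = true := by decide +kernel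
theorem fam_19_9 : (prog19).ev 137 171 15 19 9 0 7 9 1 0 = true := by decide +kernel
theorem fam_19_18 : (prog19).ev 325 342 18 19 18 0 17 18 1 0 = true := by decide +kernel
theorem fam2_19 : (prog19).ev 0 19 19 0 0 1 0 19 1 0 = true := by decide +kernel

end Pool.Agent.L0h49.P
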