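import Pool.Agent.L0h49.P.K7
import Pool.Agent.L0h49.C.K8
import Pool.Agent.N156.EP.A5

/-! The contradiction for integer data without small split primes. -/

set_option maxRecDepth 100000

namespace Pool.Agent.L0h49.P

open H419R2 Finset
open Pool.Agent.N911
open Pool.Agent.N156.EP (RelM4 Good4)

theorem mkSys4 {z : Dat} (con : Con4 z) (hP : M0 ∣ z.P * z.Pi - 1) (hR : M0 ∣ z.R * z.Ri - 1)
    (tod : z.t % 2 = 1) (Pod : z.P % 2 = 1)
    (nsq : ∀ l : ℕ, l ∈ [3, 5, 7, 13, 19, 37, 73] → ¬ IsSquare ((z.t ^ 2 + 4 * z.P : ℤ) : ZMod l))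
    (hrel : ∀ c : CD, c.OK → c.q ∣ M0n → c.p ∣ M0n → ∀ _ : NeZero c.q,
      RelM4 (chi c.q c.p c.T) z.t z.P z.a z.b = 0) : Sys4 z := by
  have key : ∀ c : CD, c.OK → c.q ∣ M0n → c.p ∣ M0n → NRel4 c z := by
    intro c hc h1 h2
    have h3 : (c.q : ℤ) ∣ M0 := by rw [M0_eq]; exact Int.natCast_dvd_natCast.mpr h1
    exact nrel4_of hc (Sys.one_of (z := z) hP h3) (Sys.one_of (z := z) hR h3) (hrel c hc h1 h2)
  exact
  { con := con
    hP := hP
    hR := hR
    tod := tod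
    Pod := Pod
    nsq := nsq
    r148_7 := key _ c148_7_ok (by decide +kernel) (by decide +kernel)
    r148_19 := key _ c148_19_ok (by decide +kernel) (by decide +kernel)
    r259_0 := key _ c259_19_0_ok (by decide +kernel) (by decide +kernel)
    r259_1 := key _ c259_19_1_ok (by decide +kernel) (by decide +kernel)
    r259_2 := key _ c259_19_2_ok (by decide +kernel) (by decide +kernel)
    r133_37 := key _ c133_37_ok (by decide +kernel) (by decide +kernel)
    r111_0 := key _ c111_19_0_ok (by decide +kernel) (by decide +kernel)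
    r111_1 := key _ c111_19_1_ok (by decide +kernel) (by decide +kernel)
    r228 := key _ c228_7_ok (by decide +kernel) (by decide +kernel)
    r140 := key _ c140_13_ok (by decide +kernel) (by decide +kernel)
    r95 := key _ c95_13_ok (by decide +kernel) (by decide +kernel)
    r105 := key _ c105_13_ok (by decide +kernel) (by decide +kernel)
    r185 := key _ c185_13_ok (by decide +kernel) (by decide +kernel)
    r133_13 := key _ c133_13_ok (by decide +kernel) (by decide +kernel)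
    r91 := key _ c91_37_ok (by decide +kernel) (by decide +kernel)
    r133_73 := key _ c133_73_ok (by decide +kernel) (by decide +kernel)
    r247_0 := key _ c247_73_0_ok (by decide +kernel) (by decide +kernel)
    r247_1 := key _ c247_73_1_ok (by decide +kernel) (by decide +kernel)
    r259_73 := key _ c259_73_ok (by decide +kernel) (by decide +kernel) }

theorem RelM4_neg {N : ℕ} [NeZero N] {M : Type*} [CommRing M] (f : ZMod N → M) (t P a b : ℤ) :
    RelM4 f (-t) P (-a) (-b) = -RelM4 f t P a b := by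
  unfold RelM4
  have e1 : (2 * -a * P - -t) = -(2 * a * P - t) := by ring
  have e2 : (1 + -a * -t - (-a) ^ 2 * P) = 1 + a * t - a ^ 2 * P := by ring
  rw [e1, e2]
  simp only [Int.cast_neg (R := ZMod N), SE_neg, SY_neg]
  push_cast
  ring

/-- the product of the moduli other than `73` -/
theorem dvd_all {x : ℤ} (h1 : (37:ℤ) ∣ x) (h2 : (7:ℤ) ∣ x) (h3 : (19:ℤ) ∣ x) (h4 : (3:ℤ) ∣ x)
    (h5 : (4:ℤ) ∣ x) (h6 : (5:ℤ) ∣ x) (h7 : (13:ℤ) ∣ x) : (3838380:ℤ) ∣ x := by
  have e : (3838380:ℤ) = 37*(7*(19*(3*(4*(5*13))))) := by norm_num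
  rw [e]
  refine IsCoprime.mul_dvd (Int.isCoprime_iff_gcd_eq_one.mpr (by decide)) h1 ?_
  refine IsCoprime.mul_dvd (Int.isCoprime_iff_gcd_eq_one.mpr (by decide)) h2 ?_
  refine IsCoprime.mul_dvd (Int.isCoprime_iff_gcd_eq_one.mpr (by decide)) h3 ?_
  refine IsCoprime.mul_dvd (Int.isCoprime_iff_gcd_eq_one.mpr (by decide)) h4 ?_
  refine IsCoprime.mul_dvd (Int.isCoprime_iff_gcd_eq_one.mpr (by decide)) h5 ?_
  exact IsCoprime.mul_dvd (Int.isCoprime_iff_gcd_eq_one.mpr (by decide)) h6 h7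

theorem dvd4921 {x : ℤ} (h1 : (37:ℤ) ∣ x) (h2 : (7:ℤ) ∣ x) (h3 : (19:ℤ) ∣ x) : (4921:ℤ) ∣ x := by
  have e : (4921:ℤ) = 37*(7*19) := by norm_num
  rw [e]
  refine IsCoprime.mul_dvd (Int.isCoprime_iff_gcd_eq_one.mpr (by decide)) h1 ?_
  exact IsCoprime.mul_dvd (Int.isCoprime_iff_gcd_eq_one.mpr (by decide)) h2 h3

theorem exz {a : ℤ} (he0 : ¬ (4921 : ℤ) ∣ a) (a' : ℤ) (ha : a' = a ∨ a' = -a) :
    ¬ (res a' 37 = 0 ∧ res a' 7 = 0 ∧ res a' 19 = 0) := by
  rintro ⟨h1, h2, h3⟩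
  have e1 := res_int a' (M := 37) (by norm_num)
  have e2 := res_int a' (M := 7) (by norm_num)
  have e3 := res_int a' (M := 19) (by norm_num)
  rw [h1] at e1
  rw [h2] at e2
  rw [h3] at e3
  push_cast at e1 e2 e3
  have d1 : (37 : ℤ) ∣ a' := Int.dvd_of_emod_eq_zero e1.symm
  have d2 : (7 : ℤ) ∣ a' := Int.dvd_of_emod_eq_zero e2.symm
  have d3 : (19 : ℤ) ∣ a' := Int.dvd_of_emod_eq_zero e3.symm
  have d := dvd4921 d1 d2 d3
  rcases ha with rfl | rfl
  · exact he0 d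
  · exact he0 ((dvd_neg).mp d)

theorem res_dvd {x c : ℤ} {l : ℕ} {n : ℕ} (hl : 0 < l) (h : res x l = n)
    (hc : (l : ℤ) ∣ (n : ℤ) + c) : (l : ℤ) ∣ x + c := by
  have e1 := res_int x (M := l) hl
  rw [h] at e1
  have h2 : (l : ℤ) ∣ x - n := by
    rw [e1]
    exact Int.dvd_self_sub_emod
  have h3 := dvd_add h2 hc
  have e : x - n + (n + c) = x + c := by ring
  rw [e] at h3
  exact h3

/-- the exceptional class -/
def XX (a b : ℤ) : Prop := (3838380 : ℤ) ∣ a + 2 ∧ (3838380 : ℤ) ∣ b - 1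

theorem exx {z : Dat} (h : Exc z) : XX z.a z.b := by
  obtain ⟨⟨h1, h2, h3, h4, h5, h6, h7⟩, g1, g2, g3, g4, g5, g6, g7⟩ := h
  refine ⟨dvd_all ?_ ?_ ?_ ?_ ?_ ?_ ?_, dvd_all ?_ ?_ ?_ ?_ ?_ ?_ ?_⟩
  · exact_mod_cast res_dvd (c := 2) (by norm_num) h1 (by norm_num)
  · exact_mod_cast res_dvd (c := 2) (by norm_num) h2 (by norm_num)
  · exact_mod_cast res_dvd (c := 2) (by norm_num) h3 (by norm_num)
  · exact_mod_cast res_dvd (c := 2) (by norm_num) h4 (by norm_num)
  · exact_mod_cast res_dvd (c := 2) (by norm_num) h5 (by norm_num)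
  · exact_mod_cast res_dvd (c := 2) (by norm_num) h6 (by norm_num)
  · exact_mod_cast res_dvd (c := 2) (by norm_num) h7 (by norm_num)
  · exact res_dvd (c := -1) (by norm_num) g1 (by norm_num)
  · exact res_dvd (c := -1) (by norm_num) g2 (by norm_num)
  · exact res_dvd (c := -1) (by norm_num) g3 (by norm_num)
  · exact res_dvd (c := -1) (by norm_num) g4 (by norm_num)
  · exact res_dvd (c := -1) (by norm_num) g5 (by norm_num)
  · exact res_dvd (c := -1) (by norm_num) g6 (by norm_num)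
  · exact res_dvd (c := -1) (by norm_num) g7 (by norm_num)

/-- the classes of all runs -/
def AllRun4 : Prop := ∀ a < 37, run4 c133_73 c247_73_0 c247_73_1 c259_73 a = true

/-- data common to both cores -/
theorem core_data {t P a b : ℤ} {D : ℕ} (G : Good4 t P a b D) (hP2 : P % 2 = 1)
    (ht : t % 2 = 1)
    (hin : ∀ l : ℕ, l ∈ [3, 5, 7, 13, 19, 37, 73] → ¬ IsSquare ((t ^ 2 + 4 * P : ℤ) : ZMod l)) :
    (∃ Pi, M0 ∣ P * Pi - 1) ∧ (∃ Ri, M0 ∣ (1 + a * t - a ^ 2 * P) * Ri - 1) ∧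
    (∀ c : CD, c.OK → c.q ∣ M0n → c.p ∣ M0n → ∀ _ : NeZero c.q,
      RelM4 (chi c.q c.p c.T) t P a b = 0) := by
  obtain ⟨R, hR⟩ : ∃ R, R = 1 + a * t - a ^ 2 * P := ⟨_, rfl⟩
  obtain ⟨B, hB⟩ : ∃ B, B = 2 * a * P - t := ⟨_, rfl⟩
  have hDi : ∀ l : ℕ, l ∈ [3, 5, 7, 13, 19, 37, 73] → ¬ (l : ℤ) ∣ (t ^ 2 + 4 * P) := by
    intro l hl hd
    apply hin l hl
    rw [(ZMod.intCast_zmod_eq_zero_iff_dvd _ _).mpr hd]
    exact ⟨0, by simp⟩
  have hcP : IsCoprime P M0 := by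
    apply isCoprime_M0 hP2
    intro l hl hd
    apply hin l hl
    have : ((P : ℤ) : ZMod l) = 0 := (ZMod.intCast_zmod_eq_zero_iff_dvd _ _).mpr hd
    push_cast
    rw [this]
    exact ⟨t, by ring⟩
  have hRodd : R % 2 = 1 := by
    obtain ⟨t', ht'⟩ : ∃ k, t = 2 * k + 1 := ⟨t / 2, by omega⟩
    obtain ⟨P', hP'⟩ : ∃ k, P = 2 * k + 1 := ⟨P / 2, by omega⟩
    rw [hR, ht', hP']
    have h3 : (a * (a - 1)) % 2 = 0 := by
      rcases Int.emod_two_eq_zero_or_one a with h | h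
      · rw [Int.mul_emod, h, zero_mul]; rfl
      · rw [Int.mul_emod, show (a - 1) % 2 = 0 by omega, mul_zero]; rfl
    have e : 1 + a * (2 * t' + 1) - a ^ 2 * (2 * P' + 1) =
        1 - a * (a - 1) + 2 * (a * t' - a ^ 2 * P') := by ring
    rw [e]
    omega
  have hcR : IsCoprime R M0 := by
    apply isCoprime_M0 hRodd
    intro l hl hd
    apply hin l hl
    have h0 : ((R : ℤ) : ZMod l) = 0 := (ZMod.intCast_zmod_eq_zero_iff_dvd _ _).mpr hd
    have e : t ^ 2 + 4 * P = B ^ 2 + 4 * P * R := by rw [hR, hB]; ring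
    rw [e]
    push_cast
    rw [h0]
    exact ⟨B, by ring⟩
  obtain ⟨Pi, u, hPi⟩ := hcP
  obtain ⟨Ri, v, hRi⟩ := hcR
  have hcD : Nat.Coprime M0n D := by
    have h1 : IsCoprime ((D : ℤ)) M0 := by
      rw [G.hD]
      apply isCoprime_M0 _ hDi
      obtain ⟨t', ht'⟩ : ∃ k, t = 2 * k + 1 := ⟨t / 2, by omega⟩
      rw [ht']
      have e : (2 * t' + 1) ^ 2 + 4 * P = 1 + 2 * (2 * t' ^ 2 + 2 * t' + 2 * P) := by ring
      rw [e]
      omega
    rw [M0_eq] at h1
    exact (Nat.isCoprime_iff_coprime.mp h1).symm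
  refine ⟨⟨Pi, -u, by linear_combination hPi⟩, ⟨Ri, -v, by rw [← hR]; linear_combination hRi⟩, ?_⟩
  intro c hc h1 h2 _
  have h3 : ¬ (c.p : ℤ) ∣ D := by
    intro h
    have h4 : c.p ∣ D := by exact_mod_cast h
    have h5 : c.p ∣ 1 := by
      rw [← hcD]
      exact Nat.dvd_gcd h2 h4
    exact hc.pp.one_lt.ne' (Nat.dvd_one.mp h5)
  exact G.rel_mod hP2 hc.pp hc.p2 h3 (Nat.Coprime.coprime_dvd_left h1 hcD) _ (chi_mul hc.mul)
    (chi_neg hc.q1 hc.mul hc.oth) (chi_sum hc.oth)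

theorem res_neg37 {t : ℤ} (hs : ¬ res t 37 < 19) : res (-t) 37 < 19 := by
  have e1 := res_int t (M := 37) (by norm_num)
  have e2 := res_int (-t) (M := 37) (by norm_num)
  have h1 := res_lt t (M := 37) (by norm_num)
  have h2 := res_lt (-t) (M := 37) (by norm_num)
  have h3 : (t % 37 + (-t) % 37) % 37 = 0 := by
    rw [← Int.add_emod]; simp
  have e1' : ((res t 37 : ℕ) : ℤ) = t % 37 := e1
  have e2' : ((res (-t) 37 : ℕ) : ℤ) = (-t) % 37 := e2
  rw [← e1', ← e2'] at h3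
  clear e1 e2 e1' e2'
  have h4 : (res t 37 + res (-t) 37) % 37 = 0 := by exact_mod_cast h3
  clear h3
  generalize res t 37 = u at *
  generalize res (-t) 37 = v at *
  omega

theorem res3 {x : ℤ} (h : x % 4 = 3) : res x 4 = 3 := by
  have e1 := res_int x (M := 4) (by norm_num)
  have e2 : ((res x 4 : ℕ) : ℤ) = ((3 : ℕ) : ℤ) := by
    rw [e1]
    push_cast
    exact h
  exact Nat.cast_injective e2

theorem core4 (hrun : AllRun4) {t P a b : ℤ} {D : ℕ} (G : Good4 t P a b D) (hP2 : P % 2 = 1)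
    (ht : t % 2 = 1) (hR4 : (1 + a * t - a ^ 2 * P) % 4 = 3)
    (hin : ∀ l : ℕ, l ∈ [3, 5, 7, 13, 19, 37, 73] → ¬ IsSquare ((t ^ 2 + 4 * P : ℤ) : ZMod l))
    (he0 : ¬ (4921 : ℤ) ∣ a) (he1 : ¬ XX a b) (he2 : ¬ XX (-a) (-b)) :
    False := by
  obtain ⟨⟨Pi, hPi⟩, ⟨Ri, hRi⟩, hrel⟩ := core_data G hP2 ht hin
  have hri : ∀ (x : ℤ) (l : ℕ), 0 < l → ((res x l : ℕ) : ℤ) = x % l := fun x l hl => res_int x hl
  have hz := exz he0
  by_cases hs : res t 37 < 19
  · have S : Sys4 ⟨t, P, a, b, Pi, Ri⟩ := by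
      apply mkSys4
      · exact G.con
      · exact hPi
      · exact hRi
      · exact ht
      · exact hP2
      · exact hin
      · exact hrel
    refine run4_sound S hs (hz a (Or.inl rfl)) (fun h => he1 (exx h)) ?_
      (hrun _ (res_lt a (by norm_num)))
    exact res3 hR4
  · have S : Sys4 ⟨-t, P, -a, -b, Pi, Ri⟩ := by
      apply mkSys4
      · have := G.con
        unfold Con4 Dat.B1 Dat.R
        simp only
        linear_combination -this
      · exact hPi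
      · have e : (1 + -a * -t - (-a) ^ 2 * P) = 1 + a * t - a ^ 2 * P := by ring
        unfold Dat.R
        simp only
        rw [e]
        exact hRi
      · simp only
        clear he0 he1 he2 hz hR4
        omega
      · exact hP2
      · intro l hl
        simp only
        rw [neg_sq]
        exact hin l hl
      · intro c hc h1 h2 i
        simp only
        rw [RelM4_neg, hrel c hc h1 h2 i, neg_zero]
    refine run4_sound S (res_neg37 hs) (hz (-a) (Or.inr rfl)) (fun h => he2 (exx h)) ?_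
      (hrun _ (res_lt (-a) (by norm_num)))
    have e : (1 + -a * -t - (-a) ^ 2 * P) = 1 + a * t - a ^ 2 * P := by ring
    rw [← e] at hR4
    exact res3 hR4

theorem core2 (hrun : run2 c133_73 c247_73_0 c247_73_1 c259_73 = true) {t P a : ℤ} {D : ℕ}
    (G : Good4 t P a t D) (hab : t = a * P) (ht : t % 2 = 1) (hP4 : P % 4 = 3)
    (hin : ∀ l : ℕ, l ∈ [3, 5, 7, 13, 19, 37, 73] → ¬ IsSquare ((t ^ 2 + 4 * P : ℤ) : ZMod l)) :
    False := by
  have hP2 : P % 2 = 1 := by omega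
  obtain ⟨⟨Pi, hPi⟩, ⟨Ri, hRi⟩, hrel⟩ := core_data G hP2 ht hin
  have S : Sys4 ⟨t, P, a, t, Pi, Ri⟩ := by
    apply mkSys4
    · exact G.con
    · exact hPi
    · exact hRi
    · exact ht
    · exact hP2
    · exact hin
    · exact hrel
  refine run2_sound S rfl ?_ hab ?_ hrun
  · change 1 + a * t - a ^ 2 * P = 1
    rw [hab]; ring
  · exact res3 hP4

end Pool.Agent.L0h49.P
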