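import Pool.Agent.L0h49.P.F2
import Pool.Agent.L0h49.P.K8

/-! One-parameter families: the contradiction. -/

set_option maxRecDepth 100000

namespace Pool.Agent.L0h49.P

open H419R2 Finset
open Pool.Agent.N911
open Pool.Agent.N156.EP (RelM4 Good4)
open Pool.Agent.L0h49.E (c481_61 c481_61_ok)

theorem isCoprime_list {x : ℤ} (h2 : x % 2 = 1) : ∀ L : List ℕ, (∀ l ∈ L, l.Prime) →
    (∀ l ∈ L, ¬ (l : ℤ) ∣ x) → IsCoprime x ((4 * L.prod : ℕ) : ℤ) := by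
  intro L
  induction L with
  | nil =>
    intro _ _
    have k : IsCoprime x 2 := by
      refine ⟨1, -(x / 2), ?_⟩
      omega
    have : ((4 * ([] : List ℕ).prod : ℕ) : ℤ) = 2 * 2 := by simp
    rw [this]
    exact k.mul_right k
  | cons l L ih =>
    intro hp hd
    have h1 := ih (fun l hl => hp l (List.mem_cons_of_mem _ hl))
      (fun l hl => hd l (List.mem_cons_of_mem _ hl))
    have h3 := (Nat.prime_iff_prime_int.mp (hp l (List.mem_cons_self)))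
    have h4 : IsCoprime x (l : ℤ) :=
      ((Prime.coprime_iff_not_dvd h3).mpr (hd l (List.mem_cons_self))).symm
    have e : ((4 * (l :: L).prod : ℕ) : ℤ) = ((4 * L.prod : ℕ) : ℤ) * l := by
      rw [List.prod_cons]; push_cast; ring
    rw [e]
    exact h1.mul_right h4

theorem odd_R_of {t P a : ℤ} (hP2 : P % 2 = 1) (ht : t % 2 = 1) :
    (1 + a * t - a ^ 2 * P) % 2 = 1 := by
  obtain ⟨t', ht'⟩ : ∃ k, t = 2 * k + 1 := ⟨t / 2, by omega⟩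
  obtain ⟨P', hP'⟩ : ∃ k, P = 2 * k + 1 := ⟨P / 2, by omega⟩
  rw [ht', hP']
  have h3 : (a * (a - 1)) % 2 = 0 := by
    rcases Int.emod_two_eq_zero_or_one a with h | h
    · rw [Int.mul_emod, h, zero_mul]; rfl
    · rw [Int.mul_emod, show (a - 1) % 2 = 0 by omega, mul_zero]; rfl
  have e : 1 + a * (2 * t' + 1) - a ^ 2 * (2 * P' + 1) =
      1 - a * (a - 1) + 2 * (a * t' - a ^ 2 * P') := by ring
  rw [e]
  omega

/-- the data of one relation -/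
def KeyH (z : Dat) (N : ℕ) : Prop := ∀ c : CD, c.OK → c.q ∣ N → c.p ∣ N →
  c.OK ∧ NRel4 c z ∧ ((z.P * z.Pi : ℤ) : ZMod c.q) = 1 ∧ ((z.R * z.Ri : ℤ) : ZMod c.q) = 1

theorem fam_core {L : List ℕ} (hL : ∀ l ∈ L, l.Prime) {t P a b : ℤ} {D : ℕ}
    (G : Good4 t P a b D) (hP2 : P % 2 = 1) (ht : t % 2 = 1)
    (hin : ∀ l ∈ L, ¬ IsSquare ((t ^ 2 + 4 * P : ℤ) : ZMod l)) :
    ∃ Pi Ri : ℤ, KeyH ⟨t, P, a, b, Pi, Ri⟩ (4 * L.prod) := by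
  obtain ⟨R, hR⟩ : ∃ R, R = 1 + a * t - a ^ 2 * P := ⟨_, rfl⟩
  obtain ⟨B, hB⟩ : ∃ B, B = 2 * a * P - t := ⟨_, rfl⟩
  have hcP : IsCoprime P ((4 * L.prod : ℕ) : ℤ) := by
    apply isCoprime_list hP2 L hL
    intro l hl hd
    apply hin l hl
    have : ((P : ℤ) : ZMod l) = 0 := (ZMod.intCast_zmod_eq_zero_iff_dvd _ _).mpr hd
    push_cast
    rw [this]
    exact ⟨t, by ring⟩
  have hcR : IsCoprime R ((4 * L.prod : ℕ) : ℤ) := by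
    apply isCoprime_list (by rw [hR]; exact odd_R_of hP2 ht) L hL
    intro l hl hd
    apply hin l hl
    have h0 : ((R : ℤ) : ZMod l) = 0 := (ZMod.intCast_zmod_eq_zero_iff_dvd _ _).mpr hd
    have e : t ^ 2 + 4 * P = B ^ 2 + 4 * P * R := by rw [hR, hB]; ring
    rw [e]
    push_cast
    rw [h0]
    exact ⟨B, by ring⟩
  obtain ⟨Pi, u, hPi⟩ := hcP
  obtain ⟨Ri, v, hRi⟩ := hcR
  have hcD : Nat.Coprime (4 * L.prod) D := by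
    have h1 : IsCoprime ((D : ℤ)) ((4 * L.prod : ℕ) : ℤ) := by
      rw [G.hD]
      apply isCoprime_list _ L hL
      · intro l hl hd
        apply hin l hl
        rw [(ZMod.intCast_zmod_eq_zero_iff_dvd _ _).mpr hd]
        exact ⟨0, by simp⟩
      · obtain ⟨t', ht'⟩ : ∃ k, t = 2 * k + 1 := ⟨t / 2, by omega⟩
        rw [ht']
        have e : (2 * t' + 1) ^ 2 + 4 * P = 1 + 2 * (2 * t' ^ 2 + 2 * t' + 2 * P) := by ring
        rw [e]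
        omega
    exact (Nat.isCoprime_iff_coprime.mp h1).symm
  refine ⟨Pi, Ri, ?_⟩
  intro c hc h1 h2
  have one : ∀ x u : ℤ, x + u * ((4 * L.prod : ℕ) : ℤ) = 1 → ((x : ℤ) : ZMod c.q) = 1 := by
    intro x u hx
    have h0 : (((4 * L.prod : ℕ) : ℤ) : ZMod c.q) = 0 :=
      (ZMod.intCast_zmod_eq_zero_iff_dvd _ _).mpr (Int.natCast_dvd_natCast.mpr h1)
    have h3 := congrArg (fun y : ℤ => (y : ZMod c.q)) hx
    rw [Int.cast_add, Int.cast_mul, h0, mul_zero, add_zero, Int.cast_one] at h3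
    exact h3
  have hPq : ((P * Pi : ℤ) : ZMod c.q) = 1 := one _ u (by linear_combination hPi)
  have hRq : (((1 + a * t - a ^ 2 * P) * Ri : ℤ) : ZMod c.q) = 1 :=
    one _ v (by rw [← hR]; linear_combination hRi)
  refine ⟨hc, nrel4_of hc hPq hRq ?_, hPq, hRq⟩
  intro _
  have h3 : ¬ (c.p : ℤ) ∣ D := by
    intro h
    have h4 : c.p ∣ D := by exact_mod_cast h
    have h5 : c.p ∣ 1 := by
      rw [← hcD]
      exact Nat.dvd_gcd h2 h4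
    exact hc.pp.one_lt.ne' (Nat.dvd_one.mp h5)
  exact G.rel_mod hP2 hc.pp hc.p2 h3 (Nat.Coprime.coprime_dvd_left h1 hcD) _ (chi_mul hc.mul)
    (chi_neg hc.q1 hc.mul hc.oth) (chi_sum hc.oth)

/-- primes for the three programs -/
def L3p : List ℕ := [5, 7, 13, 19, 37, 73]
def L3q : List ℕ := [5, 7, 13, 19, 37, 73, 61]
def L7p : List ℕ := [3, 5, 13, 19, 37, 73]
def L19p : List ℕ := [3, 5, 7, 13, 37, 73]

theorem iq61 : chkIq 61 Q61 = true := by decide +kernel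

/-- one step with a relation -/
theorem relH {z : Dat} {N : ℕ} (K : KeyH z N) {c : CD} (hc : c.OK) {full : ℕ} {M : ℕ}
    (h1 : c.q ∣ N) (h2 : c.p ∣ N) (h3 : c.q ∣ M) (h4 : full = 1 → c.p ∣ M) :
    c.OK ∧ NRel4 c z ∧ ((z.P * z.Pi : ℤ) : ZMod c.q) = 1 ∧
      ((z.R * z.Ri : ℤ) : ZMod c.q) = 1 ∧ c.q ∣ M ∧ (full = 1 → c.p ∣ M) := by
  obtain ⟨a, b, c', d⟩ := K c hc h1 h2
  exact ⟨a, b, c', d, h3, h4⟩

theorem hyp3 {z : Dat} (s : St) (K : KeyH z (4 * L3p.prod)) (ht : z.t % 2 = 1)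
    (hP : z.P % 2 = 1) (hin : ∀ l ∈ L3p, ¬ IsSquare ((z.t ^ 2 + 4 * z.P : ℤ) : ZMod l))
    (hs' : s.Hyp z (1 * 37 * 7 * 19 * 4 * 5 * 13 * 73)) :
    (prog3 s).Hyp z 1 := by
  have m : ∀ l, l ∈ ([5, 7, 13, 19, 37, 73] : List ℕ) →
      ¬ IsSquare ((z.t ^ 2 + 4 * z.P : ℤ) : ZMod l) := fun l hl => hin l hl
  refine ⟨⟨by norm_num, iq37, m 37 (by simp)⟩, ⟨by norm_num, iq7, m 7 (by simp)⟩,
    relH K c259_19_2_ok ?_ ?_ ?_ ?_, ⟨by norm_num, iq19, m 19 (by simp)⟩,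
    relH K c259_19_0_ok ?_ ?_ ?_ ?_, relH K c259_19_1_ok ?_ ?_ ?_ ?_,
    relH K c133_37_ok ?_ ?_ ?_ ?_, ⟨ht, hP⟩, relH K c148_7_ok ?_ ?_ ?_ ?_,
    relH K c148_19_ok ?_ ?_ ?_ ?_, ⟨by norm_num, iq5, m 5 (by simp)⟩,
    relH K c140_13_ok ?_ ?_ ?_ ?_, ⟨by norm_num, iq13, m 13 (by simp)⟩,
    relH K c95_13_ok ?_ ?_ ?_ ?_, relH K c185_13_ok ?_ ?_ ?_ ?_,
    relH K c133_13_ok ?_ ?_ ?_ ?_, relH K c91_37_ok ?_ ?_ ?_ ?_,
    ⟨by norm_num, iq73, m 73 (by simp)⟩, relH K c133_73_ok ?_ ?_ ?_ ?_,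
    relH K c247_73_0_ok ?_ ?_ ?_ ?_, relH K c247_73_1_ok ?_ ?_ ?_ ?_,
    relH K c259_73_ok ?_ ?_ ?_ ?_, hs'⟩ <;>
  first
  | decide +kernel
  | exact fun _ => by decide +kernel

theorem hyp7 {z : Dat} (K : KeyH z (4 * L7p.prod)) (ht : z.t % 2 = 1)
    (hP : z.P % 2 = 1) (hin : ∀ l ∈ L7p, ¬ IsSquare ((z.t ^ 2 + 4 * z.P : ℤ) : ZMod l)) :
    prog7.Hyp z 1 := by
  have m : ∀ l, l ∈ ([3, 5, 13, 19, 37, 73] : List ℕ) →
      ¬ IsSquare ((z.t ^ 2 + 4 * z.P : ℤ) : ZMod l) := fun l hl => hin l hl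
  refine ⟨⟨by norm_num, iq37, m 37 (by simp)⟩, ⟨by norm_num, iq19, m 19 (by simp)⟩,
    ⟨by norm_num, iq3, m 3 (by simp)⟩, relH K c111_19_0_ok ?_ ?_ ?_ ?_,
    relH K c111_19_1_ok ?_ ?_ ?_ ?_, ⟨ht, hP⟩, relH K c148_19_ok ?_ ?_ ?_ ?_,
    ⟨by norm_num, iq5, m 5 (by simp)⟩, ⟨by norm_num, iq13, m 13 (by simp)⟩,
    relH K c95_13_ok ?_ ?_ ?_ ?_, relH K c185_13_ok ?_ ?_ ?_ ?_,
    ⟨by norm_num, iq73, m 73 (by simp)⟩,
    relH K c247_73_0_ok ?_ ?_ ?_ ?_, relH K c247_73_1_ok ?_ ?_ ?_ ?_, trivial⟩ <;>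
  first
  | decide +kernel
  | exact fun _ => by decide +kernel

theorem hyp19 {z : Dat} (K : KeyH z (4 * L19p.prod)) (ht : z.t % 2 = 1)
    (hP : z.P % 2 = 1) (hin : ∀ l ∈ L19p, ¬ IsSquare ((z.t ^ 2 + 4 * z.P : ℤ) : ZMod l)) :
    prog19.Hyp z 1 := by
  have m : ∀ l, l ∈ ([3, 5, 7, 13, 37, 73] : List ℕ) →
      ¬ IsSquare ((z.t ^ 2 + 4 * z.P : ℤ) : ZMod l) := fun l hl => hin l hl
  refine ⟨⟨by norm_num, iq37, m 37 (by simp)⟩, ⟨by norm_num, iq7, m 7 (by simp)⟩,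
    ⟨ht, hP⟩, relH K c148_7_ok ?_ ?_ ?_ ?_, ⟨by norm_num, iq3, m 3 (by simp)⟩,
    ⟨by norm_num, iq5, m 5 (by simp)⟩, relH K c140_13_ok ?_ ?_ ?_ ?_,
    ⟨by norm_num, iq13, m 13 (by simp)⟩, relH K c105_13_ok ?_ ?_ ?_ ?_,
    relH K c185_13_ok ?_ ?_ ?_ ?_, relH K c91_37_ok ?_ ?_ ?_ ?_,
    ⟨by norm_num, iq73, m 73 (by simp)⟩, relH K c259_73_ok ?_ ?_ ?_ ?_, trivial⟩ <;>
  first
  | decide +kernel
  | exact fun _ => by decide +kernel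

end Pool.Agent.L0h49.P
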