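import Pool.Agent.L0h49.P.F3

/-! One-parameter families: discriminants with a small ramified prime. -/

set_option maxRecDepth 100000

namespace Pool.Agent.L0h49.P

open H419R2 Finset
open Pool.Agent.N911
open Pool.Agent.N156.EP (RelM4 Good4 Par4)

theorem fam_param {l a s b0 P0 : ℕ} (ha : 0 < a) (h2 : b0 * l + s = a * P0)
    (hal : Nat.Coprime a l) {t P b : ℤ} (hs : t = a * P + s) (hb : b * l = a * P - s) :
    ∃ κ : ℤ, t = ((b0 * l + 2 * s : ℕ) : ℤ) + ((a * l : ℕ) : ℤ) * κ ∧ P = P0 + l * κ ∧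
      b = b0 + a * κ := by
  have h2' : (b0 : ℤ) * l + s = a * P0 := by exact_mod_cast h2
  have h3 : (b - b0) * l = a * (P - P0) := by linear_combination hb - h2'
  have h4 : (a : ℤ) ∣ b - b0 := by
    have h5 : (a : ℤ) ∣ (b - b0) * l := ⟨P - P0, h3⟩
    exact (Nat.isCoprime_iff_coprime.mpr hal).dvd_of_dvd_mul_right h5
  obtain ⟨κ, hκ⟩ := h4
  have ha' : (a : ℤ) ≠ 0 := by exact_mod_cast ha.ne'
  have h6 : P - P0 = l * κ := by
    apply mul_left_cancel₀ ha'
    rw [← h3, hκ]; ring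
  refine ⟨κ, ?_, by linear_combination h6, by linear_combination hκ⟩
  push_cast
  linear_combination hs + (a : ℤ) * h6 - h2'

theorem close4 {l a s b0 P0 : ℕ} {pr : St} (ha : 0 < a) (h2 : b0 * l + s = a * P0)
    (hal : Nat.Coprime a l)
    (hrun : pr.ev (b0 * l + 2 * s) (a * l) P0 l a 0 b0 a 1 0 = true) {t P b : ℤ}
    (hs : t = a * P + s) (hb : b * l = a * P - s) {Pi Ri : ℤ}
    (hH : pr.Hyp ⟨t, P, a, b, Pi, Ri⟩ 1) : False := by
  obtain ⟨κ, h3, h4, h5⟩ := fam_param ha h2 hal hs hb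
  refine ev_sound (z := ⟨t, P, a, b, Pi, Ri⟩) (κ := κ) ⟨h3, h4, ?_, h5⟩ pr 1 0 (by norm_num)
    (by norm_num) hH hrun
  push_cast; ring

theorem close2 {l : ℕ} {pr : St} (hrun : pr.ev 0 l l 0 0 1 0 l 1 0 = true) {t a : ℤ}
    (ht : t = a * l) {Pi Ri : ℤ} (hH : pr.Hyp ⟨t, l, a, t, Pi, Ri⟩ 1) : False := by
  refine ev_sound (z := ⟨t, l, a, t, Pi, Ri⟩) (κ := a) ⟨?_, ?_, ?_, ?_⟩ pr 1 0 (by norm_num)
    (by norm_num) hH hrun
  · change t = _
    rw [ht]; push_cast; ring
  · push_cast; ring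
  · push_cast; ring
  · change t = _
    rw [ht]; push_cast; ring

theorem L3p_prime : ∀ l ∈ L3p, l.Prime := by
  unfold L3p
  simp only [List.mem_cons, List.not_mem_nil, or_false, forall_eq_or_imp, forall_eq]
  norm_num

theorem L3q_prime : ∀ l ∈ L3q, l.Prime := by
  unfold L3q
  simp only [List.mem_cons, List.not_mem_nil, or_false, forall_eq_or_imp, forall_eq]
  norm_num

theorem L7p_prime : ∀ l ∈ L7p, l.Prime := by
  unfold L7p
  simp only [List.mem_cons, List.not_mem_nil, or_false, forall_eq_or_imp, forall_eq]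
  norm_num

theorem L19p_prime : ∀ l ∈ L19p, l.Prime := by
  unfold L19p
  simp only [List.mem_cons, List.not_mem_nil, or_false, forall_eq_or_imp, forall_eq]
  norm_num

theorem keyH_mono {z : Dat} {N N' : ℕ} (h : KeyH z N) (hd : N' ∣ N) : KeyH z N' :=
  fun c hc h1 h2 => h c hc (h1.trans hd) (h2.trans hd)

/-- period two, `P = 3` -/
theorem no2_3 {t a : ℤ} {D : ℕ} (G : Good4 t (3 : ℕ) a t D) (hta : t = a * (3 : ℕ))
    (ht : t % 2 = 1) (hin : ∀ l ∈ L3p, ¬ IsSquare ((t ^ 2 + 4 * (3 : ℕ) : ℤ) : ZMod l)) :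
    False := by
  obtain ⟨Pi, Ri, K⟩ := fam_core L3p_prime G (by norm_num) ht hin
  exact close2 fam2_3 hta (hyp3 _ K ht (by norm_num) hin trivial)

/-- period two, `P = 7` -/
theorem no2_7 {t a : ℤ} {D : ℕ} (G : Good4 t (7 : ℕ) a t D) (hta : t = a * (7 : ℕ))
    (ht : t % 2 = 1) (hin : ∀ l ∈ L7p, ¬ IsSquare ((t ^ 2 + 4 * (7 : ℕ) : ℤ) : ZMod l)) :
    False := by
  obtain ⟨Pi, Ri, K⟩ := fam_core L7p_prime G (by norm_num) ht hin
  exact close2 fam2_7 hta (hyp7 K ht (by norm_num) hin)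

/-- period two, `P = 19` -/
theorem no2_19 {t a : ℤ} {D : ℕ} (G : Good4 t (19 : ℕ) a t D) (hta : t = a * (19 : ℕ))
    (ht : t % 2 = 1) (hin : ∀ l ∈ L19p, ¬ IsSquare ((t ^ 2 + 4 * (19 : ℕ) : ℤ) : ZMod l)) :
    False := by
  obtain ⟨Pi, Ri, K⟩ := fam_core L19p_prime G (by norm_num) ht hin
  exact close2 fam2_19 hta (hyp19 K ht (by norm_num) hin)

/-- the third entry `R = 1 + a s` -/
theorem as_of {t P a b : ℤ} {l : ℤ} (hR : 1 + a * t - a ^ 2 * P = l)
    (hc : b * (1 + a * t - a ^ 2 * P) = 2 * a * P - t) :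
    a * (t - a * P) = l - 1 ∧ b * l = a * P - (t - a * P) := by
  constructor
  · linear_combination hR
  · rw [hR] at hc; linear_combination hc

/-- period four, `R = 3` -/
theorem no4_3 {t P a b : ℤ} {D : ℕ} (G : Good4 t P a b D) (ha : 0 < a)
    (hR : 1 + a * t - a ^ 2 * P = 3) (ht : t % 2 = 1) (hP : P % 2 = 1)
    (hin : ∀ l ∈ L3q, ¬ IsSquare ((t ^ 2 + 4 * P : ℤ) : ZMod l)) : False := by
  obtain ⟨h1, h2⟩ := as_of hR G.con
  obtain ⟨s, hs⟩ : ∃ s, s = t - a * P := ⟨_, rfl⟩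
  rw [← hs] at h1 h2
  have hs0 : 0 < s := by
    by_contra h
    have : s ≤ 0 := by omega
    nlinarith
  have ha2 : a ≤ 2 := by nlinarith
  have hinp : ∀ l ∈ L3p, ¬ IsSquare ((t ^ 2 + 4 * P : ℤ) : ZMod l) := by
    intro l hl
    apply hin l
    unfold L3p at hl
    unfold L3q
    simp only [List.mem_cons, List.not_mem_nil, or_false] at hl ⊢
    rcases hl with h | h | h | h | h | h <;> simp [h]
  obtain ⟨Pi, Ri, K⟩ := fam_core L3q_prime G hP ht hin
  have K' : KeyH ⟨t, P, a, b, Pi, Ri⟩ (4 * L3p.prod) := keyH_mono K (by decide)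
  interval_cases a
  · have hs2 : s = 2 := by linarith
    subst hs2
    refine close4 (l := 3) (a := 1) (s := 2) (b0 := 0) (P0 := 2) (by norm_num) (by norm_num)
      (by norm_num) fam_3_1 (t := t) (P := P) (b := b) (by push_cast; linarith)
      (by push_cast; linarith) (Pi := Pi) (Ri := Ri) ?_
    refine hyp3 (z := ⟨t, P, (1 : ℕ), b, Pi, Ri⟩) tail61 K' ht hP hinp ?_
    refine ⟨⟨by norm_num, iq61, ?_⟩, relH K Pool.Agent.L0h49.E.c481_61_ok ?_ ?_ ?_ ?_, trivial⟩
    · exact hin 61 (by unfold L3q; simp)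
    · decide +kernel
    · decide +kernel
    · decide +kernel
    · exact fun _ => by decide +kernel
  · have hs2 : s = 1 := by linarith
    subst hs2
    refine close4 (l := 3) (a := 2) (s := 1) (b0 := 1) (P0 := 2) (by norm_num) (by norm_num)
      (by norm_num) fam_3_2 (t := t) (P := P) (b := b) (by push_cast; linarith)
      (by push_cast; linarith) (Pi := Pi) (Ri := Ri) ?_
    exact hyp3 (z := ⟨t, P, (2 : ℕ), b, Pi, Ri⟩) .nil K' ht hP hinp trivial

/-- period four, `R = 7` -/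
theorem no4_7 {t P a b : ℤ} {D : ℕ} (G : Good4 t P a b D) (ha : 0 < a)
    (hR : 1 + a * t - a ^ 2 * P = 7) (ht : t % 2 = 1) (hP : P % 2 = 1)
    (hin : ∀ l ∈ L7p, ¬ IsSquare ((t ^ 2 + 4 * P : ℤ) : ZMod l)) : False := by
  obtain ⟨h1, h2⟩ := as_of hR G.con
  obtain ⟨s, hs⟩ : ∃ s, s = t - a * P := ⟨_, rfl⟩
  rw [← hs] at h1 h2
  have hs0 : 0 < s := by
    by_contra h
    have : s ≤ 0 := by omega
    nlinarith
  have ha2 : a ≤ 6 := by nlinarith
  obtain ⟨Pi, Ri, K⟩ := fam_core L7p_prime G hP ht hin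
  interval_cases a
  · have hs2 : s = 6 := by linarith
    subst hs2
    exact close4 (l := 7) (a := 1) (s := 6) (b0 := 0) (P0 := 6) (by norm_num) (by norm_num)
      (by norm_num) fam_7_1 (t := t) (P := P) (b := b) (by push_cast; linarith)
      (by push_cast; linarith) (Pi := Pi) (Ri := Ri)
      (hyp7 (z := ⟨t, P, (1 : ℕ), b, Pi, Ri⟩) K ht hP hin)
  · have hs2 : s = 3 := by linarith
    subst hs2
    exact close4 (l := 7) (a := 2) (s := 3) (b0 := 1) (P0 := 5) (by norm_num) (by norm_num)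
      (by norm_num) fam_7_2 (t := t) (P := P) (b := b) (by push_cast; linarith)
      (by push_cast; linarith) (Pi := Pi) (Ri := Ri)
      (hyp7 (z := ⟨t, P, (2 : ℕ), b, Pi, Ri⟩) K ht hP hin)
  · have hs2 : s = 2 := by linarith
    subst hs2
    exact close4 (l := 7) (a := 3) (s := 2) (b0 := 1) (P0 := 3) (by norm_num) (by norm_num)
      (by norm_num) fam_7_3 (t := t) (P := P) (b := b) (by push_cast; linarith)
      (by push_cast; linarith) (Pi := Pi) (Ri := Ri)
      (hyp7 (z := ⟨t, P, (3 : ℕ), b, Pi, Ri⟩) K ht hP hin)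
  · omega
  · omega
  · have hs2 : s = 1 := by linarith
    subst hs2
    exact close4 (l := 7) (a := 6) (s := 1) (b0 := 5) (P0 := 6) (by norm_num) (by norm_num)
      (by norm_num) fam_7_6 (t := t) (P := P) (b := b) (by push_cast; linarith)
      (by push_cast; linarith) (Pi := Pi) (Ri := Ri)
      (hyp7 (z := ⟨t, P, (6 : ℕ), b, Pi, Ri⟩) K ht hP hin)

/-- period four, `R = 19` -/
theorem no4_19 {t P a b : ℤ} {D : ℕ} (G : Good4 t P a b D) (ha : 0 < a)
    (hR : 1 + a * t - a ^ 2 * P = 19) (ht : t % 2 = 1) (hP : P % 2 = 1)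
    (hin : ∀ l ∈ L19p, ¬ IsSquare ((t ^ 2 + 4 * P : ℤ) : ZMod l)) : False := by
  obtain ⟨h1, h2⟩ := as_of hR G.con
  obtain ⟨s, hs⟩ : ∃ s, s = t - a * P := ⟨_, rfl⟩
  rw [← hs] at h1 h2
  have hs0 : 0 < s := by
    by_contra h
    have : s ≤ 0 := by omega
    nlinarith
  have ha2 : a ≤ 18 := by nlinarith
  obtain ⟨Pi, Ri, K⟩ := fam_core L19p_prime G hP ht hin
  interval_cases a
  · have hs2 : s = 18 := by linarith
    subst hs2
    exact close4 (l := 19) (a := 1) (s := 18) (b0 := 0) (P0 := 18) (by norm_num) (by norm_num)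
      (by norm_num) fam_19_1 (t := t) (P := P) (b := b) (by push_cast; linarith)
      (by push_cast; linarith) (Pi := Pi) (Ri := Ri)
      (hyp19 (z := ⟨t, P, (1 : ℕ), b, Pi, Ri⟩) K ht hP hin)
  · have hs2 : s = 9 := by linarith
    subst hs2
    exact close4 (l := 19) (a := 2) (s := 9) (b0 := 1) (P0 := 14) (by norm_num) (by norm_num)
      (by norm_num) fam_19_2 (t := t) (P := P) (b := b) (by push_cast; linarith)
      (by push_cast; linarith) (Pi := Pi) (Ri := Ri)
      (hyp19 (z := ⟨t, P, (2 : ℕ), b, Pi, Ri⟩) K ht hP hin)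
  · have hs2 : s = 6 := by linarith
    subst hs2
    exact close4 (l := 19) (a := 3) (s := 6) (b0 := 0) (P0 := 2) (by norm_num) (by norm_num)
      (by norm_num) fam_19_3 (t := t) (P := P) (b := b) (by push_cast; linarith)
      (by push_cast; linarith) (Pi := Pi) (Ri := Ri)
      (hyp19 (z := ⟨t, P, (3 : ℕ), b, Pi, Ri⟩) K ht hP hin)
  · omega
  · omega
  · have hs2 : s = 3 := by linarith
    subst hs2
    exact close4 (l := 19) (a := 6) (s := 3) (b0 := 3) (P0 := 10) (by norm_num) (by norm_num)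
      (by norm_num) fam_19_6 (t := t) (P := P) (b := b) (by push_cast; linarith)
      (by push_cast; linarith) (Pi := Pi) (Ri := Ri)
      (hyp19 (z := ⟨t, P, (6 : ℕ), b, Pi, Ri⟩) K ht hP hin)
  · omega
  · omega
  · have hs2 : s = 2 := by linarith
    subst hs2
    exact close4 (l := 19) (a := 9) (s := 2) (b0 := 7) (P0 := 15) (by norm_num) (by norm_num)
      (by norm_num) fam_19_9 (t := t) (P := P) (b := b) (by push_cast; linarith)
      (by push_cast; linarith) (Pi := Pi) (Ri := Ri)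
      (hyp19 (z := ⟨t, P, (9 : ℕ), b, Pi, Ri⟩) K ht hP hin)
  · omega
  · omega
  · omega
  · omega
  · omega
  · omega
  · omega
  · omega
  · have hs2 : s = 1 := by linarith
    subst hs2
    exact close4 (l := 19) (a := 18) (s := 1) (b0 := 17) (P0 := 18) (by norm_num) (by norm_num)
      (by norm_num) fam_19_18 (t := t) (P := P) (b := b) (by push_cast; linarith)
      (by push_cast; linarith) (Pi := Pi) (Ri := Ri)
      (hyp19 (z := ⟨t, P, (18 : ℕ), b, Pi, Ri⟩) K ht hP hin)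

end Pool.Agent.L0h49.P
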