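import Pool.Agent.L0h49.P.K3

/-! The search in the class `a ≡ 0` modulo `7 · 19 · 37`, with characters of conductors
`8 · 37`, `8 · 3 · 19` and `4 · 7 · 19`. -/

set_option maxRecDepth 100000

namespace Pool.Agent.L0h49.P

open H419R2
open Pool.Agent.N911

/-- inverses modulo 8 -/
def I8 : ℕ := 3940821478932608
/-- local data modulo 8 with `R ≡ 3 (mod 4)` -/
def M8 : LL := (LL.cons 1 1 3 35 49 203 189 77 (LL.cons 1 1 7 35 21 427 441 105 (LL.cons 1 3 1 21 49 77 427 203 (LL.cons 1 3 5 21 21 301 175 175 (LL.cons 1 5 3 7 21 175 413 301 (LL.cons 1 5 7 7 49 399 217 329 (LL.cons 1 7 1 49 21 105 203 427 (LL.cons 1 7 5 49 49 329 399 399 (LL.cons 2 1 5 7 49 287 441 105 (LL.cons 2 1 5 21 49 301 315 91 (LL.cons 2 1 5 35 49 315 189 77 (LL.cons 2 1 5 49 49 329 63 63 (LL.cons 2 3 3 7 21 175 77 189 (LL.cons 2 3 3 21 21 189 175 175 (LL.cons 2 3 3 35 21 203 329 217 (LL.cons 2 3 3 49 21 217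 427 203 (LL.cons 2 5 1 7 49 63 217 329 (LL.cons 2 5 1 21 49 77 91 315 (LL.cons 2 5 1 35 49 91 413 301 (LL.cons 2 5 1 49 49 105 287 287 (LL.cons 2 7 7 7 21 399 301 413 (LL.cons 2 7 7 21 21 413 399 399 (LL.cons 2 7 7 35 21 427 105 441 (LL.cons 2 7 7 49 21 441 203 427 (LL.cons 3 1 3 21 49 189 315 91 (LL.cons 3 1 7 21 21 413 63 63 (LL.cons 3 3 1 35 49 91 77 189 (LL.cons 3 3 5 35 21 315 329 217 (LL.cons 3 5 3 49 21 217 91 315 (LL.cons 3 5 7 49 49 441 287 287 (LL.cons 3 7 1 7 21 63 301 413 (LL.cons 3 7 5 7 49 287 105 441 (LL.cons 5 1 3 7 49 175 441 105 (LL.cons 5 1 7 7 21 399 189 77 (LL.cons 5 3 1 49 49 105 175 175 (LL.cons 5 3 5 49 21 329 427 203 (LL.cons 5 5 3 35 21 203 217 329 (LL.cons 5 5 7 35 49 427 413 301 (LL.cons 5 7 1 21 21 77 399 399 (LL.cons 5 7 5 21 49 301 203 427 (LL.cons 6 1 1 7 21 63 189 77 (LL.cons 6 1 1 21 21 77 63 63 (LL.cons 6 1 1 35 21 91 441 105 (LL.cons 6 1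 1 49 21 105 315 91 (LL.cons 6 3 7 7 49 399 329 217 (LL.cons 6 3 7 21 49 413 427 203 (LL.cons 6 3 7 35 49 427 77 189 (LL.cons 6 3 7 49 49 441 175 175 (LL.cons 6 5 5 7 21 287 413 301 (LL.cons 6 5 5 21 21 301 287 287 (LL.cons 6 5 5 35 21 315 217 329 (LL.cons 6 5 5 49 21 329 91 315 (LL.cons 6 7 3 7 49 175 105 441 (LL.cons 6 7 3 21 49 189 203 427 (LL.cons 6 7 3 35 49 203 301 413 (LL.cons 6 7 3 49 49 217 399 399 (LL.cons 7 1 3 49 49 217 63 63 (LL.cons 7 1 7 49 21 441 315 91 (LL.cons 7 3 1 7 49 63 329 217 (LL.cons 7 3 5 7 21 287 77 189 (LL.cons 7 5 3 21 21 189 287 287 (LL.cons 7 5 7 21 49 413 91 315 (LL.cons 7 7 1 35 21 91 105 441 (LL.cons 7 7 5 35 49 315 301 413 LL.nil))))))))))))))))))))))))))))))))))))))))))))))))))))))))))))))))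

/-- direct evaluation from three local indices; `e1, e2, e3` are idempotents -/
def evD3 (c : CD) (l1 e1 l2 e2 l3 e3 k1 k2 k3 : ℕ) : ℕ :=
  force (Nat.div k1 7) (fun k1 => force (Nat.div k2 7) (fun k2 => force (Nat.div k3 7) (fun k3 =>
    evB c (Nat.add (Nat.add (Nat.mul (Nat.div k1 l1) e1) (Nat.mul (Nat.div k2 l2) e2))
        (Nat.mul (Nat.div k3 l3) e3))
      (Nat.add (Nat.add (Nat.mul (Nat.mod k1 l1) e1) (Nat.mul (Nat.mod k2 l2) e2))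
        (Nat.mul (Nat.mod k3 l3) e3)))))

/-- direct evaluation of the character -/
def chD3 (c : CD) (e1 e2 e3 P1 P2 P3 : ℕ) : ℕ :=
  look c.T (Nat.mod (Nat.add (Nat.add (Nat.mul (Nat.div P1 7) e1) (Nat.mul (Nat.div P2 7) e2))
    (Nat.mul (Nat.div P3 7) e3)) c.q)

/-- check of a relation, used only if all `B2` sums vanish -/
def ckW (p cP e0 e1 e2 : ℕ) : Bool :=
  force cP (fun cP => force e0 (fun e0 => force e1 (fun e1 =>
    @Bool.rec (fun _ => Bool)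
      (@Bool.rec (fun _ => Bool) true
        (@Bool.rec (fun _ => Bool) true
          (force e2 (fun e2 => not (Nat.beq (Nat.div e2 128) 0)))
          (Nat.beq (Nat.div e1 128) 0))
        (Nat.beq (Nat.div e0 128) 0))
      true
      (Nat.beq (Nat.mod (Nat.add (Nat.mod e0 128) (Nat.mul cP (Nat.mod e1 128))) p) 0))))

/-- stage modulo 7 -/
def U7 (c5 c6 : CD) (a37 b37 t37 P4 R4 i4 j4 k4 P19 R19 i19 j19 k19 : ℕ) : Bool :=
  enF4 7 I7 Q7 0 7 (fun _ _ _ P7 R7 i7 j7 k7 =>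
    imp (ckW 73 (chD3 c5 133 456 476 P4 P7 P19) (evD3 c5 4 133 7 456 19 476 i4 i7 i19)
      (evD3 c5 4 133 7 456 19 476 j4 j7 j19) (evD3 c5 4 133 7 456 19 476 k4 k7 k19))
    (imp (ckF4 37 (chD3 c6 133 456 476 P4 P7 P19) (chD3 c6 133 456 476 R4 R7 R19)
      (evD3 c6 4 133 7 456 19 476 i4 i7 i19) (evD3 c6 4 133 7 456 19 476 j4 j7 j19)
      (evD3 c6 4 133 7 456 19 476 k4 k7 k19) a37 b37 t37) false))

/-- stages modulo 19 and 3 -/
noncomputable def U19 (p19 : ℕ → Bool) (c4 c5 c6 : CD)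
    (a37 b37 t37 wP wR w0 w1 w2 zP zR z0 z1 z2 : ℕ)
    (P4 R4 i4 j4 k4 P8 i8 j8 k8 : ℕ) : Bool :=
  enF4 19 I19 Q19 0 19 (fun a19 b19 t19 P19 R19 i19 j19 k19 => imp (p19 t19) (
  force (sl 144 E228 i19) (fun r0 => force (sl 144 E228 j19) (fun r1 =>
  force (sl 12 X228 P19) (fun rP =>
  M3.all (fun _ _ _ P3 R3 i3 j3 k3 =>
    imp (ckF4 19 (sl1 wP P3) (sl1 wR R3) (sl2 w0 i3) (sl2 w1 j3) (sl2 w2 k3) a19 b19 t19)
    (imp (ckF4 19 (sl1 zP P3) (sl1 zR R3) (sl2 z0 i3) (sl2 z1 j3) (sl2 z2 k3) a19 b19 t19)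
    (imp (ckV4 7 (sl 4 rP P3) (sl 16 r0 i3) (sl 16 r1 j3) P4 i4 j4)
    (imp (ckW 7 (chD3 c4 57 304 96 P8 P3 P19) (evD3 c4 8 57 3 304 19 96 i8 i3 i19)
      (evD3 c4 8 57 3 304 19 96 j8 j3 j19) (evD3 c4 8 57 3 304 19 96 k8 k3 k19))
    (U7 c5 c6 a37 b37 t37 P4 R4 i4 j4 k4 P19 R19 i19 j19 k19))))))))))

/-- stages modulo 4 and 8 -/
noncomputable def U8 (p8 p19 : ℕ → Bool) (c1 c2 c3 c4 c5 c6 : CD) (a37 b37 t37 P37 R37 i37 j37 k37 : ℕ) : Bool :=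
  force (sl 16 E148_7 i37) (fun u0 => force (sl 16 E148_7 j37) (fun u1 =>
  force (sl 4 X148_7 P37) (fun uP =>
  force (sl 16 E148_19 i37) (fun v0 => force (sl 16 E148_19 j37) (fun v1 =>
  force (sl 4 X148_19 P37) (fun vP =>
  M4.all (fun a4 b4 t4 P4 R4 i4 j4 k4 =>
    imp (ckV4 7 uP u0 u1 P4 i4 j4) (imp (ckV4 19 vP v0 v1 P4 i4 j4)
    (M8.all (fun a8 b8 t8 P8 _ i8 j8 k8 => imp (p8 a8) (
      imp (cj (Nat.beq (Nat.mod a8 4) a4) (cj (Nat.beq (Nat.mod b8 4) b4)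
        (cj (Nat.beq (Nat.mod t8 4) t4) (Nat.beq (Nat.mod P8 28) P4))))
      (imp (ckW 7 (chD c2 112 185 P37 P8) (evD c2 37 112 8 185 i37 i8)
        (evD c2 37 112 8 185 j37 j8) (evD c2 37 112 8 185 k37 k8))
      (imp (ckW 7 (chD c3 112 185 P37 P8) (evD c3 37 112 8 185 i37 i8)
        (evD c3 37 112 8 185 j37 j8) (evD c3 37 112 8 185 k37 k8))
      (imp (ckW 5 (chD c1 112 185 P37 P8) (evD c1 37 112 8 185 i37 i8)
        (evD c1 37 112 8 185 j37 j8) (evD c1 37 112 8 185 k37 k8))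
      (force (sl 18 E111_0 i37) (fun w0 => force (sl 18 E111_0 j37) (fun w1 =>
      force (sl 18 E111_0 k37) (fun w2 => force (sl 3 X111_0 P37) (fun wP =>
      force (sl 3 X111_0 R37) (fun wR =>
      force (sl 18 E111_1 i37) (fun z0 => force (sl 18 E111_1 j37) (fun z1 =>
      force (sl 18 E111_1 k37) (fun z2 => force (sl 3 X111_1 P37) (fun zP =>
      force (sl 3 X111_1 R37) (fun zR =>
      U19 p19 c4 c5 c6 a37 b37 t37 wP wR w0 w1 w2 zP zR z0 z1 z2 P4 R4 i4 j4 k4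
        P8 i8 j8 k8)))))))))))))))))))))))))

/-- a part of the search, given by conditions on `b` modulo 37, `a` modulo 8, `t` modulo 19 -/
noncomputable def run0 (p37 p8 p19 : ℕ → Bool) (c1 c2 c3 c4 c5 c6 : CD) : Bool :=
  enF4 37 I37 Q37 0 19 (fun a37 b37 t37 P37 R37 i37 j37 k37 =>
    imp (p37 b37) (U8 p8 p19 c1 c2 c3 c4 c5 c6 a37 b37 t37 P37 R37 i37 j37 k37))

/-- no condition -/
def pT : ℕ → Bool := fun _ => true

/-- neither `34` nor `36` -/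
def pN : ℕ → Bool := fun b => cj (not (Nat.beq b 34)) (not (Nat.beq b 36))

/-- at most four -/
def p4 : ℕ → Bool := fun a => Nat.ble a 4

/-- more than four -/
def q4 : ℕ → Bool := fun a => not (Nat.ble a 4)

/-- at most nine -/
def p9 : ℕ → Bool := fun a => Nat.ble a 9

/-- between ten and fifteen -/
def p15 : ℕ → Bool := fun a => cj (Nat.ble a 15) (not (Nat.ble a 9))

/-- more than fifteen -/
def q15 : ℕ → Bool := fun a => not (Nat.ble a 15)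

end Pool.Agent.L0h49.P
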