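import Pool.Agent.L0h49.P.K8
import Pool.Agent.L0h49.P.K0
import Pool.Agent.L0h49.P.G296
import Pool.Agent.L0h49.P.G456
import Pool.Agent.L0h49.P.G532

/-! Soundness of the search in the class `a ≡ 0` modulo `7 · 19 · 37`. -/

set_option autoImplicit false
set_option maxRecDepth 100000
set_option maxHeartbeats 4000000

namespace Pool.Agent.L0h49.P

open H419R2 Finset
open Pool.Agent.N911
open Pool.Agent.N156.EP (RelM4 Good4)

/-- idempotents -/
def idem3 (l1 e1 l2 e2 l3 e3 q : ℕ) : Bool :=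
  cj (Nat.beq (Nat.mul (Nat.mul l1 l2) l3) q) (cj (Nat.beq (Nat.gcd l1 l2) 1)
    (cj (Nat.beq (Nat.gcd (Nat.mul l1 l2) l3) 1)
    (cj (Nat.beq (Nat.mod e1 l1) 1) (cj (Nat.beq (Nat.mod e1 l2) 0) (cj (Nat.beq (Nat.mod e1 l3) 0)
    (cj (Nat.beq (Nat.mod e2 l1) 0) (cj (Nat.beq (Nat.mod e2 l2) 1) (cj (Nat.beq (Nat.mod e2 l3) 0)
    (cj (Nat.beq (Nat.mod e3 l1) 0) (cj (Nat.beq (Nat.mod e3 l2) 0)
      (Nat.beq (Nat.mod e3 l3) 1)))))))))))

theorem cmod {e l n : ℕ} (h : Nat.beq (Nat.mod e l) n = true) : (e : ZMod l) = n := by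
  have : e % l = n := Nat.eq_of_beq_eq_true h
  rw [← ZMod.natCast_mod, this]

theorem idem3_sound {l1 e1 l2 e2 l3 e3 q : ℕ} (h : idem3 l1 e1 l2 e2 l3 e3 q = true) (x : ℤ)
    (h1 : 0 < l1) (h2 : 0 < l2) (h3 : 0 < l3) :
    ((res x l1 * e1 + res x l2 * e2 + res x l3 * e3 : ℕ) : ZMod q) = x := by
  unfold idem3 at h
  simp only [cj_true] at h
  obtain ⟨a1, a2, a3, b1, b2, b3, c1, c2, c3, d1, d2, d3⟩ := h
  have a1' : l1 * l2 * l3 = q := Nat.eq_of_beq_eq_true a1
  have a2' : Nat.Coprime l1 l2 := Nat.eq_of_beq_eq_true a2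
  have a3' : Nat.Coprime (l1 * l2) l3 := Nat.eq_of_beq_eq_true a3
  have k1 : (l1 : ℤ) ∣ (res x l1 * e1 + res x l2 * e2 + res x l3 * e3 : ℕ) - x := by
    rw [← ZMod.intCast_zmod_eq_zero_iff_dvd]
    push_cast
    rw [cmod b1, cmod c1, cmod d1, res_cast' x h1]
    push_cast; ring
  have k2 : (l2 : ℤ) ∣ (res x l1 * e1 + res x l2 * e2 + res x l3 * e3 : ℕ) - x := by
    rw [← ZMod.intCast_zmod_eq_zero_iff_dvd]
    push_cast
    rw [cmod b2, cmod c2, cmod d2, res_cast' x h2]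
    push_cast; ring
  have k3 : (l3 : ℤ) ∣ (res x l1 * e1 + res x l2 * e2 + res x l3 * e3 : ℕ) - x := by
    rw [← ZMod.intCast_zmod_eq_zero_iff_dvd]
    push_cast
    rw [cmod b3, cmod c3, cmod d3, res_cast' x h3]
    push_cast; ring
  have k4 : ((q : ℕ) : ℤ) ∣ (res x l1 * e1 + res x l2 * e2 + res x l3 * e3 : ℕ) - x := by
    rw [← a1', Nat.cast_mul, Nat.cast_mul]
    have j : IsCoprime ((l1 : ℤ) * l2) (l3 : ℤ) := by
      rw [← Nat.cast_mul]
      exact Nat.isCoprime_iff_coprime.mpr a3'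
    exact IsCoprime.mul_dvd j (IsCoprime.mul_dvd (Nat.isCoprime_iff_coprime.mpr a2') k1 k2) k3
  rw [← ZMod.intCast_zmod_eq_zero_iff_dvd] at k4
  push_cast at k4 ⊢
  linear_combination k4

theorem evD3_sound {c : CD} (hc : c.OK) {l1 e1 l2 e2 l3 e3 : ℕ} (h1 : 0 < l1) (h2 : 0 < l2)
    (h3 : 0 < l3) (h : idem3 l1 e1 l2 e2 l3 e3 c.q = true) (B C : ℤ) :
    Ent c (evD3 c l1 e1 l2 e2 l3 e3 (pk l1 B C) (pk l2 B C) (pk l3 B C)) B C := by
  unfold evD3
  rw [force_eq, force_eq, force_eq, pk_div h1, pk_div h2, pk_div h3]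
  have d : ∀ l : ℕ, 0 < l → (res B l * l + res C l) / l = res B l := by
    intro l hl
    rw [mul_comm, Nat.mul_add_div hl, Nat.div_eq_of_lt (res_lt C hl), add_zero]
  have m : ∀ l : ℕ, 0 < l → (res B l * l + res C l) % l = res C l := by
    intro l hl
    rw [mul_comm, Nat.mul_add_mod, Nat.mod_eq_of_lt (res_lt C hl)]
  have d1 : Nat.div (res B l1 * l1 + res C l1) l1 = res B l1 := d l1 h1
  have d2 : Nat.div (res B l2 * l2 + res C l2) l2 = res B l2 := d l2 h2
  have d3 : Nat.div (res B l3 * l3 + res C l3) l3 = res B l3 := d l3 h3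
  have m1 : Nat.mod (res B l1 * l1 + res C l1) l1 = res C l1 := m l1 h1
  have m2 : Nat.mod (res B l2 * l2 + res C l2) l2 = res C l2 := m l2 h2
  have m3 : Nat.mod (res B l3 * l3 + res C l3) l3 = res C l3 := m l3 h3
  rw [d1, d2, d3, m1, m2, m3]
  exact evB_sound hc (idem3_sound h B h1 h2 h3) (idem3_sound h C h1 h2 h3)

theorem chD3_sound {c : CD} {l1 e1 l2 e2 l3 e3 : ℕ} (h1 : 0 < l1) (h2 : 0 < l2) (h3 : 0 < l3)
    (h : idem3 l1 e1 l2 e2 l3 e3 c.q = true) (x : ℤ) :
    Chv c (chD3 c e1 e2 e3 (7 * res x l1) (7 * res x l2) (7 * res x l3)) x := by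
  intro hq
  have hq0 : 0 < c.q := Nat.pos_of_ne_zero hq.out
  unfold chD3
  have d1 : Nat.div (7 * res x l1) 7 = res x l1 := Nat.mul_div_cancel_left _ (by norm_num)
  have d2 : Nat.div (7 * res x l2) 7 = res x l2 := Nat.mul_div_cancel_left _ (by norm_num)
  have d3 : Nat.div (7 * res x l3) 7 = res x l3 := Nat.mul_div_cancel_left _ (by norm_num)
  rw [d1, d2, d3]
  have h4 := idem3_sound h x h1 h2 h3
  rw [← h4]
  unfold chi
  rw [ZMod.val_natCast]
  rfl

theorem ckW_sound {c : CD} {z : Dat} (h : NRel4 c z) {p cP cR e0 e1 e2 : ℕ} (hp : c.p = p)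
    (h0 : Ent c e0 z.t z.P) (h1 : Ent c e1 (z.B1 * z.Pi) (z.R * z.Pi))
    (h2 : Ent c e2 (z.B1 * z.Ri) (z.P * z.Ri)) (hP : Chv c cP z.P) (hR : Chv c cR z.R) :
    ckW p cP e0 e1 e2 = true := by
  subst hp
  unfold ckW
  rw [force_eq, force_eq, force_eq, force_eq]
  have h3 := h e0 e1 e2 cP cR h0 h1 h2 hP hR
  generalize hA : Nat.beq (Nat.mod (Nat.add (Nat.mod e0 128) (Nat.mul cP (Nat.mod e1 128))) c.p) 0
    = A
  cases A with
  | true => rfl
  | false =>
    generalize hB : Nat.beq (Nat.div e0 128) 0 = B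
    cases B with
    | false => rfl
    | true =>
      generalize hC : Nat.beq (Nat.div e1 128) 0 = C
      cases C with
      | false => rfl
      | true =>
        generalize hD : Nat.beq (Nat.div e2 128) 0 = D
        cases D with
        | false => rfl
        | true =>
          exfalso
          have b : e0 / 128 = 0 := Nat.eq_of_beq_eq_true hB
          have c' : e1 / 128 = 0 := Nat.eq_of_beq_eq_true hC
          have d : e2 / 128 = 0 := Nat.eq_of_beq_eq_true hD
          rw [b, c', d] at h3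
          have h4 : Nat.beq (Nat.mod (Nat.add (Nat.mod e0 128) (Nat.mul cP (Nat.mod e1 128))) c.p) 0
              = true := by
            apply beq_mod
            change ((e0 % 128 + cP * (e1 % 128) : ℕ) : ZMod c.p) = 0
            push_cast
            push_cast at h3
            linear_combination h3
          rw [h4] at hA
          exact absurd hA (by simp)

/-- selection modulo 8 -/
def sel8 : Leaf := fun _ _ _ _ R _ _ _ => or (Nat.beq R 21) (Nat.beq R 49)

/-- check of the list modulo 8 -/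
noncomputable def chkL48 (sel : Leaf) (I : ℕ) (L : LL) : Bool :=
  allN 8 (fun a => allN 8 (fun b => cont4 8 a b (fun q0 q1 q2 => allN 8 (fun t => allN 8 (fun P =>
    imp (Nat.beq (Nat.mod t 2) 1) (imp (Nat.beq (Nat.mod P 2) 1)
      (imp (Nat.beq (Nat.mod (Nat.mul P q0) 8) (Nat.mod (Nat.add (Nat.mul t q1) q2) 8))
        (geo4 8 I a b t P (fun a b t P R k0 k1 k2 =>
          imp (sel a b t P R k0 k1 k2) (L.any (eqL a b t P R k0 k1 k2)))))))))))

theorem ci8 : chkI 8 I8 = true := by decide +kernel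

theorem cm8 : chkL48 sel8 I8 M8 = true := by decide +kernel

theorem L48_sound {z : Dat} {I : ℕ} {L : LL} {sel : Leaf} (H : LOK z 8 I) (ht : z.t % 2 = 1)
    (hP : z.P % 2 = 1) (hcon : Con4 z) (hsel : At4 z 8 sel) (hL : chkL48 sel I L = true)
    {f : Leaf} (h : L.all f = true) : At4 z 8 f := by
  unfold chkL48 at hL
  rw [allN_iff] at hL
  have h1 := hL _ (res_lt z.a (by norm_num))
  rw [allN_iff] at h1
  obtain ⟨q0, q1, q2, hq, h2⟩ := cont4_sound (by norm_num) hcon (h1 _ (res_lt z.b (by norm_num)))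
  rw [allN_iff] at h2
  have h3 := h2 _ (res_lt z.t (by norm_num))
  rw [allN_iff] at h3
  have h4 := h3 _ (res_lt z.P (by norm_num))
  have e1 := res_int z.t (M := 8) (by norm_num)
  have e2 := res_int z.P (M := 8) (by norm_num)
  have h5 : Nat.beq (Nat.mod (res z.t 8) 2) 1 = true := by
    have : Nat.mod (res z.t 8) 2 = 1 := by
      change res z.t 8 % 2 = 1
      omega
    rw [this]; rfl
  have h6 : Nat.beq (Nat.mod (res z.P 8) 2) 1 = true := by
    have : Nat.mod (res z.P 8) 2 = 1 := by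
      change res z.P 8 % 2 = 1
      omega
    rw [this]; rfl
  have h7 := imp_true (imp_true h4 h5) h6
  have h8 : ((res z.P 8 * q0 : ℕ) : ZMod 8) = ((res z.t 8 * q1 + q2 : ℕ) : ZMod 8) := by
    push_cast
    rw [res_cast' z.P (by norm_num), res_cast' z.t (by norm_num)]
    exact hq.eq
  rw [ZMod.natCast_eq_natCast_iff'] at h8
  have h9 : Nat.beq (Nat.mod (Nat.mul (res z.P 8) q0) 8)
      (Nat.mod (Nat.add (Nat.mul (res z.t 8) q1) q2) 8) = true := by
    change Nat.beq (res z.P 8 * q0 % 8) ((res z.t 8 * q1 + q2) % 8) = true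
    rw [h8]; exact Nat.beq_refl _
  have h10 := geo4_sound H (imp_true h7 h9)
  unfold At4 at h10 hsel ⊢
  exact LL.all_any h (imp_true h10 hsel)

/-- the data of the class `a ≡ 0` -/
structure Sys0 (z : Dat) : Prop where
  S : Sys4 z
  h8P : (8 : ℤ) ∣ z.P * z.Pi - 1
  h8R : (8 : ℤ) ∣ z.R * z.Ri - 1
  R4 : z.R % 4 = 3
  a37 : res z.a 37 = 0
  a7 : res z.a 7 = 0
  a19 : res z.a 19 = 0
  r1 : NRel4 c296_5 z
  r2 : NRel4 c296_7_1 z
  r3 : NRel4 c296_7_2 z
  r4 : NRel4 c456_7 z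
  r5 : NRel4 c532_73 z
  r6 : NRel4 c532_37 z

theorem one8 {x : ℤ} (h : (8 : ℤ) ∣ x - 1) : ((x : ℤ) : ZMod 8) = 1 := by
  have : ((x - 1 : ℤ) : ZMod 8) = 0 := (ZMod.intCast_zmod_eq_zero_iff_dvd _ _).mpr h
  push_cast at this
  linear_combination this

theorem Sys0.lok8 {z : Dat} (H : Sys0 z) : LOK z 8 I8 :=
  ⟨by norm_num, ci8, one8 H.h8P, one8 H.h8R⟩

theorem Sys0.sel {z : Dat} (H : Sys0 z) : At4 z 8 sel8 := by
  unfold At4 sel8
  have e1 := res_int z.R (M := 8) (by norm_num)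
  have h := H.R4
  have h2 : res z.R 8 = 3 ∨ res z.R 8 = 7 := by
    have h3 := res_lt z.R (M := 8) (by norm_num)
    omega
  rcases h2 with h2 | h2 <;> rw [h2] <;> rfl

theorem U7_sound {z : Dat} (H : Sys0 z)
    (h : U7 c532_73 c532_37 (res z.a 37) (res z.b 37) (res z.t 37)
      (pP z 4) (pR z 4) (p0 z 4) (p1 z 4) (q2 z 4)
      (pP z 19) (pR z 19) (p0 z 19) (p1 z 19) (q2 z 19) = true) : False := by
  have m7 : (7 : ℕ) ∈ [3, 5, 7, 13, 19, 37, 73] := by simp
  unfold U7 at h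
  have i5 : idem3 4 133 7 456 19 476 c532_73.q = true := by decide
  have i6 : idem3 4 133 7 456 19 476 c532_37.q = true := by decide
  have h' := h
  rw [← H.a7] at h'
  have h1 := enF4_sound (lok4 H.S (by norm_num) ci7 (mem_dvd m7)) (by norm_num)
    (H.S.v0 m7) iq7 H.S.con (res_lt z.t (by norm_num)) h'
  unfold At4 at h1
  have h2 := imp_true h1 (ckW_sound H.r5 rfl
    (evD3_sound c532_73_ok (by norm_num) (by norm_num) (by norm_num) i5 _ _)
    (evD3_sound c532_73_ok (by norm_num) (by norm_num) (by norm_num) i5 _ _)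
    (evD3_sound c532_73_ok (by norm_num) (by norm_num) (by norm_num) i5 _ _)
    (chD3_sound (by norm_num) (by norm_num) (by norm_num) i5 _)
    (chD3_sound (by norm_num) (by norm_num) (by norm_num) i5 _))
  have ca := res_cast' z.a (show 0 < 37 by norm_num)
  have cb := res_cast' z.b (show 0 < 37 by norm_num)
  have ct := res_cast' z.t (show 0 < 37 by norm_num)
  have h3 := imp_true h2 (ckF4_sound H.r6 rfl
    (evD3_sound c532_37_ok (by norm_num) (by norm_num) (by norm_num) i6 _ _)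
    (evD3_sound c532_37_ok (by norm_num) (by norm_num) (by norm_num) i6 _ _)
    (evD3_sound c532_37_ok (by norm_num) (by norm_num) (by norm_num) i6 _ _)
    (chD3_sound (by norm_num) (by norm_num) (by norm_num) i6 _)
    (chD3_sound (by norm_num) (by norm_num) (by norm_num) i6 _) ca cb ct)
  exact absurd h3 (by simp)

theorem U19_sound {z : Dat} (H : Sys0 z) {p19 : ℕ → Bool} (h19 : p19 (res z.t 19) = true)
    (h : U19 p19 c456_7 c532_73 c532_37 (res z.a 37) (res z.b 37) (res z.t 37)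
      (sl 3 X111_0 (pP z 37)) (sl 3 X111_0 (pR z 37)) (sl 18 E111_0 (p0 z 37))
      (sl 18 E111_0 (p1 z 37)) (sl 18 E111_0 (q2 z 37))
      (sl 3 X111_1 (pP z 37)) (sl 3 X111_1 (pR z 37)) (sl 18 E111_1 (p0 z 37))
      (sl 18 E111_1 (p1 z 37)) (sl 18 E111_1 (q2 z 37))
      (pP z 4) (pR z 4) (p0 z 4) (p1 z 4) (q2 z 4)
      (pP z 8) (p0 z 8) (p1 z 8) (q2 z 8) = true) : False := by
  have m3 : (3 : ℕ) ∈ [3, 5, 7, 13, 19, 37, 73] := by simp
  have m19 : (19 : ℕ) ∈ [3, 5, 7, 13, 19, 37, 73] := by simp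
  have m37 : (37 : ℕ) ∈ [3, 5, 7, 13, 19, 37, 73] := by simp
  unfold U19 at h
  have i4 : idem3 8 57 3 304 19 96 c456_7.q = true := by decide
  have h' := h
  rw [← H.a19] at h'
  have h1 := enF4_sound (lok4 H.S (by norm_num) ci19 (mem_dvd m19)) (by norm_num)
    (H.S.v0 m19) iq19 H.S.con (res_lt z.t (by norm_num)) h'
  unfold At4 at h1
  have h1 := imp_true h1 h19
  simp only [force_eq] at h1
  have h2 := LL4_sound (lok4 H.S (by norm_num) ci3 (mem_dvd m3)) (by norm_num)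
    (H.S.v0 m3) iq3 H.S.con (selA_at z 3) cm3 h1
  unfold At4 at h2
  have ca := res_cast' z.a (show 0 < 19 by norm_num)
  have cb := res_cast' z.b (show 0 < 19 by norm_num)
  have ct := res_cast' z.t (show 0 < 19 by norm_num)
  have h3 := imp_true h2 (ckF4_sound H.S.r111_0 rfl
    (tab_111_0 (H.S.v0 m37) (H.S.v0 m3)) (tab_111_0 (H.S.v1 m37) (H.S.v1 m3))
    (tab_111_0 (H.S.v2 m37) (H.S.v2 m3)) (chv_111_0 z.P) (chv_111_0 z.R) ca cb ct)
  have h4 := imp_true h3 (ckF4_sound H.S.r111_1 rfl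
    (tab_111_1 (H.S.v0 m37) (H.S.v0 m3)) (tab_111_1 (H.S.v1 m37) (H.S.v1 m3))
    (tab_111_1 (H.S.v2 m37) (H.S.v2 m3)) (chv_111_1 z.P) (chv_111_1 z.R) ca cb ct)
  have h5 := imp_true h4 (ckV4_sound H.S.r228 rfl
    (tab_228 (H.S.v0 m19) (H.S.v0 m3) H.S.w0) (tab_228 (H.S.v1 m19) (H.S.v1 m3) H.S.w1)
    (tab_228 (H.S.v2 m19) (H.S.v2 m3) H.S.w2) (chv_228 z.P) (chv_228 z.R))
  have h6 := imp_true h5 (ckW_sound H.r4 rfl
    (evD3_sound c456_7_ok (by norm_num) (by norm_num) (by norm_num) i4 _ _)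
    (evD3_sound c456_7_ok (by norm_num) (by norm_num) (by norm_num) i4 _ _)
    (evD3_sound c456_7_ok (by norm_num) (by norm_num) (by norm_num) i4 _ _)
    (chD3_sound (by norm_num) (by norm_num) (by norm_num) i4 _)
    (chD3_sound (by norm_num) (by norm_num) (by norm_num) i4 _))
  exact U7_sound H h6

theorem U8_sound {z : Dat} (H : Sys0 z) {p8 p19 : ℕ → Bool} (hp8 : p8 (res z.a 8) = true)
    (hp19 : p19 (res z.t 19) = true)
    (h : U8 p8 p19 c296_5 c296_7_1 c296_7_2 c456_7 c532_73 c532_37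
      (res z.a 37) (res z.b 37) (res z.t 37) (pP z 37) (pR z 37) (p0 z 37) (p1 z 37) (q2 z 37)
      = true) : False := by
  unfold U8 at h
  simp only [force_eq] at h
  have hs4 : At4 z 4 sel4 := by
    unfold At4 sel4
    rw [res3 H.R4]; rfl
  have h4 := L44_sound (lok4 H.S (by norm_num) ci4 (by unfold M0; norm_num)) H.S.w0 H.S.con hs4
    cm4 h
  unfold At4 at h4
  have h5 := c148_sound H.S h4
  have h6 := L48_sound H.lok8 H.S.tod H.S.Pod H.S.con H.sel cm8 h5
  unfold At4 at h6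
  have i1 : idem 37 112 8 185 c296_5.q = true := by decide
  have i2 : idem 37 112 8 185 c296_7_1.q = true := by decide
  have i3 : idem 37 112 8 185 c296_7_2.q = true := by decide
  have hc : cj (Nat.beq (Nat.mod (res z.a 8) 4) (res z.a 4))
      (cj (Nat.beq (Nat.mod (res z.b 8) 4) (res z.b 4))
      (cj (Nat.beq (Nat.mod (res z.t 8) 4) (res z.t 4))
        (Nat.beq (Nat.mod (7 * res z.P 8) 28) (7 * res z.P 4)))) = true := by
    have e : ∀ x : ℤ, Nat.mod (res x 8) 4 = res x 4 := fun x =>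
      res_mod x (by norm_num) (by norm_num) (by norm_num)
    have e2 : Nat.mod (7 * res z.P 8) 28 = 7 * res z.P 4 := by
      rw [← e z.P]
      exact Nat.mul_mod_mul_left 7 (res z.P 8) 4
    simp only [cj_true]
    rw [e, e, e, e2]
    exact ⟨Nat.beq_refl _, Nat.beq_refl _, Nat.beq_refl _, Nat.beq_refl _⟩
  have h7 := imp_true (imp_true h6 hp8) hc
  have h8 := imp_true h7 (ckW_sound H.r2 rfl
    (evD_sound c296_7_1_ok (by norm_num) (by norm_num) i2 _ _)
    (evD_sound c296_7_1_ok (by norm_num) (by norm_num) i2 _ _)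
    (evD_sound c296_7_1_ok (by norm_num) (by norm_num) i2 _ _)
    (chD_sound (by norm_num) (by norm_num) i2 _)
    (chD_sound (by norm_num) (by norm_num) i2 _))
  have h9 := imp_true h8 (ckW_sound H.r3 rfl
    (evD_sound c296_7_2_ok (by norm_num) (by norm_num) i3 _ _)
    (evD_sound c296_7_2_ok (by norm_num) (by norm_num) i3 _ _)
    (evD_sound c296_7_2_ok (by norm_num) (by norm_num) i3 _ _)
    (chD_sound (by norm_num) (by norm_num) i3 _)
    (chD_sound (by norm_num) (by norm_num) i3 _))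
  have h10 := imp_true h9 (ckW_sound H.r1 rfl
    (evD_sound c296_5_ok (by norm_num) (by norm_num) i1 _ _)
    (evD_sound c296_5_ok (by norm_num) (by norm_num) i1 _ _)
    (evD_sound c296_5_ok (by norm_num) (by norm_num) i1 _ _)
    (chD_sound (by norm_num) (by norm_num) i1 _)
    (chD_sound (by norm_num) (by norm_num) i1 _))
  exact U19_sound H hp19 h10

theorem run0_sound {z : Dat} (H : Sys0 z) (ht : res z.t 37 < 19) {p37 p8 p19 : ℕ → Bool}
    (h37 : p37 (res z.b 37) = true) (h8 : p8 (res z.a 8) = true) (h19 : p19 (res z.t 19) = true)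
    (h : run0 p37 p8 p19 c296_5 c296_7_1 c296_7_2 c456_7 c532_73 c532_37 = true) : False := by
  have m37 : (37 : ℕ) ∈ [3, 5, 7, 13, 19, 37, 73] := by simp
  unfold run0 at h
  rw [← H.a37] at h
  have h1 := enF4_sound (lok4 H.S (by norm_num) ci37 (mem_dvd m37)) (by norm_num)
    (H.S.v0 m37) iq37 H.S.con ht h
  unfold At4 at h1
  exact U8_sound H h8 h19 (imp_true h1 h37)

/-- the parts of the search -/
structure Runs0 : Prop where
  n : run0 pN pT pT c296_5 c296_7_1 c296_7_2 c456_7 c532_73 c532_37 = true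
  a0 : run0 (fun b => Nat.beq b 36) p4 p4 c296_5 c296_7_1 c296_7_2 c456_7 c532_73 c532_37 = true
  a1 : run0 (fun b => Nat.beq b 36) p4 q4 c296_5 c296_7_1 c296_7_2 c456_7 c532_73 c532_37 = true
  b0 : run0 (fun b => Nat.beq b 36) q4 p4 c296_5 c296_7_1 c296_7_2 c456_7 c532_73 c532_37 = true
  b1 : run0 (fun b => Nat.beq b 36) q4 q4 c296_5 c296_7_1 c296_7_2 c456_7 c532_73 c532_37 = true
  c0 : run0 (fun b => Nat.beq b 34) p4 p9 c296_5 c296_7_1 c296_7_2 c456_7 c532_73 c532_37 = true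
  c1 : run0 (fun b => Nat.beq b 34) p4 p15 c296_5 c296_7_1 c296_7_2 c456_7 c532_73 c532_37 = true
  c2 : run0 (fun b => Nat.beq b 34) p4 q15 c296_5 c296_7_1 c296_7_2 c456_7 c532_73 c532_37 = true
  d0 : run0 (fun b => Nat.beq b 34) q4 p9 c296_5 c296_7_1 c296_7_2 c456_7 c532_73 c532_37 = true
  d1 : run0 (fun b => Nat.beq b 34) q4 p15 c296_5 c296_7_1 c296_7_2 c456_7 c532_73 c532_37 = true
  d2 : run0 (fun b => Nat.beq b 34) q4 q15 c296_5 c296_7_1 c296_7_2 c456_7 c532_73 c532_37 = true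

theorem pq4 (n : ℕ) : p4 n = true ∨ q4 n = true := by
  unfold p4 q4
  cases Nat.ble n 4 <;> simp

theorem p915 (n : ℕ) : p9 n = true ∨ p15 n = true ∨ q15 n = true := by
  unfold p9 p15 q15
  simp only [cj_true]
  cases Nat.ble n 9 <;> cases Nat.ble n 15 <;> simp

theorem runs_sound (r : Runs0) {z : Dat} (H : Sys0 z) (ht : res z.t 37 < 19) : False := by
  by_cases h36 : res z.b 37 = 36
  · have e : Nat.beq (res z.b 37) 36 = true := by rw [h36]; rfl
    rcases pq4 (res z.a 8) with h | h <;> rcases pq4 (res z.t 19) with h' | h'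
    · exact run0_sound H ht e h h' r.a0
    · exact run0_sound H ht e h h' r.a1
    · exact run0_sound H ht e h h' r.b0
    · exact run0_sound H ht e h h' r.b1
  · by_cases h34 : res z.b 37 = 34
    · have e : Nat.beq (res z.b 37) 34 = true := by rw [h34]; rfl
      rcases pq4 (res z.a 8) with h | h <;> rcases p915 (res z.t 19) with h' | h' | h'
      · exact run0_sound H ht e h h' r.c0
      · exact run0_sound H ht e h h' r.c1
      · exact run0_sound H ht e h h' r.c2
      · exact run0_sound H ht e h h' r.d0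
      · exact run0_sound H ht e h h' r.d1
      · exact run0_sound H ht e h h' r.d2
    · refine run0_sound H ht (p37 := pN) (p8 := pT) (p19 := pT) ?_ rfl rfl r.n
      unfold pN
      rw [cj_true]
      have f : ∀ m n : ℕ, m ≠ n → (!Nat.beq m n) = true := by
        intro m n hmn
        cases hb : Nat.beq m n with
        | true => exact (hmn (Nat.eq_of_beq_eq_true hb)).elim
        | false => rfl
      exact ⟨f _ _ h34, f _ _ h36⟩

end Pool.Agent.L0h49.P
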