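import Pool.Agent.N911.K1

/-! Kernel-friendly search functions for periods of length two and four.

Convention: every residue or index used for table lookup is passed multiplied by seven. -/

namespace Pool.Agent.L0h49.P

open H419R2
open Pool.Agent.N911 (imp cj allN sl sl1 sl2 Leaf LL RL nrm enB)

/-- geometry modulo `l` -/
def geo4 (l I a b t P : ℕ) (f : Leaf) : Bool :=
  force (Nat.mod (Nat.add (Nat.mul (Nat.mul 2 a) P) (Nat.sub l t)) l) (fun B =>
  force (Nat.mod (Nat.add (Nat.add 1 (Nat.mul a t)) (Nat.mul (Nat.mul a a) (Nat.sub l P))) l) (fun R =>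
  force (look I P) (fun i => force (look I R) (fun j =>
  force (Nat.mul 7 P) (fun P7 => force (Nat.mul 7 R) (fun R7 =>
  force (Nat.mul 7 (Nat.add (Nat.mul t l) P)) (fun k0 =>
  force (Nat.mul 7 (Nat.add (Nat.mul (Nat.mod (Nat.mul B i) l) l) (Nat.mod (Nat.mul R i) l))) (fun k1 =>
  force (Nat.mul 7 (Nat.add (Nat.mul (Nat.mod (Nat.mul B j) l) l) (Nat.mod (Nat.mul P j) l))) (fun k2 =>
    f a b t P7 R7 k0 k1 k2)))))))))

/-- test for residues, then geometry -/
def tge4 (l I Q a b t P : ℕ) (f : Leaf) : Bool :=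
  @Bool.rec (fun _ => Bool) (geo4 l I a b t P f) true
    (tb Q (Nat.mod (Nat.add (Nat.mul t t) (Nat.mul 4 P)) l))

/-- given `a b t`, all admissible `P` -/
def enP4 (l I Q a b q0 q1 q2 t : ℕ) (f : Leaf) : Bool :=
  force (Nat.mod (Nat.add (Nat.mul t q1) q2) l) (fun v =>
    @Nat.rec (fun _ => Bool)
      (imp (Nat.beq v 0) (allN l (fun P => tge4 l I Q a b t P f)))
      (fun _ _ => force (Nat.mod (Nat.mul v (look I q0)) l) (fun P => tge4 l I Q a b t P f)) q0)

/-- coefficients of the constraint `P q0 = t q1 + q2` -/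
def cont4 (l a b : ℕ) (g : ℕ → ℕ → ℕ → Bool) : Bool :=
  force (Nat.mod (Nat.add 1 (Nat.mul a b)) l) (fun c =>
  force (Nat.mod (Nat.mul a (Nat.add 1 c)) l) (fun q0 => g q0 c b))

/-- enumeration for given `a`, with `t < tb` -/
def enF4 (l I Q a tbd : ℕ) (f : Leaf) : Bool :=
  allN l (fun b => cont4 l a b (fun q0 q1 q2 => allN tbd (fun t => enP4 l I Q a b q0 q1 q2 t f)))

/-- enumeration with two linear relations
`K + T t + A a + B b = 0`, `K' + T' t + A' a + B' b = 0` -/
def enL4 (l I Q K T A B K' T' A' B' : ℕ) (f : Leaf) : Bool :=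
  nrm l I K T A B K' T' A' B' (fun dk du dv k u v =>
    allN l (fun a => enB l I a dk du dv k u v (fun b t =>
      cont4 l a b (fun q0 q1 q2 => enP4 l I Q a b q0 q1 q2 t f))))

/-- the row entry; the entry `1` asks for direct enumeration -/
def rowE4 (l I Q row a b t : ℕ) (f : Leaf) : Bool :=
  force (Nat.mod (Nat.shiftRight row (Nat.mul 56 (Nat.add (Nat.mul l b) t))) 72057594037927936)
    (fun e => @Nat.rec (fun _ => Bool) true (fun e' _ => @Nat.rec (fun _ => Bool)
      (allN l (fun P => tge4 l I Q a b t P f)) (fun _ _ =>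
      f a b t (Nat.mod e 256) (Nat.mod (Nat.shiftRight e 8) 256)
        (Nat.mod (Nat.shiftRight e 16) 4096) (Nat.mod (Nat.shiftRight e 28) 4096)
        (Nat.shiftRight e 40)) e') e)

/-- enumeration with two linear relations and a table of rows -/
noncomputable def enT4 (l I Q : ℕ) (rows : RL) (K T A B K' T' A' B' : ℕ) (f : Leaf) : Bool :=
  nrm l I K T A B K' T' A' B' (fun dk du dv k u v =>
    rows.all (fun a row => enB l I a dk du dv k u v (fun b t => rowE4 l I Q row a b t f)))

/-- check of a relation whose `B2` sums vanish; table of 7-bit entries -/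
def ckV4 (p xP e0 e1 P k0 k1 : ℕ) : Bool :=
  Nat.beq (Nat.mod (Nat.add (sl1 e0 k0) (Nat.mul (sl1 xP P) (sl1 e1 k1))) p) 0

/-- coefficients of a relation -/
def cof4 (cP cR e0 e1 e2 : ℕ) (g : ℕ → ℕ → ℕ → ℕ → Bool) : Bool :=
  force cP (fun cP => force cR (fun cR => force e0 (fun e0 => force e1 (fun e1 =>
  force e2 (fun e2 =>
  force (Nat.add (Nat.mod e0 128) (Nat.mul cP (Nat.mod e1 128))) (fun K =>
  force (Nat.div e0 128) (fun T =>
  force (Nat.mul 2 (Nat.mul cP (Nat.div e1 128))) (fun A =>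
  force (Nat.mul cR (Nat.div e2 128)) (fun B => g K T A B)))))))))

/-- full check of a relation -/
def ckF4 (p cP cR e0 e1 e2 a b t : ℕ) : Bool :=
  force e0 (fun e0 => force e1 (fun e1 => force e2 (fun e2 =>
    Nat.beq (Nat.mod (Nat.add
      (Nat.add (Nat.add (Nat.mod e0 128) (Nat.mul t (Nat.div e0 128)))
        (Nat.mul cP (Nat.add (Nat.mod e1 128) (Nat.mul (Nat.mul 2 a) (Nat.div e1 128)))))
      (Nat.mul cR (Nat.mul b (Nat.div e2 128)))) p) 0)))

end Pool.Agent.L0h49.P
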