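import Pool.Agent.L0h49.P.K2
import Pool.Agent.N911.K2
import Pool.Agent.H419R2.F6

/-! Stages of the search. The names carry the prime they belong to. -/

set_option maxRecDepth 100000

namespace Pool.Agent.L0h49.P

open H419R2
open Pool.Agent.N911

/-- last stage, modulo 73 -/
def T73 (P7 i7 j7 k7 P13 i13 j13 k13 P19 i19 j19 k19 P37 i37 j37 k37
    R7 R13 R19 R37 : ℕ) (sel : Leaf) (cA cB cC cD : CD) : Bool :=
  cof4 (chD cA 57 77 P7 P19) (chD cA 57 77 R7 R19) (evD cA 7 57 19 77 i7 i19)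
    (evD cA 7 57 19 77 j7 j19) (evD cA 7 57 19 77 k7 k19) (fun K T A B =>
  cof4 (chD cB 209 39 P13 P19) (chD cB 209 39 R13 R19) (evD cB 13 209 19 39 i13 i19)
    (evD cB 13 209 19 39 j13 j19) (evD cB 13 209 19 39 k13 k19) (fun K' T' A' B' =>
  cof4 (chD cC 209 39 P13 P19) (chD cC 209 39 R13 R19) (evD cC 13 209 19 39 i13 i19)
    (evD cC 13 209 19 39 j13 j19) (evD cC 13 209 19 39 k13 k19) (fun K2 T2 A2 B2 =>
  cof4 (chD cD 148 112 P7 P37) (chD cD 148 112 R7 R37) (evD cD 7 148 37 112 i7 i37)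
    (evD cD 7 148 37 112 j7 j37) (evD cD 7 148 37 112 k7 k37) (fun K3 T3 A3 B3 =>
  enL4 73 I73 Q73 K T A B K' T' A' B' (fun a b t P R i j k =>
    imp (ckL 73 K2 T2 A2 B2 a b t) (imp (ckL 73 K3 T3 A3 B3 a b t)
      (imp (sel a b t P R i j k) false)))))))

/-- stage modulo 13 -/
def T13 (a37 b37 t37 P37 R37 i37 j37 k37 P7 R7 i7 j7 k7 P19 R19 i19 j19 k19
    P3 R3 i3 j3 k3 P5 R5 i5 j5 k5 : ℕ) (next : Leaf) : Bool :=
  cof4 (sl1 (sl 5 X95 P19) P5) (sl1 (sl 5 X95 R19) R5) (sl2 (sl 50 E95 i19) i5)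
    (sl2 (sl 50 E95 j19) j5) (sl2 (sl 50 E95 k19) k5) (fun K T A B =>
  cof4 (sl1 (sl 5 (sl 15 X105 P7) P3) P5) (sl1 (sl 5 (sl 15 X105 R7) R3) R5)
    (sl2 (sl 50 (sl 450 E105 i7) i3) i5) (sl2 (sl 50 (sl 450 E105 j7) j3) j5)
    (sl2 (sl 50 (sl 450 E105 k7) k3) k5) (fun K' T' A' B' =>
  cof4 (sl1 (sl 5 X185 P37) P5) (sl1 (sl 5 X185 R37) R5) (sl2 (sl 50 E185 i37) i5)
    (sl2 (sl 50 E185 j37) j5) (sl2 (sl 50 E185 k37) k5) (fun K2 T2 A2 B2 =>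
  cof4 (sl1 (sl 19 X133_13 P7) P19) (sl1 (sl 19 X133_13 R7) R19) (sl2 (sl 722 E133_13 i7) i19)
    (sl2 (sl 722 E133_13 j7) j19) (sl2 (sl 722 E133_13 k7) k19) (fun K3 T3 A3 B3 =>
  force (sl 338 E91 i7) (fun e0 => force (sl 338 E91 j7) (fun e1 => force (sl 338 E91 k7) (fun e2 =>
  force (sl 13 X91 P7) (fun xP => force (sl 13 X91 R7) (fun xR =>
  enL4 13 I13 Q13 K T A B K' T' A' B' (fun a b t P R i j k =>
    imp (ckL 13 K2 T2 A2 B2 a b t) (imp (ckL 13 K3 T3 A3 B3 a b t)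
    (imp (ckF4 37 (sl1 xP P) (sl1 xR R) (sl2 e0 i) (sl2 e1 j) (sl2 e2 k) a37 b37 t37)
      (next a b t P R i j k)))))))))))))

/-- stage modulo 5 -/
noncomputable def T5 (P7 i7 j7 P4 i4 j4 : ℕ) (next : Leaf) : Bool :=
  force (sl 25 (sl 400 E140 i7) i4) (fun e0 => force (sl 25 (sl 400 E140 j7) j4) (fun e1 =>
  force (sl 5 (sl 20 X140 P7) P4) (fun xP =>
  M5.all (fun a b t P R i j k => imp (ckV4 13 xP e0 e1 P i j) (next a b t P R i j k)))))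

/-- stages modulo 3 and 4 -/
noncomputable def T3 (L4 : LL) (uP u0 u1 vP v0 v1 : ℕ)
    (wP wR w0 w1 w2 zP zR z0 z1 z2 : ℕ) (a19 b19 t19 P19 i19 j19 : ℕ)
    (next : ℕ → ℕ → ℕ → ℕ → ℕ → ℕ → ℕ → Leaf) : Bool :=
  force (sl 144 E228 i19) (fun r0 => force (sl 144 E228 j19) (fun r1 =>
  force (sl 12 X228 P19) (fun rP =>
  M3.all (fun a3 b3 _ P3 R3 i3 j3 k3 =>
    imp (ckF4 19 (sl1 wP P3) (sl1 wR R3) (sl2 w0 i3) (sl2 w1 j3) (sl2 w2 k3) a19 b19 t19)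
    (imp (ckF4 19 (sl1 zP P3) (sl1 zR R3) (sl2 z0 i3) (sl2 z1 j3) (sl2 z2 k3) a19 b19 t19)
    (force (sl 16 r0 i3) (fun q0 => force (sl 16 r1 j3) (fun q1 =>
    force (sl 4 rP P3) (fun qP =>
    L4.all (fun a4 b4 t4 P4 R4 i4 j4 k4 =>
      imp (ckV4 7 uP u0 u1 P4 i4 j4) (imp (ckV4 19 vP v0 v1 P4 i4 j4)
      (imp (ckV4 7 qP q0 q1 P4 i4 j4)
        (next a3 b3 P3 R3 i3 j3 k3 a4 b4 t4 P4 R4 i4 j4 k4)))))))))))))

/-- stage modulo 19 -/
noncomputable def T19 (a37 b37 t37 : ℕ) (xP xR x0 x1 x2 yP yR y0 y1 y2 : ℕ)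
    (P7 R7 i7 j7 k7 : ℕ) (next : Leaf) : Bool :=
  cof4 (sl1 xP P7) (sl1 xR R7) (sl2 x0 i7) (sl2 x1 j7) (sl2 x2 k7) (fun K T A B =>
  cof4 (sl1 yP P7) (sl1 yR R7) (sl2 y0 i7) (sl2 y1 j7) (sl2 y2 k7) (fun K' T' A' B' =>
  force (sl 722 E133_37 i7) (fun r0 => force (sl 722 E133_37 j7) (fun r1 =>
  force (sl 722 E133_37 k7) (fun r2 => force (sl 19 X133_37 P7) (fun rP =>
  force (sl 19 X133_37 R7) (fun rR =>
  enT4 19 I19 Q19 mrows19 K T A B K' T' A' B' (fun a b t P R i j k =>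
    imp (ckF4 37 (sl1 rP P) (sl1 rR R) (sl2 r0 i) (sl2 r1 j) (sl2 r2 k) a37 b37 t37)
    (force P (fun P => force R (fun R => force i (fun i => force j (fun j => force k (fun k =>
      next a b t P R i j k))))))))))))))

/-- no selection -/
def selA : Leaf := fun _ _ _ _ _ _ _ _ => true

/-- selection for period two -/
def selB : Leaf := fun _ b t _ R _ _ _ => cj (Nat.beq b t) (Nat.beq R 7)

/-- the exceptional class -/
def exc (a37 a7 a19 a3 a4 a5 a13 b37 b7 b19 b3 b4 b5 b13 : ℕ) : Bool :=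
  cj (Nat.beq a37 35) (cj (Nat.beq a7 5) (cj (Nat.beq a19 17) (cj (Nat.beq a3 1)
    (cj (Nat.beq a4 2) (cj (Nat.beq a5 3) (cj (Nat.beq a13 11)
    (cj (Nat.beq b37 1) (cj (Nat.beq b7 1) (cj (Nat.beq b19 1) (cj (Nat.beq b3 1)
    (cj (Nat.beq b4 1) (cj (Nat.beq b5 1) (Nat.beq b13 1)))))))))))))

/-- leaf modulo 37 -/
noncomputable def T37 (g : ℕ) (sel : Leaf) (L4 L7 : LL) (cA cB cC cD : CD)
    (a37 b37 t37 P37 R37 i37 j37 k37 : ℕ) : Bool :=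
  force (sl 16 E148_7 i37) (fun u0 => force (sl 16 E148_7 j37) (fun u1 =>
  force (sl 4 X148_7 P37) (fun uP =>
  force (sl 16 E148_19 i37) (fun v0 => force (sl 16 E148_19 j37) (fun v1 =>
  force (sl 4 X148_19 P37) (fun vP =>
  @Bool.rec (fun _ => Bool)
    (force (sl 49 E259_2 i37) (fun s0 => force (sl 49 E259_2 j37) (fun s1 =>
    force (sl 7 X259_2 P37) (fun sP =>
    force (sl 98 E259_0 i37) (fun x0 => force (sl 98 E259_0 j37) (fun x1 =>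
    force (sl 98 E259_0 k37) (fun x2 => force (sl 7 X259_0 P37) (fun xP =>
    force (sl 7 X259_0 R37) (fun xR =>
    force (sl 98 E259_1 i37) (fun y0 => force (sl 98 E259_1 j37) (fun y1 =>
    force (sl 98 E259_1 k37) (fun y2 => force (sl 7 X259_1 P37) (fun yP =>
    force (sl 7 X259_1 R37) (fun yR =>
    force (sl 18 E111_0 i37) (fun w0 => force (sl 18 E111_0 j37) (fun w1 =>
    force (sl 18 E111_0 k37) (fun w2 => force (sl 3 X111_0 P37) (fun wP =>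
    force (sl 3 X111_0 R37) (fun wR =>
    force (sl 18 E111_1 i37) (fun z0 => force (sl 18 E111_1 j37) (fun z1 =>
    force (sl 18 E111_1 k37) (fun z2 => force (sl 3 X111_1 P37) (fun zP =>
    force (sl 3 X111_1 R37) (fun zR =>
    L7.all (fun a7 b7 _ P7 R7 i7 j7 k7 =>
      imp (ckV4 19 sP s0 s1 P7 i7 j7)
      (T19 a37 b37 t37 xP xR x0 x1 x2 yP yR y0 y1 y2 P7 R7 i7 j7 k7
        (fun a19 b19 t19 P19 R19 i19 j19 k19 =>
        imp (sel a19 b19 t19 P19 R19 i19 j19 k19)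
        (imp (Nat.ble 1 (Nat.add (Nat.add g a37) (Nat.add a7 a19)))
        (T3 L4 uP u0 u1 vP v0 v1 wP wR w0 w1 w2 zP zR z0 z1 z2
          a19 b19 t19 P19 i19 j19 (fun a3 b3 P3 R3 i3 j3 k3 a4 b4 _ P4 _ i4 j4 _ =>
          T5 P7 i7 j7 P4 i4 j4 (fun a5 b5 _ P5 R5 i5 j5 k5 =>
          T13 a37 b37 t37 P37 R37 i37 j37 k37 P7 R7 i7 j7 k7 P19 R19 i19 j19 k19
            P3 R3 i3 j3 k3 P5 R5 i5 j5 k5 (fun a13 b13 _ P13 R13 i13 j13 k13 =>
            @Bool.rec (fun _ => Bool)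
              (T73 P7 i7 j7 k7 P13 i13 j13 k13 P19 i19 j19 k19 P37 i37 j37 k37
                R7 R13 R19 R37 sel cA cB cC cD)
              true (exc a37 a7 a19 a3 a4 a5 a13 b37 b7 b19 b3 b4 b5 b13)))))))))))))))))))))))))))))))))
    true
    (L4.all (fun _ _ _ P4 _ i4 j4 _ =>
      imp (ckV4 7 uP u0 u1 P4 i4 j4)
        (imp (ckV4 19 vP v0 v1 P4 i4 j4) false)))))))))

/-- the whole search for one value of `a` modulo 37, period four -/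
noncomputable def run4 (cA cB cC cD : CD) (a37 : ℕ) : Bool :=
  enF4 37 I37 Q37 a37 19 (T37 0 selA M4 M7 cA cB cC cD)

/-- the whole search for period two -/
noncomputable def run2 (cA cB cC cD : CD) : Bool :=
  allN 37 (fun a => allN 37 (fun P => force (Nat.mod (Nat.mul a P) 37) (fun t =>
    tge4 37 I37 Q37 a t t P (T37 1 selB N4 N7 cA cB cC cD))))

end Pool.Agent.L0h49.P
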