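import Pool.Agent.L0h49.P.K1
import Pool.Agent.N911.K4
import Pool.Agent.N156.EP.A5

/-! Soundness of the elementary checks. -/

namespace Pool.Agent.L0h49.P

open H419R2 Finset
open Pool.Agent.N911
open Pool.Agent.N156.EP (RelM4)

/-- normalized relation -/
def NRel4 (c : CD) (z : Dat) : Prop :=
  ∀ e0 e1 e2 cP cR : ℕ, Ent c e0 z.t z.P → Ent c e1 (z.B1 * z.Pi) (z.R * z.Pi) →
    Ent c e2 (z.B1 * z.Ri) (z.P * z.Ri) → Chv c cP z.P → Chv c cR z.R →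
    (((e0 % 128 : ℕ) : ZMod c.p) + z.t * ((e0 / 128 : ℕ) : ZMod c.p) + cP *
      (((e1 % 128 : ℕ) : ZMod c.p) + 2 * z.a * ((e1 / 128 : ℕ) : ZMod c.p)) +
      cR * (z.b * ((e2 / 128 : ℕ) : ZMod c.p))) = 0

/-- the relation gives the normalized relation -/
theorem nrel4_of {c : CD} (hc : c.OK) {z : Dat} (hP : ((z.P * z.Pi : ℤ) : ZMod c.q) = 1)
    (hR : ((z.R * z.Ri : ℤ) : ZMod c.q) = 1)
    (h : ∀ _ : NeZero c.q, RelM4 (chi c.q c.p c.T) z.t z.P z.a z.b = 0) : NRel4 c z := by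
  intro e0 e1 e2 cP cR h0 h1 h2 hcP hcR
  have hq : NeZero c.q := ⟨by have := hc.q1; omega⟩
  obtain ⟨a0, b0⟩ := h0 hq
  obtain ⟨a1, b1⟩ := h1 hq
  obtain ⟨a2, b2⟩ := h2 hq
  have hP' := hcP hq
  have hR' := hcR hq
  have h3 := h hq
  unfold RelM4 at h3
  have hmul := chi_mul hc.mul
  have e1 : (1 + z.a * z.t - z.a ^ 2 * z.P) = z.R := rfl
  have e2 : (2 * z.a * z.P - z.t) = z.B1 := rfl
  rw [e1, e2] at h3
  push_cast at hP hR a1 b1 a2 b2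
  rw [SE_scale hmul (A := (z.P : ZMod c.q)) hP,
    SY_scale hmul (A := (z.P : ZMod c.q)) hP, SY_scale hmul (A := (z.R : ZMod c.q)) hR] at h3
  rw [a0, b0, a1, b1, b2, hP', hR']
  linear_combination h3

theorem cof4_sound {c : CD} {z : Dat} (h : NRel4 c z) {cP cR e0 e1 e2 : ℕ}
    (h0 : Ent c e0 z.t z.P) (h1 : Ent c e1 (z.B1 * z.Pi) (z.R * z.Pi))
    (h2 : Ent c e2 (z.B1 * z.Ri) (z.P * z.Ri)) (hP : Chv c cP z.P) (hR : Chv c cR z.R)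
    {g : ℕ → ℕ → ℕ → ℕ → Bool} (hg : cof4 cP cR e0 e1 e2 g = true) :
    ∃ K T A B, Lin z c.p K T A B ∧ g K T A B = true := by
  unfold cof4 at hg
  simp only [force_eq] at hg
  refine ⟨_, _, _, _, ?_, hg⟩
  have h3 := h e0 e1 e2 cP cR h0 h1 h2 hP hR
  unfold Lin
  change (((e0 % 128 + cP * (e1 % 128) : ℕ) : ZMod c.p)) +
    ((e0 / 128 : ℕ) : ZMod c.p) * z.t + ((2 * (cP * (e1 / 128)) : ℕ) : ZMod c.p) * z.a +
    ((cR * (e2 / 128) : ℕ) : ZMod c.p) * z.b = 0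
  push_cast
  linear_combination h3

theorem ckF4_sound {c : CD} {z : Dat} (h : NRel4 c z) {p cP cR e0 e1 e2 a b t : ℕ} (hp : c.p = p)
    (h0 : Ent c e0 z.t z.P) (h1 : Ent c e1 (z.B1 * z.Pi) (z.R * z.Pi))
    (h2 : Ent c e2 (z.B1 * z.Ri) (z.P * z.Ri)) (hP : Chv c cP z.P) (hR : Chv c cR z.R)
    (ha : (a : ZMod p) = z.a) (hb : (b : ZMod p) = z.b) (ht : (t : ZMod p) = z.t) :
    ckF4 p cP cR e0 e1 e2 a b t = true := by
  subst hp
  unfold ckF4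
  rw [force_eq, force_eq, force_eq]
  apply beq_mod
  have h3 := h e0 e1 e2 cP cR h0 h1 h2 hP hR
  change ((e0 % 128 + t * (e0 / 128) + cP * (e1 % 128 + 2 * a * (e1 / 128)) +
    cR * (b * (e2 / 128)) : ℕ) : ZMod c.p) = 0
  push_cast
  rw [ha, hb, ht]
  push_cast at h3
  linear_combination h3

/-- the third entry always exists for a relation with zero second sums: it is not needed -/
theorem ckV4_sound {c : CD} {z : Dat} (h : NRel4 c z)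
    {p xP f0 f1 f2 cR P k0 k1 k2 : ℕ} (hp : c.p = p)
    (h0 : Ent c (sl1 f0 k0) z.t z.P) (h1 : Ent c (sl1 f1 k1) (z.B1 * z.Pi) (z.R * z.Pi))
    (h2 : Ent c (sl1 f2 k2) (z.B1 * z.Ri) (z.P * z.Ri)) (hP : Chv c (sl1 xP P) z.P)
    (hR : Chv c cR z.R) :
    ckV4 p xP f0 f1 P k0 k1 = true := by
  subst hp
  unfold ckV4
  apply beq_mod
  have h3 := h _ _ _ _ _ h0 h1 h2 hP hR
  rw [Nat.mod_eq_of_lt (sl1_lt f0 k0), Nat.mod_eq_of_lt (sl1_lt f1 k1),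
    Nat.div_eq_of_lt (sl1_lt f0 k0),
    Nat.div_eq_of_lt (sl1_lt f1 k1), Nat.div_eq_of_lt (sl1_lt f2 k2)] at h3
  change ((sl1 f0 k0 + sl1 xP P * sl1 f1 k1 : ℕ) : ZMod c.p) = 0
  push_cast
  push_cast at h3
  linear_combination h3

end Pool.Agent.L0h49.P
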