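import Pool.Agent.L0h49.P.K4
import Pool.Agent.N911.K5

/-! Soundness of the local enumerations. -/

namespace Pool.Agent.L0h49.P

open H419R2 Finset
open Pool.Agent.N911

/-- the leaf at the actual data -/
def At4 (z : Dat) (l : ℕ) (f : Leaf) : Prop :=
  f (res z.a l) (res z.b l) (res z.t l) (7 * res z.P l) (7 * res z.R l) (pk l z.t z.P)
    (pk l (z.B1 * z.Pi) (z.R * z.Pi)) (pk l (z.B1 * z.Ri) (z.P * z.Ri)) = true

theorem geo4_sound {z : Dat} {l I : ℕ} (H : LOK z l I) {f : Leaf}
    (h : geo4 l I (res z.a l) (res z.b l) (res z.t l) (res z.P l) f = true) : At4 z l f := by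
  have hl := H.l1
  have hl0 : 0 < l := by omega
  have ca := res_cast' z.a hl0
  have cb := res_cast' z.b hl0
  have ct := res_cast' z.t hl0
  have cP := res_cast' z.P hl0
  have cl : ((l : ℕ) : ZMod l) = 0 := CharP.cast_eq_zero _ _
  have ci := inv_of hl H.hI H.hP
  have cj := inv_of hl H.hI H.hR
  have hB : Nat.mod (Nat.add (Nat.mul (Nat.mul 2 (res z.a l)) (res z.P l))
      (Nat.sub l (res z.t l))) l = res z.B1 l := by
    apply mod_res hl0
    change ((2 * res z.a l * res z.P l + (l - res z.t l) : ℕ) : ZMod l) = _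
    push_cast
    rw [Nat.cast_sub (res_lt z.t hl0).le, ca, cP, ct, cl]
    unfold Dat.B1
    push_cast
    ring
  have hR : Nat.mod (Nat.add (Nat.add 1 (Nat.mul (res z.a l) (res z.t l)))
      (Nat.mul (Nat.mul (res z.a l) (res z.a l)) (Nat.sub l (res z.P l)))) l = res z.R l := by
    apply mod_res hl0
    change ((1 + res z.a l * res z.t l + res z.a l * res z.a l * (l - res z.P l) : ℕ) : ZMod l) = _
    push_cast
    rw [Nat.cast_sub (res_lt z.P hl0).le, ca, cP, ct, cl]
    unfold Dat.R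
    push_cast
    ring
  have cB := res_cast' z.B1 hl0
  have cR := res_cast' z.R hl0
  unfold geo4 at h
  simp only [force_eq, hB, hR] at h
  have h1 : Nat.mod (Nat.mul (res z.B1 l) (look I (res z.P l))) l = res (z.B1 * z.Pi) l := by
    apply mod_res hl0
    change ((res z.B1 l * look I (res z.P l) : ℕ) : ZMod l) = _
    push_cast
    rw [cB, ci]
  have h2 : Nat.mod (Nat.mul (res z.R l) (look I (res z.P l))) l = res (z.R * z.Pi) l := by
    apply mod_res hl0
    change ((res z.R l * look I (res z.P l) : ℕ) : ZMod l) = _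
    push_cast
    rw [cR, ci]
  have h3 : Nat.mod (Nat.mul (res z.B1 l) (look I (res z.R l))) l = res (z.B1 * z.Ri) l := by
    apply mod_res hl0
    change ((res z.B1 l * look I (res z.R l) : ℕ) : ZMod l) = _
    push_cast
    rw [cB, cj]
  have h4 : Nat.mod (Nat.mul (res z.P l) (look I (res z.R l))) l = res (z.P * z.Ri) l := by
    apply mod_res hl0
    change ((res z.P l * look I (res z.R l) : ℕ) : ZMod l) = _
    push_cast
    rw [cP, cj]
  rw [h1, h2, h3, h4] at h
  unfold At4 pk
  exact h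

theorem tge4_sound {z : Dat} {l I Q : ℕ} (H : LOK z l I) (h4 : l ≠ 4) (hV : V l z.t z.P)
    (hQ : chkIq l Q = true) {f : Leaf}
    (h : tge4 l I Q (res z.a l) (res z.b l) (res z.t l) (res z.P l) f = true) : At4 z l f := by
  have hl := H.l1
  have hl0 : 0 < l := by omega
  unfold tge4 at h
  have h1 : tb Q (Nat.mod (Nat.add (Nat.mul (res z.t l) (res z.t l)) (Nat.mul 4 (res z.P l))) l) =
      false := by
    by_contra hc
    have hc' := Bool.eq_true_of_not_eq_false hc
    have h2 := tb_square hl0 hQ hc'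
    unfold V at hV
    rw [if_neg h4] at hV
    apply hV
    have h3 : ((Nat.add (Nat.mul (res z.t l) (res z.t l)) (Nat.mul 4 (res z.P l)) : ℕ) : ZMod l) =
        ((z.t ^ 2 + 4 * z.P : ℤ) : ZMod l) := by
      change ((res z.t l * res z.t l + 4 * res z.P l : ℕ) : ZMod l) = _
      push_cast
      rw [res_cast' z.t hl0, res_cast' z.P hl0]
      ring
    rw [h3] at h2
    exact h2
  rw [h1] at h
  exact geo4_sound H h

/-- the constraint -/
def Con4 (z : Dat) : Prop := z.b * z.R = z.B1

theorem con4_eq {z : Dat} (h : Con4 z) : z.P * (z.a * (2 + z.a * z.b)) =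
    z.t * (1 + z.a * z.b) + z.b := by
  unfold Con4 Dat.B1 Dat.R at h
  linear_combination -h

/-- coefficients at the actual data -/
structure QS (z : Dat) (l q0 q1 q2 : ℕ) : Prop where
  q0l : q0 < l
  eq : (z.P : ZMod l) * (q0 : ZMod l) = (z.t : ZMod l) * (q1 : ZMod l) + (q2 : ZMod l)

theorem cont4_sound {z : Dat} {l : ℕ} (hl0 : 0 < l) (hcon : Con4 z) {g : ℕ → ℕ → ℕ → Bool}
    (h : cont4 l (res z.a l) (res z.b l) g = true) :
    ∃ q0 q1 q2, QS z l q0 q1 q2 ∧ g q0 q1 q2 = true := by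
  have ca := res_cast' z.a hl0
  have cb := res_cast' z.b hl0
  have ce : (z.P : ZMod l) * (z.a * (2 + z.a * z.b)) =
      z.t * (1 + z.a * z.b) + z.b := by
    have := congrArg (fun x : ℤ => (x : ZMod l)) (con4_eq hcon)
    push_cast at this
    exact this
  unfold cont4 at h
  simp only [force_eq] at h
  have hc : ((Nat.mod (Nat.add 1 (Nat.mul (res z.a l) (res z.b l))) l : ℕ) : ZMod l) =
      1 + z.a * z.b := by
    change (((1 + res z.a l * res z.b l) % l : ℕ) : ZMod l) = _
    rw [ZMod.natCast_mod]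
    push_cast
    rw [ca, cb]
  set c := Nat.mod (Nat.add 1 (Nat.mul (res z.a l) (res z.b l))) l with hcd
  refine ⟨_, _, _, ⟨Nat.mod_lt _ hl0, ?_⟩, h⟩
  have e : ((Nat.mod (Nat.mul (res z.a l) (Nat.add 1 c)) l : ℕ) : ZMod l) =
      z.a * (2 + z.a * z.b) := by
    change (((res z.a l * (1 + c)) % l : ℕ) : ZMod l) = _
    rw [ZMod.natCast_mod]
    push_cast
    rw [ca, hc]
    ring
  change (z.P : ZMod l) * ((Nat.mod (Nat.mul (res z.a l) (Nat.add 1 c)) l : ℕ) : ZMod l) = _
  rw [e, hc, cb]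
  exact ce

theorem enP4_sound {z : Dat} {l I Q : ℕ} (H : LOK z l I) (hp : l.Prime) (hV : V l z.t z.P)
    (hQ : chkIq l Q = true) {q0 q1 q2 : ℕ} (hq : QS z l q0 q1 q2) {f : Leaf}
    (h : enP4 l I Q (res z.a l) (res z.b l) q0 q1 q2 (res z.t l) f = true) : At4 z l f := by
  have hl := H.l1
  have hl0 : 0 < l := by omega
  have hF := Fact.mk hp
  have h4 : l ≠ 4 := by rintro rfl; exact absurd hp (by norm_num)
  have ct := res_cast' z.t hl0
  unfold enP4 at h
  rw [force_eq] at h
  have hv : ((Nat.mod (Nat.add (Nat.mul (res z.t l) q1) q2) l : ℕ) : ZMod l) =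
      z.P * (q0 : ZMod l) := by
    change (((res z.t l * q1 + q2) % l : ℕ) : ZMod l) = _
    rw [ZMod.natCast_mod]
    push_cast
    rw [ct, hq.eq]
  set v := Nat.mod (Nat.add (Nat.mul (res z.t l) q1) q2) l with hvd
  cases q0 with
  | zero =>
    change imp (Nat.beq v 0) (allN l (fun P => tge4 l I Q (res z.a l) (res z.b l) (res z.t l) P f)) =
      true at h
    have h1 : v = 0 := by
      rw [Nat.cast_zero, mul_zero] at hv
      have h2 : v < l := Nat.mod_lt _ hl0
      rw [ZMod.natCast_eq_zero_iff] at hv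
      exact Nat.eq_zero_of_dvd_of_lt hv h2
    have h2 := imp_true h (by rw [h1]; rfl)
    rw [allN_iff] at h2
    exact tge4_sound H h4 hV hQ (h2 _ (res_lt z.P hl0))
  | succ n =>
    change force (Nat.mod (Nat.mul v (look I (n + 1))) l)
      (fun P => tge4 l I Q (res z.a l) (res z.b l) (res z.t l) P f) = true at h
    rw [force_eq] at h
    have hu : IsUnit ((n + 1 : ℕ) : ZMod l) := by
      rw [isUnit_iff_ne_zero]
      intro h0
      rw [ZMod.natCast_eq_zero_iff] at h0
      have := Nat.le_of_dvd (by omega) h0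
      have := hq.q0l
      omega
    have h5 := chkI_sound hl H.hI hq.q0l hu
    have h6 : Nat.mod (Nat.mul v (look I (n + 1))) l = res z.P l := by
      apply mod_res hl0
      change ((v * look I (n + 1) : ℕ) : ZMod l) = _
      push_cast
      push_cast at hv h5
      rw [hv, mul_assoc, h5, mul_one]
    rw [h6] at h
    exact tge4_sound H h4 hV hQ h

theorem enF4_sound {z : Dat} {l I Q tbd : ℕ} (H : LOK z l I) (hp : l.Prime) (hV : V l z.t z.P)
    (hQ : chkIq l Q = true) (hcon : Con4 z) {f : Leaf} (htb : res z.t l < tbd)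
    (h : enF4 l I Q (res z.a l) tbd f = true) : At4 z l f := by
  have hl := H.l1
  have hl0 : 0 < l := by omega
  unfold enF4 at h
  rw [allN_iff] at h
  obtain ⟨q0, q1, q2, hq, h2⟩ := cont4_sound hl0 hcon (h _ (res_lt z.b hl0))
  rw [allN_iff] at h2
  exact enP4_sound H hp hV hQ hq (h2 _ htb)

theorem enL4_sound {z : Dat} {l I Q K T A B K' T' A' B' : ℕ} (H : LOK z l I) (hp : l.Prime)
    (hV : V l z.t z.P) (hQ : chkIq l Q = true) (hcon : Con4 z)
    (h1 : Lin z l K T A B) (h2 : Lin z l K' T' A' B') {f : Leaf}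
    (h : enL4 l I Q K T A B K' T' A' B' f = true) : At4 z l f := by
  have hl := H.l1
  have hl0 : 0 < l := by omega
  unfold enL4 at h
  obtain ⟨dk, du, dv, k, u, v, hdv, e1, e2, h3⟩ := nrm_sound H hp h1 h2 h
  rw [allN_iff] at h3
  have h4 := enB_sound H hp hdv e1 e2 (h3 _ (res_lt z.a hl0))
  obtain ⟨q0, q1, q2, hq, h5⟩ := cont4_sound hl0 hcon h4
  exact enP4_sound H hp hV hQ hq h5

/-- check of the rows -/
noncomputable def chkRows4 (l I Q : ℕ) (rows : RL) : Bool :=
  allN l (fun a => rows.any (fun a' row => and (Nat.beq a' a)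
    (enF4 l I Q a l (fun _ b t P R k0 k1 k2 =>
      force (Nat.mod (Nat.shiftRight row (Nat.mul 56 (Nat.add (Nat.mul l b) t)))
        72057594037927936) (fun e => or (Nat.beq e 1) (Nat.beq e (pack P R k0 k1 k2)))))))

theorem enT4_sound {z : Dat} {l I Q K T A B K' T' A' B' : ℕ} {rows : RL} (H : LOK z l I)
    (hp : l.Prime) (hV : V l z.t z.P) (hQ : chkIq l Q = true) (hcon : Con4 z)
    (hl24 : l ≤ 24) (hrows : chkRows4 l I Q rows = true)
    (h1 : Lin z l K T A B) (h2 : Lin z l K' T' A' B') {f : Leaf}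
    (h : enT4 l I Q rows K T A B K' T' A' B' f = true) : At4 z l f := by
  have hl := H.l1
  have hl0 : 0 < l := by omega
  have hl4 : l ≠ 4 := by rintro rfl; exact absurd hp (by norm_num)
  unfold enT4 at h
  obtain ⟨dk, du, dv, k, u, v, hdv, e1, e2, h3⟩ := nrm_sound H hp h1 h2 h
  unfold chkRows4 at hrows
  rw [allN_iff] at hrows
  obtain ⟨a, r, h4, h5⟩ := RL.all_any h3 (hrows _ (res_lt z.a hl0))
  rw [Bool.and_eq_true] at h5
  have ha : a = res z.a l := Nat.eq_of_beq_eq_true h5.1
  subst ha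
  have h6 := enB_sound H hp hdv e1 e2 h4
  have h7 := enF4_sound H hp hV hQ hcon (res_lt z.t hl0) h5.2
  unfold At4 at h7 ⊢
  simp only [force_eq] at h7
  rw [Bool.or_eq_true] at h7
  unfold rowE4 at h6
  rw [force_eq] at h6
  rcases h7 with h7 | h8
  · have h8 := Nat.eq_of_beq_eq_true h7
    rw [h8] at h6
    change allN l (fun P => tge4 l I Q (res z.a l) (res z.b l) (res z.t l) P f) = true at h6
    rw [allN_iff] at h6
    exact tge4_sound H hl4 hV hQ (h6 _ (res_lt z.P hl0))
  · have h8 := Nat.eq_of_beq_eq_true h8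
    rw [h8] at h6
    have hb : ∀ x : ℤ, res x l < 24 := fun x => lt_of_lt_of_le (res_lt x hl0) hl24
    have hP : 0 < res z.P l := by
      rcases Nat.eq_zero_or_pos (res z.P l) with h0 | h0
      · exfalso
        have hc := res_cast' z.P hl0
        rw [h0, Nat.cast_zero] at hc
        have hP := H.hP
        push_cast at hP
        rw [← hc, zero_mul] at hP
        have hF := Fact.mk hp
        exact zero_ne_one hP
      · exact h0
    have bpk : ∀ x y : ℤ, pk l x y < 4096 := by
      intro x y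
      unfold pk
      have b1 := hb x
      have b2 := hb y
      have b3 : res x l * l ≤ 23 * 24 := Nat.mul_le_mul (by omega) hl24
      omega
    have bP := hb z.P
    have bR := hb z.R
    have b0 := bpk z.t z.P
    have b1 := bpk (z.B1 * z.Pi) (z.R * z.Pi)
    have b2 := bpk (z.B1 * z.Ri) (z.P * z.Ri)
    generalize hk0 : pk l z.t z.P = k0 at *
    generalize hk1 : pk l (z.B1 * z.Pi) (z.R * z.Pi) = k1 at *
    generalize hk2 : pk l (z.B1 * z.Ri) (z.P * z.Ri) = k2 at *
    generalize res z.P l = P at *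
    generalize res z.R l = R at *
    have hpk : pack (7 * P) (7 * R) k0 k1 k2 =
        7 * P + (256 * (7 * R) + (65536 * k0 + (268435456 * k1 + 1099511627776 * k2))) := rfl
    obtain ⟨n, hn⟩ : ∃ n, pack (7 * P) (7 * R) k0 k1 k2 = n + 2 :=
      ⟨pack (7 * P) (7 * R) k0 k1 k2 - 2, by omega⟩
    rw [hn] at h6
    change f (res z.a l) (res z.b l) (res z.t l) ((n + 2) % 256) (((n + 2) >>> 8) % 256)
      (((n + 2) >>> 16) % 4096) (((n + 2) >>> 28) % 4096) ((n + 2) >>> 40) = true at h6
    rw [← hn, hpk] at h6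
    simp only [Nat.shiftRight_eq_div_pow] at h6
    set S := 7 * P + (256 * (7 * R) + (65536 * k0 + (268435456 * k1 + 1099511627776 * k2))) with hS
    have g1 : S % 256 = 7 * P := by omega
    have g2 : S / 2 ^ 8 % 256 = 7 * R := by
      have : S / 2 ^ 8 = 7 * R + 256 * (k0 + 4096 * (k1 + 4096 * k2)) := by
        rw [show 2 ^ 8 = 256 by norm_num]; omega
      rw [this]; omega
    have g3 : S / 2 ^ 16 % 4096 = k0 := by
      have : S / 2 ^ 16 = k0 + 4096 * (k1 + 4096 * k2) := by
        rw [show 2 ^ 16 = 65536 by norm_num]; omega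
      rw [this]; omega
    have g4 : S / 2 ^ 28 % 4096 = k1 := by
      have : S / 2 ^ 28 = k1 + 4096 * k2 := by
        rw [show 2 ^ 28 = 268435456 by norm_num]; omega
      rw [this]; omega
    have g5 : S / 2 ^ 40 = k2 := by
      rw [show 2 ^ 40 = 1099511627776 by norm_num]; omega
    rw [g1, g2, g3, g4, g5] at h6
    exact h6

/-- check of a list -/
noncomputable def chkLL4 (sel : Leaf) (l I Q : ℕ) (L : LL) : Bool :=
  allN l (fun a => enF4 l I Q a l (fun a b t P R k0 k1 k2 =>
    imp (sel a b t P R k0 k1 k2) (L.any (eqL a b t P R k0 k1 k2))))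

theorem LL4_sound {z : Dat} {l I Q : ℕ} {L : LL} {sel : Leaf} (H : LOK z l I)
    (hp : l.Prime) (hV : V l z.t z.P) (hQ : chkIq l Q = true) (hcon : Con4 z)
    (hsel : At4 z l sel)
    (hL : chkLL4 sel l I Q L = true) {f : Leaf} (h : L.all f = true) : At4 z l f := by
  have hl0 : 0 < l := by have := H.l1; omega
  unfold chkLL4 at hL
  rw [allN_iff] at hL
  have h7 := enF4_sound H hp hV hQ hcon (res_lt z.t hl0) (hL _ (res_lt z.a hl0))
  unfold At4 at h7 hsel ⊢
  exact LL.all_any h (imp_true h7 hsel)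

/-- check of the list modulo 4 -/
noncomputable def chkL44 (sel : Leaf) (I : ℕ) (L : LL) : Bool :=
  allN 4 (fun a => allN 4 (fun b => cont4 4 a b (fun q0 q1 q2 => allN 4 (fun t => allN 4 (fun P =>
    imp (Nat.beq (Nat.mod t 2) 1) (imp (Nat.beq (Nat.mod P 2) 1)
      (imp (Nat.beq (Nat.mod (Nat.mul P q0) 4) (Nat.mod (Nat.add (Nat.mul t q1) q2) 4))
        (geo4 4 I a b t P (fun a b t P R k0 k1 k2 =>
          imp (sel a b t P R k0 k1 k2) (L.any (eqL a b t P R k0 k1 k2)))))))))))

theorem L44_sound {z : Dat} {I : ℕ} {L : LL} {sel : Leaf} (H : LOK z 4 I) (hV : V 4 z.t z.P)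
    (hcon : Con4 z) (hsel : At4 z 4 sel) (hL : chkL44 sel I L = true) {f : Leaf} (h : L.all f = true) : At4 z 4 f := by
  unfold chkL44 at hL
  rw [allN_iff] at hL
  have h1 := hL _ (res_lt z.a (by norm_num))
  rw [allN_iff] at h1
  obtain ⟨q0, q1, q2, hq, h2⟩ := cont4_sound (by norm_num) hcon (h1 _ (res_lt z.b (by norm_num)))
  rw [allN_iff] at h2
  have h3 := h2 _ (res_lt z.t (by norm_num))
  rw [allN_iff] at h3
  have h4 := h3 _ (res_lt z.P (by norm_num))
  unfold V at hV
  rw [if_pos rfl] at hV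
  have e1 := res_int z.t (M := 4) (by norm_num)
  have e2 := res_int z.P (M := 4) (by norm_num)
  have h5 : Nat.beq (Nat.mod (res z.t 4) 2) 1 = true := by
    have : Nat.mod (res z.t 4) 2 = 1 := by
      change res z.t 4 % 2 = 1
      omega
    rw [this]; rfl
  have h6 : Nat.beq (Nat.mod (res z.P 4) 2) 1 = true := by
    have : Nat.mod (res z.P 4) 2 = 1 := by
      change res z.P 4 % 2 = 1
      omega
    rw [this]; rfl
  have h7 := imp_true (imp_true h4 h5) h6
  have h8 : ((res z.P 4 * q0 : ℕ) : ZMod 4) = ((res z.t 4 * q1 + q2 : ℕ) : ZMod 4) := by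
    push_cast
    rw [res_cast' z.P (by norm_num), res_cast' z.t (by norm_num)]
    exact hq.eq
  rw [ZMod.natCast_eq_natCast_iff'] at h8
  have h9 : Nat.beq (Nat.mod (Nat.mul (res z.P 4) q0) 4)
      (Nat.mod (Nat.add (Nat.mul (res z.t 4) q1) q2) 4) = true := by
    change Nat.beq (res z.P 4 * q0 % 4) ((res z.t 4 * q1 + q2) % 4) = true
    rw [h8]; exact Nat.beq_refl _
  have h10 := geo4_sound H (imp_true h7 h9)
  unfold At4 at h10 hsel ⊢
  exact LL.all_any h (imp_true h10 hsel)

end Pool.Agent.L0h49.P
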