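import Pool.Agent.L0h49.P.K5
import Pool.Agent.L0h49.P.K3
import Pool.Agent.L0h49.C.K7

/-! Soundness of the stages. -/

set_option maxRecDepth 100000

namespace Pool.Agent.L0h49.P

open H419R2 Finset
open Pool.Agent.N911

/-- all that is used about the integers -/
structure Sys4 (z : Dat) : Prop where
  con : Con4 z
  hP : M0 ∣ z.P * z.Pi - 1
  hR : M0 ∣ z.R * z.Ri - 1
  tod : z.t % 2 = 1
  Pod : z.P % 2 = 1
  nsq : ∀ l : ℕ, l ∈ [3, 5, 7, 13, 19, 37, 73] → ¬ IsSquare ((z.t ^ 2 + 4 * z.P : ℤ) : ZMod l)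
  r148_7 : NRel4 c148_7 z
  r148_19 : NRel4 c148_19 z
  r259_0 : NRel4 c259_19_0 z
  r259_1 : NRel4 c259_19_1 z
  r259_2 : NRel4 c259_19_2 z
  r133_37 : NRel4 c133_37 z
  r111_0 : NRel4 c111_19_0 z
  r111_1 : NRel4 c111_19_1 z
  r228 : NRel4 c228_7 z
  r140 : NRel4 c140_13 z
  r95 : NRel4 c95_13 z
  r105 : NRel4 c105_13 z
  r185 : NRel4 c185_13 z
  r133_13 : NRel4 c133_13 z
  r91 : NRel4 c91_37 z
  r133_73 : NRel4 c133_73 z
  r247_0 : NRel4 c247_73_0 z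
  r247_1 : NRel4 c247_73_1 z
  r259_73 : NRel4 c259_73 z

/-- third index -/
abbrev q2 (z : Dat) (l : ℕ) : ℕ := pk l (z.B1 * z.Ri) (z.P * z.Ri)

theorem lok4 {z : Dat} (H : Sys4 z) {l I : ℕ} (l1 : 1 < l) (hI : chkI l I = true)
    (hl : (l : ℤ) ∣ M0) : LOK z l I :=
  ⟨l1, hI, Sys.one_of (z := z) H.hP hl, Sys.one_of (z := z) H.hR hl⟩

theorem Sys4.v0 {z : Dat} (H : Sys4 z) {l : ℕ} (h : l ∈ [3, 5, 7, 13, 19, 37, 73]) :
    V l z.t z.P := by
  unfold V
  rw [if_neg (by rintro rfl; simp at h)]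
  exact H.nsq l h

theorem Sys4.v1 {z : Dat} (H : Sys4 z) {l : ℕ} (h : l ∈ [3, 5, 7, 13, 19, 37, 73]) :
    V l (z.B1 * z.Pi) (z.R * z.Pi) := by
  unfold V
  rw [if_neg (by rintro rfl; simp at h)]
  intro hs
  apply H.nsq l h
  have e := Sys.one_of (z := z) H.hP (mem_dvd h)
  push_cast at e
  apply sq_of (y := (z.Pi : ZMod l)) (y' := (z.P : ZMod l)) e
  have d : ((z.B1 ^ 2 + 4 * z.P * z.R : ℤ) : ZMod l) = ((z.t ^ 2 + 4 * z.P : ℤ) : ZMod l) := by
    rw [disc1]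
  rw [← d]
  convert hs using 1
  push_cast
  linear_combination 4 * (z.R : ZMod l) * z.Pi * e

theorem Sys4.v2 {z : Dat} (H : Sys4 z) {l : ℕ} (h : l ∈ [3, 5, 7, 13, 19, 37, 73]) :
    V l (z.B1 * z.Ri) (z.P * z.Ri) := by
  unfold V
  rw [if_neg (by rintro rfl; simp at h)]
  intro hs
  apply H.nsq l h
  have e := Sys.one_of (z := z) H.hR (mem_dvd h)
  push_cast at e
  apply sq_of (y := (z.Ri : ZMod l)) (y' := (z.R : ZMod l)) e
  have d : ((z.B1 ^ 2 + 4 * z.P * z.R : ℤ) : ZMod l) = ((z.t ^ 2 + 4 * z.P : ℤ) : ZMod l) := by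
    rw [disc1]
  rw [← d]
  convert hs using 1
  push_cast
  linear_combination 4 * (z.P : ZMod l) * z.Ri * e

theorem odd_R4 {z : Dat} (H : Sys4 z) : z.R % 2 = 1 := by
  have h1 := H.tod
  have h2 := H.Pod
  unfold Dat.R
  obtain ⟨t', ht⟩ : ∃ k, z.t = 2 * k + 1 := ⟨z.t / 2, by omega⟩
  obtain ⟨P', hP⟩ : ∃ k, z.P = 2 * k + 1 := ⟨z.P / 2, by omega⟩
  rw [ht, hP]
  have h3 : (z.a * (z.a - 1)) % 2 = 0 := by
    rcases Int.emod_two_eq_zero_or_one z.a with h | h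
    · rw [Int.mul_emod, h, zero_mul]; rfl
    · rw [Int.mul_emod, show (z.a - 1) % 2 = 0 by omega, mul_zero]; rfl
  have e : 1 + z.a * (2 * t' + 1) - z.a ^ 2 * (2 * P' + 1) =
      1 - z.a * (z.a - 1) + 2 * (z.a * t' - z.a ^ 2 * P') := by ring
  rw [e]
  omega

theorem odd_B14 {z : Dat} (H : Sys4 z) : z.B1 % 2 = 1 := by
  have h1 := H.tod
  unfold Dat.B1
  have e : 2 * z.a * z.P - z.t = 2 * (z.a * z.P) - z.t := by ring
  rw [e]; omega

theorem Sys4.w0 {z : Dat} (H : Sys4 z) : V 4 z.t z.P := by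
  unfold V; rw [if_pos rfl]; exact ⟨H.tod, H.Pod⟩

theorem Sys4.w1 {z : Dat} (H : Sys4 z) : V 4 (z.B1 * z.Pi) (z.R * z.Pi) := by
  unfold V; rw [if_pos rfl]
  exact ⟨odd_mul (odd_B14 H) (odd_inv H.hP), odd_mul (odd_R4 H) (odd_inv H.hP)⟩

theorem Sys4.w2 {z : Dat} (H : Sys4 z) : V 4 (z.B1 * z.Ri) (z.P * z.Ri) := by
  unfold V; rw [if_pos rfl]
  exact ⟨odd_mul (odd_B14 H) (odd_inv H.hR), odd_mul H.Pod (odd_inv H.hR)⟩

theorem T73_sound {z : Dat} (H : Sys4 z) {sel : Leaf} (hsel : At4 z 73 sel)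
    (h : T73 (pP z 7) (p0 z 7) (p1 z 7) (q2 z 7) (pP z 13) (p0 z 13) (p1 z 13) (q2 z 13)
      (pP z 19) (p0 z 19) (p1 z 19) (q2 z 19) (pP z 37) (p0 z 37) (p1 z 37) (q2 z 37)
      (pR z 7) (pR z 13) (pR z 19) (pR z 37) sel c133_73 c247_73_0 c247_73_1 c259_73 = true) :
    False := by
  unfold T73 at h
  have i133 : idem 7 57 19 77 c133_73.q = true := by decide
  have i247 : idem 13 209 19 39 c247_73_0.q = true := by decide
  have i247' : idem 13 209 19 39 c247_73_1.q = true := by decide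
  have i259 : idem 7 148 37 112 c259_73.q = true := by decide
  obtain ⟨K, T, A, B, N1, h⟩ := cof4_sound H.r133_73
    (evD_sound c133_73_ok (by norm_num) (by norm_num) i133 _ _)
    (evD_sound c133_73_ok (by norm_num) (by norm_num) i133 _ _)
    (evD_sound c133_73_ok (by norm_num) (by norm_num) i133 _ _)
    (chD_sound (by norm_num) (by norm_num) i133 _)
    (chD_sound (by norm_num) (by norm_num) i133 _) h
  obtain ⟨K', T', A', B', N2, h⟩ := cof4_sound H.r247_0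
    (evD_sound c247_73_0_ok (by norm_num) (by norm_num) i247 _ _)
    (evD_sound c247_73_0_ok (by norm_num) (by norm_num) i247 _ _)
    (evD_sound c247_73_0_ok (by norm_num) (by norm_num) i247 _ _)
    (chD_sound (by norm_num) (by norm_num) i247 _)
    (chD_sound (by norm_num) (by norm_num) i247 _) h
  obtain ⟨K2, T2, A2, B2, N3, h⟩ := cof4_sound H.r247_1
    (evD_sound c247_73_1_ok (by norm_num) (by norm_num) i247' _ _)
    (evD_sound c247_73_1_ok (by norm_num) (by norm_num) i247' _ _)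
    (evD_sound c247_73_1_ok (by norm_num) (by norm_num) i247' _ _)
    (chD_sound (by norm_num) (by norm_num) i247' _)
    (chD_sound (by norm_num) (by norm_num) i247' _) h
  obtain ⟨K3, T3, A3, B3, N4, h⟩ := cof4_sound H.r259_73
    (evD_sound c259_73_ok (by norm_num) (by norm_num) i259 _ _)
    (evD_sound c259_73_ok (by norm_num) (by norm_num) i259 _ _)
    (evD_sound c259_73_ok (by norm_num) (by norm_num) i259 _ _)
    (chD_sound (by norm_num) (by norm_num) i259 _)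
    (chD_sound (by norm_num) (by norm_num) i259 _) h
  have h1 := enL4_sound (lok4 H (by norm_num) ci73 (mem_dvd (by simp))) (by norm_num)
    (H.v0 (by simp)) iq73 H.con N1 N2 h
  unfold At4 at h1 hsel
  have ca := res_cast' z.a (show 0 < 73 by norm_num)
  have cb := res_cast' z.b (show 0 < 73 by norm_num)
  have ct := res_cast' z.t (show 0 < 73 by norm_num)
  have h2 := imp_true h1 (ckL_sound N3 ca cb ct)
  have h3 := imp_true h2 (ckL_sound N4 ca cb ct)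
  have h4 := imp_true h3 hsel
  exact absurd h4 (by simp)

theorem T13_sound {z : Dat} (H : Sys4 z) {next : Leaf}
    (h : T13 (res z.a 37) (res z.b 37) (res z.t 37) (pP z 37) (pR z 37) (p0 z 37) (p1 z 37)
      (q2 z 37) (pP z 7) (pR z 7) (p0 z 7) (p1 z 7) (q2 z 7)
      (pP z 19) (pR z 19) (p0 z 19) (p1 z 19) (q2 z 19)
      (pP z 3) (pR z 3) (p0 z 3) (p1 z 3) (q2 z 3)
      (pP z 5) (pR z 5) (p0 z 5) (p1 z 5) (q2 z 5) next = true) : At4 z 13 next := by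
  have m3 : (3 : ℕ) ∈ [3, 5, 7, 13, 19, 37, 73] := by simp
  have m5 : (5 : ℕ) ∈ [3, 5, 7, 13, 19, 37, 73] := by simp
  have m7 : (7 : ℕ) ∈ [3, 5, 7, 13, 19, 37, 73] := by simp
  have m13 : (13 : ℕ) ∈ [3, 5, 7, 13, 19, 37, 73] := by simp
  have m19 : (19 : ℕ) ∈ [3, 5, 7, 13, 19, 37, 73] := by simp
  have m37 : (37 : ℕ) ∈ [3, 5, 7, 13, 19, 37, 73] := by simp
  unfold T13 at h
  obtain ⟨K, T, A, B, L1, h⟩ := cof4_sound H.r95
    (tab_95 (H.v0 m19) (H.v0 m5)) (tab_95 (H.v1 m19) (H.v1 m5)) (tab_95 (H.v2 m19) (H.v2 m5))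
    (chv_95 z.P) (chv_95 z.R) h
  obtain ⟨K', T', A', B', L2, h⟩ := cof4_sound H.r105
    (tab_105 (H.v0 m7) (H.v0 m3) (H.v0 m5)) (tab_105 (H.v1 m7) (H.v1 m3) (H.v1 m5))
    (tab_105 (H.v2 m7) (H.v2 m3) (H.v2 m5)) (chv_105 z.P) (chv_105 z.R) h
  obtain ⟨K2, T2, A2, B2, L3, h⟩ := cof4_sound H.r185
    (tab_185 (H.v0 m37) (H.v0 m5)) (tab_185 (H.v1 m37) (H.v1 m5)) (tab_185 (H.v2 m37) (H.v2 m5))
    (chv_185 z.P) (chv_185 z.R) h
  obtain ⟨K3, T3, A3, B3, L4, h⟩ := cof4_sound H.r133_13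
    (tab_133_13 (H.v0 m7) (H.v0 m19)) (tab_133_13 (H.v1 m7) (H.v1 m19))
    (tab_133_13 (H.v2 m7) (H.v2 m19)) (chv_133_13 z.P) (chv_133_13 z.R) h
  simp only [force_eq] at h
  have h1 := enL4_sound (lok4 H (by norm_num) ci13 (mem_dvd m13)) (by norm_num)
    (H.v0 m13) iq13 H.con L1 L2 h
  unfold At4 at h1 ⊢
  have ca := res_cast' z.a (show 0 < 13 by norm_num)
  have cb := res_cast' z.b (show 0 < 13 by norm_num)
  have ct := res_cast' z.t (show 0 < 13 by norm_num)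
  have h2 := imp_true h1 (ckL_sound L3 ca cb ct)
  have h3 := imp_true h2 (ckL_sound L4 ca cb ct)
  have ca' := res_cast' z.a (show 0 < 37 by norm_num)
  have cb' := res_cast' z.b (show 0 < 37 by norm_num)
  have ct' := res_cast' z.t (show 0 < 37 by norm_num)
  exact imp_true h3 (ckF4_sound H.r91 rfl
    (tab_91 (H.v0 m7) (H.v0 m13)) (tab_91 (H.v1 m7) (H.v1 m13)) (tab_91 (H.v2 m7) (H.v2 m13))
    (chv_91 z.P) (chv_91 z.R) ca' cb' ct')

/-- selection modulo 4 for period four -/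
def sel4 : Leaf := fun _ _ _ _ R _ _ _ => Nat.beq R 21

/-- selection modulo 4 for period two -/
def sel2 : Leaf := fun a b t P R _ _ _ => cj (Nat.beq b t) (cj (Nat.beq R 7)
  (cj (Nat.beq P 21) (Nat.beq (Nat.mod a 2) 1)))

/-- selection for period two, prime modulus -/
def selC (l : ℕ) : Leaf := fun a b t P R _ _ _ => cj (Nat.beq b t) (cj (Nat.beq R 7)
  (Nat.beq (Nat.mod (Nat.mul a P) (Nat.mul 7 l)) (Nat.mul 7 t)))

theorem selA_at (z : Dat) (l : ℕ) : At4 z l selA := rfl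

/-- lists -/
theorem cm3 : chkLL4 selA 3 I3 Q3 M3 = true := by decide +kernel
theorem cm5 : chkLL4 selA 5 I5 Q5 M5 = true := by decide +kernel
theorem cm7 : chkLL4 selA 7 I7 Q7 M7 = true := by decide +kernel
theorem cn7 : chkLL4 (selC 7) 7 I7 Q7 N7 = true := by decide +kernel
theorem cm4 : chkL44 sel4 I4 M4 = true := by decide +kernel
theorem cn4 : chkL44 sel2 I4 N4 = true := by decide +kernel
theorem cmr19 : chkRows4 19 I19 Q19 mrows19 = true := by decide +kernel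

theorem T5_sound {z : Dat} (H : Sys4 z) {next : Leaf}
    (h : T5 (pP z 7) (p0 z 7) (p1 z 7) (pP z 4) (p0 z 4) (p1 z 4) next = true) :
    At4 z 5 next := by
  have m5 : (5 : ℕ) ∈ [3, 5, 7, 13, 19, 37, 73] := by simp
  have m7 : (7 : ℕ) ∈ [3, 5, 7, 13, 19, 37, 73] := by simp
  unfold T5 at h
  simp only [force_eq] at h
  have h1 := LL4_sound (lok4 H (by norm_num) ci5 (mem_dvd m5)) (by norm_num)
    (H.v0 m5) iq5 H.con (selA_at z 5) cm5 h
  unfold At4 at h1 ⊢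
  exact imp_true h1 (ckV4_sound H.r140 rfl
    (tab_140 (H.v0 m7) H.w0 (H.v0 m5)) (tab_140 (H.v1 m7) H.w1 (H.v1 m5))
    (tab_140 (H.v2 m7) H.w2 (H.v2 m5)) (chv_140 z.P) (chv_140 z.R))

/-- the checks of relations of conductor `148` -/
theorem c148_sound {z : Dat} (H : Sys4 z) {X : Bool}
    (h : imp (ckV4 7 (sl 4 X148_7 (pP z 37)) (sl 16 E148_7 (p0 z 37)) (sl 16 E148_7 (p1 z 37))
      (pP z 4) (p0 z 4) (p1 z 4)) (imp (ckV4 19 (sl 4 X148_19 (pP z 37))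
      (sl 16 E148_19 (p0 z 37)) (sl 16 E148_19 (p1 z 37)) (pP z 4) (p0 z 4) (p1 z 4)) X) = true) :
    X = true := by
  have m37 : (37 : ℕ) ∈ [3, 5, 7, 13, 19, 37, 73] := by simp
  have h5 := imp_true h (ckV4_sound H.r148_7 rfl
    (tab_148_7 (H.v0 m37) H.w0) (tab_148_7 (H.v1 m37) H.w1) (tab_148_7 (H.v2 m37) H.w2)
    (chv_148_7 z.P) (chv_148_7 z.R))
  exact imp_true h5 (ckV4_sound H.r148_19 rfl
    (tab_148_19 (H.v0 m37) H.w0) (tab_148_19 (H.v1 m37) H.w1) (tab_148_19 (H.v2 m37) H.w2)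
    (chv_148_19 z.P) (chv_148_19 z.R))

theorem T3_sound {z : Dat} (H : Sys4 z) {L4 : LL} {s4 : Leaf} (hs4 : At4 z 4 s4)
    (hL4 : chkL44 s4 I4 L4 = true) {next : ℕ → ℕ → ℕ → ℕ → ℕ → ℕ → ℕ → Leaf}
    (h : T3 L4 (sl 4 X148_7 (pP z 37)) (sl 16 E148_7 (p0 z 37)) (sl 16 E148_7 (p1 z 37))
      (sl 4 X148_19 (pP z 37)) (sl 16 E148_19 (p0 z 37)) (sl 16 E148_19 (p1 z 37))
      (sl 3 X111_0 (pP z 37)) (sl 3 X111_0 (pR z 37)) (sl 18 E111_0 (p0 z 37))
      (sl 18 E111_0 (p1 z 37)) (sl 18 E111_0 (q2 z 37))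
      (sl 3 X111_1 (pP z 37)) (sl 3 X111_1 (pR z 37)) (sl 18 E111_1 (p0 z 37))
      (sl 18 E111_1 (p1 z 37)) (sl 18 E111_1 (q2 z 37))
      (res z.a 19) (res z.b 19) (res z.t 19) (pP z 19) (p0 z 19) (p1 z 19)
      next = true) :
    At4 z 4 (next (res z.a 3) (res z.b 3) (pP z 3) (pR z 3) (p0 z 3) (p1 z 3) (q2 z 3)) := by
  have m3 : (3 : ℕ) ∈ [3, 5, 7, 13, 19, 37, 73] := by simp
  have m19 : (19 : ℕ) ∈ [3, 5, 7, 13, 19, 37, 73] := by simp
  have m37 : (37 : ℕ) ∈ [3, 5, 7, 13, 19, 37, 73] := by simp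
  unfold T3 at h
  simp only [force_eq] at h
  have h1 := LL4_sound (lok4 H (by norm_num) ci3 (mem_dvd m3)) (by norm_num)
    (H.v0 m3) iq3 H.con (selA_at z 3) cm3 h
  unfold At4 at h1
  have ca := res_cast' z.a (show 0 < 19 by norm_num)
  have cb := res_cast' z.b (show 0 < 19 by norm_num)
  have ct := res_cast' z.t (show 0 < 19 by norm_num)
  have h2 := imp_true h1 (ckF4_sound H.r111_0 rfl
    (tab_111_0 (H.v0 m37) (H.v0 m3)) (tab_111_0 (H.v1 m37) (H.v1 m3))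
    (tab_111_0 (H.v2 m37) (H.v2 m3)) (chv_111_0 z.P) (chv_111_0 z.R) ca cb ct)
  have h3 := imp_true h2 (ckF4_sound H.r111_1 rfl
    (tab_111_1 (H.v0 m37) (H.v0 m3)) (tab_111_1 (H.v1 m37) (H.v1 m3))
    (tab_111_1 (H.v2 m37) (H.v2 m3)) (chv_111_1 z.P) (chv_111_1 z.R) ca cb ct)
  have h4 := L44_sound (lok4 H (by norm_num) ci4 (by unfold M0; norm_num)) H.w0 H.con hs4 hL4 h3
  unfold At4 at h4 ⊢
  have h6 := c148_sound H h4
  exact imp_true h6 (ckV4_sound H.r228 rfl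
    (tab_228 (H.v0 m19) (H.v0 m3) H.w0) (tab_228 (H.v1 m19) (H.v1 m3) H.w1)
    (tab_228 (H.v2 m19) (H.v2 m3) H.w2) (chv_228 z.P) (chv_228 z.R))

theorem T19_sound {z : Dat} (H : Sys4 z) {next : Leaf}
    (h : T19 (res z.a 37) (res z.b 37) (res z.t 37)
      (sl 7 X259_0 (pP z 37)) (sl 7 X259_0 (pR z 37)) (sl 98 E259_0 (p0 z 37))
      (sl 98 E259_0 (p1 z 37)) (sl 98 E259_0 (q2 z 37))
      (sl 7 X259_1 (pP z 37)) (sl 7 X259_1 (pR z 37)) (sl 98 E259_1 (p0 z 37))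
      (sl 98 E259_1 (p1 z 37)) (sl 98 E259_1 (q2 z 37))
      (pP z 7) (pR z 7) (p0 z 7) (p1 z 7) (q2 z 7) next = true) : At4 z 19 next := by
  have m7 : (7 : ℕ) ∈ [3, 5, 7, 13, 19, 37, 73] := by simp
  have m19 : (19 : ℕ) ∈ [3, 5, 7, 13, 19, 37, 73] := by simp
  have m37 : (37 : ℕ) ∈ [3, 5, 7, 13, 19, 37, 73] := by simp
  unfold T19 at h
  obtain ⟨K, T, A, B, L1, h⟩ := cof4_sound H.r259_0
    (tab_259_0 (H.v0 m37) (H.v0 m7)) (tab_259_0 (H.v1 m37) (H.v1 m7))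
    (tab_259_0 (H.v2 m37) (H.v2 m7)) (chv_259_0 z.P) (chv_259_0 z.R) h
  obtain ⟨K', T', A', B', L2, h⟩ := cof4_sound H.r259_1
    (tab_259_1 (H.v0 m37) (H.v0 m7)) (tab_259_1 (H.v1 m37) (H.v1 m7))
    (tab_259_1 (H.v2 m37) (H.v2 m7)) (chv_259_1 z.P) (chv_259_1 z.R) h
  simp only [force_eq] at h
  have h1 := enT4_sound (lok4 H (by norm_num) ci19 (mem_dvd m19)) (by norm_num)
    (H.v0 m19) iq19 H.con (by norm_num) cmr19 L1 L2 h
  unfold At4 at h1 ⊢
  have ca' := res_cast' z.a (show 0 < 37 by norm_num)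
  have cb' := res_cast' z.b (show 0 < 37 by norm_num)
  have ct' := res_cast' z.t (show 0 < 37 by norm_num)
  exact imp_true h1 (ckF4_sound H.r133_37 rfl
    (tab_133_37 (H.v0 m7) (H.v0 m19)) (tab_133_37 (H.v1 m7) (H.v1 m19))
    (tab_133_37 (H.v2 m7) (H.v2 m19)) (chv_133_37 z.P) (chv_133_37 z.R) ca' cb' ct')

/-- the data lie in the exceptional class -/
def Exc (z : Dat) : Prop :=
  (res z.a 37 = 35 ∧ res z.a 7 = 5 ∧ res z.a 19 = 17 ∧ res z.a 3 = 1 ∧ res z.a 4 = 2 ∧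
    res z.a 5 = 3 ∧ res z.a 13 = 11) ∧
  (res z.b 37 = 1 ∧ res z.b 7 = 1 ∧ res z.b 19 = 1 ∧ res z.b 3 = 1 ∧ res z.b 4 = 1 ∧
    res z.b 5 = 1 ∧ res z.b 13 = 1)

theorem exc_false {z : Dat} (hx : ¬ Exc z) :
    exc (res z.a 37) (res z.a 7) (res z.a 19) (res z.a 3) (res z.a 4) (res z.a 5) (res z.a 13)
      (res z.b 37) (res z.b 7) (res z.b 19) (res z.b 3) (res z.b 4) (res z.b 5) (res z.b 13) =
      false := by
  by_contra hc
  have hc' := Bool.eq_true_of_not_eq_false hc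
  unfold exc at hc'
  simp only [cj_true] at hc'
  obtain ⟨h1, h2, h3, h4, h5, h6, h7, g1, g2, g3, g4, g5, g6, g7⟩ := hc'
  exact hx ⟨⟨Nat.eq_of_beq_eq_true h1, Nat.eq_of_beq_eq_true h2, Nat.eq_of_beq_eq_true h3,
    Nat.eq_of_beq_eq_true h4, Nat.eq_of_beq_eq_true h5, Nat.eq_of_beq_eq_true h6,
    Nat.eq_of_beq_eq_true h7⟩, Nat.eq_of_beq_eq_true g1, Nat.eq_of_beq_eq_true g2,
    Nat.eq_of_beq_eq_true g3, Nat.eq_of_beq_eq_true g4, Nat.eq_of_beq_eq_true g5,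
    Nat.eq_of_beq_eq_true g6, Nat.eq_of_beq_eq_true g7⟩

theorem T37_sound {z : Dat} (H : Sys4 z) {g : ℕ} {sel s4 s7 : Leaf} {L4 L7 : LL}
    (hz : g = 0 → ¬ (res z.a 37 = 0 ∧ res z.a 7 = 0 ∧ res z.a 19 = 0))
    (hx : ¬ Exc z)
    (hs4 : At4 z 4 s4) (hL4 : chkL44 s4 I4 L4 = true)
    (hs7 : At4 z 7 s7) (hL7 : chkLL4 s7 7 I7 Q7 L7 = true)
    (hs19 : At4 z 19 sel) (hs73 : At4 z 73 sel)
    (h : T37 g sel L4 L7 c133_73 c247_73_0 c247_73_1 c259_73
      (res z.a 37) (res z.b 37) (res z.t 37)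
      (pP z 37) (pR z 37) (p0 z 37) (p1 z 37) (q2 z 37) = true) : False := by
  have m7 : (7 : ℕ) ∈ [3, 5, 7, 13, 19, 37, 73] := by simp
  have m37 : (37 : ℕ) ∈ [3, 5, 7, 13, 19, 37, 73] := by simp
  unfold T37 at h
  simp only [force_eq] at h
  generalize hb : L4.all (fun _ _ _ P4 _ i4 j4 _ =>
      imp (ckV4 7 (sl 4 X148_7 (pP z 37)) (sl 16 E148_7 (p0 z 37)) (sl 16 E148_7 (p1 z 37))
        P4 i4 j4)
        (imp (ckV4 19 (sl 4 X148_19 (pP z 37)) (sl 16 E148_19 (p0 z 37))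
          (sl 16 E148_19 (p1 z 37)) P4 i4 j4) false)) = bb at h
  cases bb with
  | true =>
    have h4 := L44_sound (lok4 H (by norm_num) ci4 (by unfold M0; norm_num)) H.w0 H.con hs4 hL4 hb
    unfold At4 at h4
    exact absurd (c148_sound H h4) (by simp)
  | false =>
    have h1 := LL4_sound (lok4 H (by norm_num) ci7 (mem_dvd m7)) (by norm_num)
      (H.v0 m7) iq7 H.con hs7 hL7 h
    unfold At4 at h1
    have h2 := imp_true h1 (ckV4_sound H.r259_2 rfl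
      (tab_259_2 (H.v0 m37) (H.v0 m7)) (tab_259_2 (H.v1 m37) (H.v1 m7))
      (tab_259_2 (H.v2 m37) (H.v2 m7)) (chv_259_2 z.P) (chv_259_2 z.R))
    have h3 := T19_sound H h2
    unfold At4 at h3 hs19
    have h3' := imp_true (imp_true h3 hs19) (by
      apply Nat.ble_eq_true_of_le
      change 1 ≤ g + res z.a 37 + (res z.a 7 + res z.a 19)
      by_contra hc
      exact hz (by omega) ⟨by omega, by omega, by omega⟩)
    have h4 := T3_sound H hs4 hL4 h3'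
    unfold At4 at h4
    have h5 := T5_sound H h4
    unfold At4 at h5
    have h6 := T13_sound H h5
    unfold At4 at h6
    simp only [exc_false hx] at h6
    exact T73_sound H hs73 h6

theorem run4_sound {z : Dat} (H : Sys4 z) (ht : res z.t 37 < 19)
    (hz : ¬ (res z.a 37 = 0 ∧ res z.a 7 = 0 ∧ res z.a 19 = 0))
    (hx : ¬ Exc z)
    (hR4 : res z.R 4 = 3)
    (h : run4 c133_73 c247_73_0 c247_73_1 c259_73 (res z.a 37) = true) :
    False := by
  have m37 : (37 : ℕ) ∈ [3, 5, 7, 13, 19, 37, 73] := by simp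
  unfold run4 at h
  have h1 := enF4_sound (lok4 H (by norm_num) ci37 (mem_dvd m37)) (by norm_num)
    (H.v0 m37) iq37 H.con ht h
  unfold At4 at h1
  refine T37_sound H (fun _ => hz) hx (s4 := sel4) (s7 := selA) ?_ cm4 (selA_at z 7) cm7
    (selA_at z 19) (selA_at z 73) h1
  unfold At4 sel4
  rw [hR4]; rfl

/-- what the period two data satisfy modulo `l` -/
theorem sel_two {z : Dat} (hb : z.b = z.t) (hR : z.R = 1) (hab : z.t = z.a * z.P) {l : ℕ}
    (hl : 1 < l) : At4 z l (selC l) ∧ At4 z l selB := by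
  have h1 : res z.R l = 1 := by
    rw [hR]
    symm
    apply res_unique hl
    push_cast; rfl
  have h2 : Nat.beq (7 * res z.R l) 7 = true := by rw [h1]; rfl
  have h3 : Nat.beq (res z.b l) (res z.t l) = true := by rw [hb]; exact Nat.beq_refl _
  unfold At4 selC selB
  simp only [cj_true]
  refine ⟨⟨h3, h2, ?_⟩, h3, h2⟩
  have h4 : (res z.a l * res z.P l) % l = res z.t l := by
    have := mod_res (X := res z.a l * res z.P l) (z := z.t) (show 0 < l by omega) (by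
      push_cast
      rw [res_cast' z.a (by omega), res_cast' z.P (by omega), hab]
      push_cast; rfl)
    exact this
  have h5 : Nat.mod (Nat.mul (res z.a l) (7 * res z.P l)) (Nat.mul 7 l) = 7 * res z.t l := by
    change (res z.a l * (7 * res z.P l)) % (7 * l) = _
    rw [← h4, ← Nat.mul_mod_mul_left]
    congr 1
    ring
  rw [h5]
  exact Nat.beq_refl _

theorem run2_sound {z : Dat} (H : Sys4 z) (hb : z.b = z.t) (hR : z.R = 1)
    (hab : z.t = z.a * z.P) (hP4 : res z.P 4 = 3)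
    (h : run2 c133_73 c247_73_0 c247_73_1 c259_73 = true) : False := by
  have m37 : (37 : ℕ) ∈ [3, 5, 7, 13, 19, 37, 73] := by simp
  unfold run2 at h
  rw [allN_iff] at h
  have h1 := h _ (res_lt z.a (show 0 < 37 by norm_num))
  rw [allN_iff] at h1
  have h2 := h1 _ (res_lt z.P (show 0 < 37 by norm_num))
  rw [force_eq] at h2
  have e : Nat.mod (Nat.mul (res z.a 37) (res z.P 37)) 37 = res z.t 37 := by
    apply mod_res (by norm_num)
    change ((res z.a 37 * res z.P 37 : ℕ) : ZMod 37) = _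
    push_cast
    rw [res_cast' z.a (by norm_num), res_cast' z.P (by norm_num), hab]
    push_cast; rfl
  rw [e] at h2
  have e' : res z.t 37 = res z.b 37 := by rw [hb]
  nth_rewrite 1 [e'] at h2
  have h3 := tge4_sound (lok4 H (by norm_num) ci37 (mem_dvd m37)) (by norm_num)
    (H.v0 m37) iq37 h2
  unfold At4 at h3
  have aod : z.a % 2 = 1 := by
    rcases Int.emod_two_eq_zero_or_one z.a with h | h
    · exfalso
      have h5 := H.tod
      rw [hab, Int.mul_emod, h, zero_mul] at h5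
      exact absurd h5 (by norm_num)
    · exact h
  have ha4 : res z.a 4 % 2 = 1 := by
    have e1 := res_int z.a (M := 4) (by norm_num)
    omega
  refine T37_sound H (g := 1) (fun h => absurd h (by norm_num)) ?_ (s4 := sel2) (s7 := selC 7)
    ?_ cn4 (sel_two hb hR hab (by norm_num)).1 cn7 (sel_two hb hR hab (by norm_num)).2
    (sel_two hb hR hab (by norm_num)).2 h3
  · rintro ⟨⟨_, _, _, _, h5, _, _⟩, _⟩
    omega
  · unfold At4 sel2
    simp only [cj_true]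
    have h6 : res z.R 4 = 1 := by
      rw [hR]
      symm
      apply res_unique (by norm_num)
      push_cast; rfl
    refine ⟨by rw [hb]; exact Nat.beq_refl _, by rw [h6]; rfl, by rw [hP4]; rfl, ?_⟩
    change Nat.beq (res z.a 4 % 2) 1 = true
    rw [ha4]; rfl

end Pool.Agent.L0h49.P
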