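import Pool.Agent.L0h49.P.K0s

/-! The contradiction in the class `a ≡ 0` modulo `7 · 19 · 37`. -/

set_option autoImplicit false
set_option maxRecDepth 100000
set_option maxHeartbeats 4000000

namespace Pool.Agent.L0h49.P

open H419R2 Finset
open Pool.Agent.N911
open Pool.Agent.N156.EP (RelM4 Good4)

theorem one16 {x : ℤ} (h : 2 * M0 ∣ x - 1) {l : ℕ} (hl : (l : ℤ) ∣ 2 * M0) :
    ((x : ℤ) : ZMod l) = 1 := by
  have : ((x - 1 : ℤ) : ZMod l) = 0 := (ZMod.intCast_zmod_eq_zero_iff_dvd _ _).mpr (hl.trans h)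
  push_cast at this
  linear_combination this

theorem res_zero {x : ℤ} {l : ℕ} (hl : 0 < l) (h : (l : ℤ) ∣ x) : res x l = 0 := by
  have e := res_int x (M := l) hl
  rw [Int.emod_eq_zero_of_dvd h] at e
  exact_mod_cast e

theorem mkSys0 {z : Dat} (con : Con4 z) (hP : 2 * M0 ∣ z.P * z.Pi - 1)
    (hR : 2 * M0 ∣ z.R * z.Ri - 1)
    (tod : z.t % 2 = 1) (Pod : z.P % 2 = 1)
    (nsq : ∀ l : ℕ, l ∈ [3, 5, 7, 13, 19, 37, 73] → ¬ IsSquare ((z.t ^ 2 + 4 * z.P : ℤ) : ZMod l))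
    (hrel : ∀ c : CD, c.OK → c.q ∣ 2 * M0n → c.p ∣ M0n → ∀ _ : NeZero c.q,
      RelM4 (chi c.q c.p c.T) z.t z.P z.a z.b = 0) (R4 : z.R % 4 = 3)
    (h37 : ((37 : ℕ) : ℤ) ∣ z.a) (h7 : ((7 : ℕ) : ℤ) ∣ z.a) (h19 : ((19 : ℕ) : ℤ) ∣ z.a) :
    Sys0 z := by
  have key : ∀ c : CD, c.OK → c.q ∣ 2 * M0n → c.p ∣ M0n → NRel4 c z := by
    intro c hc h1 h2
    have h3 : (c.q : ℤ) ∣ 2 * M0 := by
      rw [M0_eq, show (2 : ℤ) * ((M0n : ℕ) : ℤ) = ((2 * M0n : ℕ) : ℤ) by push_cast; ring]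
      exact Int.natCast_dvd_natCast.mpr h1
    exact nrel4_of hc (one16 hP h3) (one16 hR h3) (hrel c hc h1 h2)
  have hM : M0 ∣ 2 * M0 := Dvd.intro_left 2 rfl
  have h8 : (8 : ℤ) ∣ 2 * M0 := by unfold M0; norm_num
  exact
  { S := mkSys4 con (hM.trans hP) (hM.trans hR) tod Pod nsq
      (fun c hc h1 h2 => hrel c hc (dvd_mul_of_dvd_right h1 2) h2)
    h8P := h8.trans hP
    h8R := h8.trans hR
    R4 := R4
    a37 := res_zero (by norm_num) h37
    a7 := res_zero (by norm_num) h7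
    a19 := res_zero (by norm_num) h19
    r1 := key _ c296_5_ok (by decide +kernel) (by decide +kernel)
    r2 := key _ c296_7_1_ok (by decide +kernel) (by decide +kernel)
    r3 := key _ c296_7_2_ok (by decide +kernel) (by decide +kernel)
    r4 := key _ c456_7_ok (by decide +kernel) (by decide +kernel)
    r5 := key _ c532_73_ok (by decide +kernel) (by decide +kernel)
    r6 := key _ c532_37_ok (by decide +kernel) (by decide +kernel) }

theorem cop2 {x : ℤ} (h : x % 2 = 1) : IsCoprime x 2 := ⟨1, -(x / 2), by omega⟩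

/-- data for both signs -/
theorem core_data8 {t P a b : ℤ} {D : ℕ} (G : Good4 t P a b D) (hP2 : P % 2 = 1)
    (ht : t % 2 = 1)
    (hin : ∀ l : ℕ, l ∈ [3, 5, 7, 13, 19, 37, 73] → ¬ IsSquare ((t ^ 2 + 4 * P : ℤ) : ZMod l)) :
    (∃ Pi, 2 * M0 ∣ P * Pi - 1) ∧ (∃ Ri, 2 * M0 ∣ (1 + a * t - a ^ 2 * P) * Ri - 1) ∧
    (∀ c : CD, c.OK → c.q ∣ 2 * M0n → c.p ∣ M0n → ∀ _ : NeZero c.q,
      RelM4 (chi c.q c.p c.T) t P a b = 0) := by
  obtain ⟨R, hR⟩ : ∃ R, R = 1 + a * t - a ^ 2 * P := ⟨_, rfl⟩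
  obtain ⟨B, hB⟩ : ∃ B, B = 2 * a * P - t := ⟨_, rfl⟩
  have hDi : ∀ l : ℕ, l ∈ [3, 5, 7, 13, 19, 37, 73] → ¬ (l : ℤ) ∣ (t ^ 2 + 4 * P) := by
    intro l hl hd
    apply hin l hl
    rw [(ZMod.intCast_zmod_eq_zero_iff_dvd _ _).mpr hd]
    exact ⟨0, by simp⟩
  have hcP : IsCoprime P (2 * M0) := by
    refine IsCoprime.mul_right (cop2 hP2) ?_
    apply isCoprime_M0 hP2
    intro l hl hd
    apply hin l hl
    have : ((P : ℤ) : ZMod l) = 0 := (ZMod.intCast_zmod_eq_zero_iff_dvd _ _).mpr hd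
    push_cast
    rw [this]
    exact ⟨t, by ring⟩
  have hRodd : R % 2 = 1 := by
    obtain ⟨t', ht'⟩ : ∃ k, t = 2 * k + 1 := ⟨t / 2, by omega⟩
    obtain ⟨P', hP'⟩ : ∃ k, P = 2 * k + 1 := ⟨P / 2, by omega⟩
    rw [hR, ht', hP']
    have h3 : (a * (a - 1)) % 2 = 0 := by
      rcases Int.emod_two_eq_zero_or_one a with h | h
      · rw [Int.mul_emod, h, zero_mul]; rfl
      · rw [Int.mul_emod, show (a - 1) % 2 = 0 by omega, mul_zero]; rfl
    have e : 1 + a * (2 * t' + 1) - a ^ 2 * (2 * P' + 1) =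
        1 - a * (a - 1) + 2 * (a * t' - a ^ 2 * P') := by ring
    rw [e]
    omega
  have hcR : IsCoprime R (2 * M0) := by
    refine IsCoprime.mul_right (cop2 hRodd) ?_
    apply isCoprime_M0 hRodd
    intro l hl hd
    apply hin l hl
    have h0 : ((R : ℤ) : ZMod l) = 0 := (ZMod.intCast_zmod_eq_zero_iff_dvd _ _).mpr hd
    have e : t ^ 2 + 4 * P = B ^ 2 + 4 * P * R := by rw [hR, hB]; ring
    rw [e]
    push_cast
    rw [h0]
    exact ⟨B, by ring⟩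
  obtain ⟨Pi, u, hPi⟩ := hcP
  obtain ⟨Ri, v, hRi⟩ := hcR
  have hDodd : (D : ℤ) % 2 = 1 := by
    rw [G.hD]
    obtain ⟨t', ht'⟩ : ∃ k, t = 2 * k + 1 := ⟨t / 2, by omega⟩
    rw [ht']
    have e : (2 * t' + 1) ^ 2 + 4 * P = 1 + 2 * (2 * t' ^ 2 + 2 * t' + 2 * P) := by ring
    rw [e]
    omega
  have hcD0 : IsCoprime ((D : ℤ)) M0 := by
    have := hDodd
    rw [G.hD] at this ⊢
    exact isCoprime_M0 this hDi
  have hcD : Nat.Coprime (2 * M0n) D := by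
    have h1 : IsCoprime ((D : ℤ)) (2 * M0) := IsCoprime.mul_right (cop2 hDodd) hcD0
    rw [M0_eq, show (2 : ℤ) * ((M0n : ℕ) : ℤ) = ((2 * M0n : ℕ) : ℤ) by push_cast; ring] at h1
    exact (Nat.isCoprime_iff_coprime.mp h1).symm
  refine ⟨⟨Pi, -u, by linear_combination hPi⟩, ⟨Ri, -v, by rw [← hR]; linear_combination hRi⟩, ?_⟩
  intro c hc h1 h2 _
  have h3 : ¬ (c.p : ℤ) ∣ D := by
    intro h
    have h4 : c.p ∣ D := by exact_mod_cast h
    have h5 : c.p ∣ 1 := by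
      rw [← hcD]
      exact Nat.dvd_gcd (dvd_mul_of_dvd_right h2 2) h4
    exact hc.pp.one_lt.ne' (Nat.dvd_one.mp h5)
  exact G.rel_mod hP2 hc.pp hc.p2 h3 (Nat.Coprime.coprime_dvd_left h1 hcD) _ (chi_mul hc.mul)
    (chi_neg hc.q1 hc.mul hc.oth) (chi_sum hc.oth)

theorem core0 (hrun : Runs0) {t P a b : ℤ} {D : ℕ} (G : Good4 t P a b D) (hP2 : P % 2 = 1)
    (ht : t % 2 = 1) (hR4 : (1 + a * t - a ^ 2 * P) % 4 = 3)
    (hin : ∀ l : ℕ, l ∈ [3, 5, 7, 13, 19, 37, 73] → ¬ IsSquare ((t ^ 2 + 4 * P : ℤ) : ZMod l))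
    (h0 : (4921 : ℤ) ∣ a) : False := by
  obtain ⟨⟨Pi, hPi⟩, ⟨Ri, hRi⟩, hrel⟩ := core_data8 G hP2 ht hin
  have d37 : ((37 : ℕ) : ℤ) ∣ a := dvd_trans (by norm_num) h0
  have d7 : ((7 : ℕ) : ℤ) ∣ a := dvd_trans (by norm_num) h0
  have d19 : ((19 : ℕ) : ℤ) ∣ a := dvd_trans (by norm_num) h0
  by_cases hs : res t 37 < 19
  · have S : Sys0 ⟨t, P, a, b, Pi, Ri⟩ := by
      apply mkSys0
      · exact G.con
      · exact hPi
      · exact hRi
      · exact ht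
      · exact hP2
      · exact hin
      · exact hrel
      · exact hR4
      · exact d37
      · exact d7
      · exact d19
    exact runs_sound hrun S hs
  · have S : Sys0 ⟨-t, P, -a, -b, Pi, Ri⟩ := by
      apply mkSys0
      · have := G.con
        unfold Con4 Dat.B1 Dat.R
        simp only
        linear_combination -this
      · exact hPi
      · have e : (1 + -a * -t - (-a) ^ 2 * P) = 1 + a * t - a ^ 2 * P := by ring
        unfold Dat.R
        simp only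
        rw [e]
        exact hRi
      · simp only
        clear h0 d37 d7 d19 hR4
        omega
      · exact hP2
      · intro l hl
        simp only
        rw [neg_sq]
        exact hin l hl
      · intro c hc h1 h2 i
        simp only
        rw [RelM4_neg, hrel c hc h1 h2 i, neg_zero]
      · have e : (1 + -a * -t - (-a) ^ 2 * P) = 1 + a * t - a ^ 2 * P := by ring
        unfold Dat.R
        simp only
        rw [e]
        exact hR4
      · exact (dvd_neg).mpr d37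
      · exact (dvd_neg).mpr d7
      · exact (dvd_neg).mpr d19
    exact runs_sound hrun S (res_neg37 hs)

/-- both searches together -/
theorem core4' (hrun : AllRun4) (hrun0 : Runs0) {t P a b : ℤ} {D : ℕ} (G : Good4 t P a b D)
    (hP2 : P % 2 = 1)
    (ht : t % 2 = 1) (hR4 : (1 + a * t - a ^ 2 * P) % 4 = 3)
    (hin : ∀ l : ℕ, l ∈ [3, 5, 7, 13, 19, 37, 73] → ¬ IsSquare ((t ^ 2 + 4 * P : ℤ) : ZMod l))
    (he1 : ¬ XX a b) (he2 : ¬ XX (-a) (-b)) : False := by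
  by_cases h : (4921 : ℤ) ∣ a
  · exact core0 hrun0 G hP2 ht hR4 hin h
  · exact core4 hrun G hP2 ht hR4 hin h he1 he2

end Pool.Agent.L0h49.P
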