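import Pool.Agent.N911.N1
import Pool.Agent.N156.EP.A5

/-! The finitely many remaining discriminants for periods two and four. -/

set_option maxRecDepth 100000

namespace Pool.Agent.L0h49.P

open H419R2 Finset
open Pool.Agent.N911
open Pool.Agent.N156.EP (Good4)

/-- the final list for periods two and four -/
def Fin21 : List ℕ := [21, 33, 69, 77, 93, 133, 141, 213, 237, 413, 437, 453, 573, 717, 1077, 1133,
  1253, 1293, 1397, 1757, 3053]

theorem wit4_sound {t P R D : ℕ} {a b : ℤ} (G : Good4 t P a b D)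
    (hR : (R : ℤ) = 1 + a * t - a ^ 2 * P) (h : wit t P R D = true) : False := by
  unfold wit at h
  rw [anyL_iff] at h
  obtain ⟨l, hl, h1⟩ := h
  have hp : l.Prime := by
    have : ∀ l ∈ PLst, l.Prime := by
      unfold PLst
      simp only [List.mem_cons, List.not_mem_nil, or_false, forall_eq_or_imp, forall_eq]
      norm_num
    exact this l hl
  unfold wit1 at h1
  simp only [cj_true] at h1
  obtain ⟨h2, h3, h4, h5⟩ := h1
  have h2' : 4 * (l * l) ≤ D := Nat.le_of_ble_eq_true h2
  obtain ⟨w, _, h6⟩ := anyN_true h5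
  have h6' : (w * w + t * w) % l = P % l := Nat.eq_of_beq_eq_true h6
  have h7 : (l : ℤ) ∣ (w : ℤ) ^ 2 + t * w - P := by
    have h8 : (w * w + t * w) ≡ P [MOD l] := h6'
    have h9 := (Nat.modEq_iff_dvd.mp h8)
    push_cast at h9
    have : (w : ℤ) ^ 2 + t * w - P = -((P : ℤ) - (w * w + t * w)) := by ring
    rw [this]
    exact (dvd_neg).mpr h9
  have h10 := G.split l hp (by
    have : (4 * (l * l) : ℤ) ≤ D := by exact_mod_cast h2'
    linarith) ⟨w, h7⟩
  rcases h10 with h | h
  · have : l = P := by exact_mod_cast h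
    subst this
    simp at h3
  · rw [← hR] at h
    have : l = R := by exact_mod_cast h
    subst this
    simp at h4

/-- membership in the final list -/
def inE (D : ℕ) : Bool := anyL Fin21 (fun x => Nat.beq x D)

theorem inE_sound {D : ℕ} (h : inE D = true) : D ∈ Fin21 := by
  unfold inE at h
  rw [anyL_iff] at h
  obtain ⟨x, hx, h1⟩ := h
  rw [← Nat.eq_of_beq_eq_true h1]; exact hx

/-- small case, periods 2 and 4: `s = t - a P`, `R = 1 + a s`, `b R = a P - s` -/
def chkS4 (lo n : ℕ) : Bool := allN n (fun i => force (Nat.add (Nat.mul 2 (Nat.add lo i)) 1)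
  (fun t => allN t (fun P' => force (Nat.add P' 1) (fun P => force (dsc t P) (fun D =>
    imp (Nat.ble 2 P)
    (@Bool.rec (fun _ => Bool)
    (allN (Nat.div t P) (fun a' => force (Nat.add a' 1) (fun a =>
      force (Nat.sub t (Nat.mul a P)) (fun s => force (Nat.add 1 (Nat.mul a s)) (fun R =>
        imp (Nat.ble s (Nat.mul a P)) (imp (Nat.beq (Nat.mod (Nat.sub (Nat.mul a P) s) R) 0)
          (wit t P R D))))))) true (inE D)))))))

/-- case `P = l`: `a (l - b s) = b + s` -/
def chkP4 (l : ℕ) : Bool := allN l (fun s => imp (Nat.ble 1 s) (allN l (fun b =>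
  imp (Nat.ble (Nat.add (Nat.mul b s) 1) l)
  (force (Nat.div (Nat.add b s) (Nat.sub l (Nat.mul b s))) (fun a =>
    imp (Nat.beq (Nat.mul a (Nat.sub l (Nat.mul b s))) (Nat.add b s))
    (force (Nat.add 1 (Nat.mul a s)) (fun R => force (Nat.add s (Nat.mul a l)) (fun t =>
      force (dsc t l) (fun D =>
      or (Nat.ble D 21315) (or (Nat.beq (Nat.mod t 2) 0) (wit t l R D))))))))))) 

theorem okP4 : allL L8 chkP4 = true := by decide +kernel
theorem okS4_0 : chkS4 0 40 = true := by decide +kernel
theorem okS4_1 : chkS4 40 18 = true := by decide +kernel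
theorem okS4_2 : chkS4 58 15 = true := by decide +kernel

end Pool.Agent.L0h49.P
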