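import Pool.Agent.L0h49.P.K3
import Pool.Agent.N911.D1
import Pool.Agent.N911.D3

/-! The search. -/

set_option maxRecDepth 1000000

namespace Pool.Agent.L0h49.P

open H419R2
open Pool.Agent.N911

theorem run4_25 : run4 c133_73 c247_73_0 c247_73_1 c259_73 25 = true := by decide +kernel
theorem run4_26 : run4 c133_73 c247_73_0 c247_73_1 c259_73 26 = true := by decide +kernel
theorem run4_27 : run4 c133_73 c247_73_0 c247_73_1 c259_73 27 = true := by decide +kernel
theorem run4_28 : run4 c133_73 c247_73_0 c247_73_1 c259_73 28 = true := by decide +kernel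

end Pool.Agent.L0h49.P
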