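import Pool.Agent.L0h49.P.R1
import Pool.Agent.L0h49.P.R2
import Pool.Agent.L0h49.P.R3
import Pool.Agent.L0h49.P.R4
import Pool.Agent.L0h49.P.R5
import Pool.Agent.L0h49.P.R6
import Pool.Agent.L0h49.P.R7
import Pool.Agent.L0h49.P.R8
import Pool.Agent.L0h49.P.R9
import Pool.Agent.L0h49.P.R10
import Pool.Agent.L0h49.P.R11
import Pool.Agent.L0h49.P.K8

/-! All runs. -/

namespace Pool.Agent.L0h49.P

theorem allRun4 : AllRun4 := by
  intro a ha
  interval_cases a
  exacts [run4_0, run4_1, run4_2, run4_3, run4_4, run4_5, run4_6, run4_7, run4_8, run4_9, run4_10,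
    run4_11, run4_12, run4_13, run4_14, run4_15, run4_16, run4_17, run4_18, run4_19, run4_20,
    run4_21, run4_22, run4_23, run4_24, run4_25, run4_26, run4_27, run4_28, run4_29, run4_30,
    run4_31, run4_32, run4_33, run4_34, run4_35, run4_36]

end Pool.Agent.L0h49.P
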