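import Pool.Agent.L0h49.P.K0
import Pool.Agent.L0h49.P.G296
import Pool.Agent.L0h49.P.G456
import Pool.Agent.L0h49.P.G532

set_option maxRecDepth 100000

namespace Pool.Agent.L0h49.P

theorem run0_a1 : run0 (fun b => Nat.beq b 36) p4 q4 c296_5 c296_7_1 c296_7_2 c456_7
    c532_73 c532_37 = true := by
  decide +kernel

end Pool.Agent.L0h49.P
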