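import Pool.Agent.L0h49.P.R0n
import Pool.Agent.L0h49.P.R0a0
import Pool.Agent.L0h49.P.R0a1
import Pool.Agent.L0h49.P.R0b0
import Pool.Agent.L0h49.P.R0b1
import Pool.Agent.L0h49.P.R0c0
import Pool.Agent.L0h49.P.R0c1
import Pool.Agent.L0h49.P.R0c2
import Pool.Agent.L0h49.P.R0d0
import Pool.Agent.L0h49.P.R0d1
import Pool.Agent.L0h49.P.R0d2
import Pool.Agent.L0h49.P.K9

/-! All runs in the class `a ≡ 0`. -/

namespace Pool.Agent.L0h49.P

theorem allRun0 : Runs0 :=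
  ⟨run0_n, run0_a0, run0_a1, run0_b0, run0_b1, run0_c0, run0_c1, run0_c2, run0_d0, run0_d1, run0_d2⟩

end Pool.Agent.L0h49.P
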