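import Pool.Agent.L0h49.P.N1
import Pool.Agent.L0h49.P.F4
import Pool.Agent.L0h49.P.RR
import Pool.Agent.L0h49.P.RR0
import Pool.Agent.L0h49.P.Defs

/-! The classification in terms of the parameters, periods two and four. -/

set_option maxRecDepth 100000

namespace Pool.Agent.L0h49.P

open H419R2 Finset
open Pool.Agent.N911
open Pool.Agent.N156.EP (Good4 Par4)

/-- the consequence of genus theory -/
def PD (D : ℕ) : Prop := ∀ a b : ℕ, a % 4 = 1 → b % 4 = 1 → 1 < a → 1 < b → a * b ≠ D

theorem L8_prime : ∀ l ∈ L8, l.Prime := by
  unfold L8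
  simp only [List.mem_cons, List.not_mem_nil, or_false, forall_eq_or_imp, forall_eq]
  norm_num

theorem L8_le : ∀ l ∈ L8, l ≤ 73 := by
  unfold L8
  simp only [List.mem_cons, List.not_mem_nil, or_false, forall_eq_or_imp, forall_eq]
  norm_num

/-- the small case -/
theorem small4 {t P a s b D : ℕ} (hts : t = s + a * P) (hP : 2 ≤ P) (ha : 1 ≤ a)
    (hb : b * (1 + a * s) + s = a * P) (hodd : t % 2 = 1) (hD : D = t * t + 4 * P)
    (hlt : D < 21316) (hw : wit t P (1 + a * s) D = true → False) : D ∈ Fin21 := by
  have htl : t < 146 := by nlinarith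
  have hPt : P ≤ t := by nlinarith
  have key : ∀ lo n : ℕ, chkS4 lo n = true → lo ≤ t / 2 → t / 2 < lo + n → D ∈ Fin21 := by
    intro lo n h h1 h2
    unfold chkS4 at h
    rw [allN_iff] at h
    have h3 := h (t / 2 - lo) (by omega)
    rw [force_eq] at h3
    have e1 : Nat.add (Nat.mul 2 (Nat.add lo (t / 2 - lo))) 1 = t := by
      change 2 * (lo + (t / 2 - lo)) + 1 = t
      omega
    rw [e1, allN_iff] at h3
    have h4 := h3 (P - 1) (by omega)
    rw [force_eq, force_eq] at h4
    have e2 : Nat.add (P - 1) 1 = P := by change P - 1 + 1 = P; omega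
    have e3 : dsc t P = D := hD.symm
    rw [e2, e3] at h4
    have h4 := imp_true h4 (Nat.ble_eq_true_of_le hP)
    cases hI : inE D with
    | true => exact inE_sound hI
    | false =>
      rw [hI] at h4
      change allN (Nat.div t P) _ = true at h4
      rw [allN_iff] at h4
      have h5 := h4 (a - 1) (by
        change a - 1 < t / P
        have : a ≤ t / P := (Nat.le_div_iff_mul_le (by omega)).mpr (by rw [hts]; omega)
        omega)
      simp only [force_eq] at h5
      have e4 : Nat.add (a - 1) 1 = a := by change a - 1 + 1 = a; omega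
      have e5 : Nat.sub t (Nat.mul a P) = s := by change t - a * P = s; rw [hts]; omega
      rw [e4, e5] at h5
      have h6 := imp_true h5 (Nat.ble_eq_true_of_le (by change s ≤ a * P; omega))
      have e6 : Nat.beq (Nat.mod (Nat.sub (Nat.mul a P) s) (Nat.add 1 (Nat.mul a s))) 0 = true := by
        have : (a * P - s) % (1 + a * s) = 0 := by
          rw [← hb, Nat.add_sub_cancel]
          exact Nat.mul_mod_left _ _
        change Nat.beq ((a * P - s) % (1 + a * s)) 0 = true
        rw [this]; rfl
      exact (hw (imp_true h6 e6)).elim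
  rcases lt_or_ge (t / 2) 40 with h | h
  · exact key 0 40 okS4_0 (by omega) (by omega)
  · rcases lt_or_ge (t / 2) 58 with h' | h'
    · exact key 40 18 okS4_1 h (by omega)
    · exact key 58 15 okS4_2 h' (by omega)

/-- inertness from the absence of roots -/
theorem inert_of {t P a b : ℤ} {D : ℕ} (G : Good4 t P a b D) (hbig : 21316 ≤ D) {l : ℕ}
    (hl : l.Prime) (hl2 : l ≠ 2) (hl73 : l ≤ 73) (h1 : (l : ℤ) ≠ P)
    (h2 : (l : ℤ) ≠ 1 + a * t - a ^ 2 * P) : ¬ IsSquare ((t ^ 2 + 4 * P : ℤ) : ZMod l) := by
  intro hsq
  have hD := G.hD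
  rw [← hD] at hsq
  have hr := root_of_square hl hl2 hD hsq
  have h73 : (l : ℤ) ≤ 73 := by exact_mod_cast hl73
  rcases G.split l hl (by
    have : (21316 : ℤ) ≤ D := by exact_mod_cast hbig
    nlinarith) hr with h | h
  · exact h1 h
  · exact h2 h

theorem final_par2 {t P a : ℤ} {D : ℕ} (h : Par2 t P a) (hodd : t % 2 = 1)
    (G : Good4 t P a t D) (hpar : PD D) : D ∈ Fin21 := by
  obtain ⟨ht, hP1, ha, hta⟩ := h
  have hDD := G.hD
  have hR1 : 1 + a * t - a ^ 2 * P = 1 := by rw [hta]; ring
  have hPodd : P % 2 = 1 := by
    rcases Int.emod_two_eq_zero_or_one P with h | h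
    · exfalso
      rw [hta, Int.mul_emod, h, mul_zero] at hodd
      exact absurd hodd (by norm_num)
    · exact h
  have haodd : a % 2 = 1 := by
    rcases Int.emod_two_eq_zero_or_one a with h | h
    · exfalso
      rw [hta, Int.mul_emod, h, zero_mul] at hodd
      exact absurd hodd (by norm_num)
    · exact h
  have hP3 : P % 4 = 3 := by
    by_contra hc
    have hP4 : P % 4 = 1 := by omega
    lift P to ℕ using (by omega)
    lift a to ℕ using ha.le
    refine hpar P (a ^ 2 * P + 4) (by exact_mod_cast hP4) ?_ (by exact_mod_cast hP1) (by omega) ?_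
    · obtain ⟨a', rfl⟩ : ∃ k, a = 2 * k + 1 := ⟨a / 2, by omega⟩
      obtain ⟨P', rfl⟩ : ∃ k, P = 4 * k + 1 := ⟨P / 4, by omega⟩
      have e : (2 * a' + 1) ^ 2 * (4 * P' + 1) + 4 =
          4 * ((a' ^ 2 + a') * (4 * P' + 1) + P' + 1) + 1 := by ring
      rw [e]; omega
    · have : ((P * (a ^ 2 * P + 4) : ℕ) : ℤ) = D := by
        rw [hDD, hta]; push_cast; ring
      exact_mod_cast this
  by_cases hbig : 21316 ≤ D
  · exfalso
    have hin : ∀ l : ℕ, l.Prime → l ≠ 2 → l ≤ 73 → (l : ℤ) ≠ P →
        ¬ IsSquare ((t ^ 2 + 4 * P : ℤ) : ZMod l) := by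
      intro l hl hl2 hl73 hlP
      refine inert_of G hbig hl hl2 hl73 hlP ?_
      rw [hR1]
      intro h
      exact hl.one_lt.ne' (by exact_mod_cast h)
    by_cases h3 : P = 3
    · subst h3
      exact no2_3 (by exact_mod_cast G) (by exact_mod_cast hta) hodd (fun l hl =>
        hin l (L3p_prime l hl) (by rintro rfl; simp [L3p] at hl) (by
          unfold L3p at hl; simp only [List.mem_cons, List.not_mem_nil, or_false] at hl; omega) (by
          intro h; have : l = 3 := by exact_mod_cast h
          subst this; simp [L3p] at hl))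
    by_cases h7 : P = 7
    · subst h7
      exact no2_7 (by exact_mod_cast G) (by exact_mod_cast hta) hodd (fun l hl =>
        hin l (L7p_prime l hl) (by rintro rfl; simp [L7p] at hl) (by
          unfold L7p at hl; simp only [List.mem_cons, List.not_mem_nil, or_false] at hl; omega) (by
          intro h; have : l = 7 := by exact_mod_cast h
          subst this; simp [L7p] at hl))
    by_cases h19 : P = 19
    · subst h19
      exact no2_19 (by exact_mod_cast G) (by exact_mod_cast hta) hodd (fun l hl =>
        hin l (L19p_prime l hl) (by rintro rfl; simp [L19p] at hl) (by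
          unfold L19p at hl; simp only [List.mem_cons, List.not_mem_nil, or_false] at hl; omega) (by
          intro h; have : l = 19 := by exact_mod_cast h
          subst this; simp [L19p] at hl))
    refine core2 run2_ok G hta hodd hP3 ?_
    intro l hl
    simp only [List.mem_cons, List.not_mem_nil, or_false] at hl
    refine hin l ?_ (by omega) (by omega) ?_
    · rcases hl with rfl | rfl | rfl | rfl | rfl | rfl | rfl <;> norm_num
    · rcases hl with rfl | rfl | rfl | rfl | rfl | rfl | rfl <;> intro h <;> push_cast at h <;>
        omega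
  · lift P to ℕ using (by omega)
    lift a to ℕ using ha.le
    lift t to ℕ using ht.le
    have hta' : t = a * P := by exact_mod_cast hta
    have hD' : D = t * t + 4 * P := by
      have : (D : ℤ) = ((t * t + 4 * P : ℕ) : ℤ) := by rw [hDD]; push_cast; ring
      exact_mod_cast this
    refine small4 (a := a) (s := 0) (b := a * P) (by omega) (by exact_mod_cast hP1) (by exact_mod_cast ha)
      (by ring) (by exact_mod_cast hodd) hD' (by omega) ?_
    intro hw
    refine wit4_sound G ?_ hw
    rw [hR1]
    push_cast
    ring

/-- period four: the exceptions -/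
def NX (a b : ℤ) : Prop := ¬ XX a b ∧ ¬ XX (-a) (-b)

theorem final_par4 {t P a b : ℤ} {D : ℕ} (h : Par4 t P a b) (hodd : t % 2 = 1)
    (G : Good4 t P a b D) (hpar : PD D) (hx : NX a b) : D ∈ Fin21 := by
  obtain ⟨ht, hP1, ha, hb, hR1, hc⟩ := h
  have hDD := G.hD
  obtain ⟨R, hR⟩ : ∃ R, R = 1 + a * t - a ^ 2 * P := ⟨_, rfl⟩
  obtain ⟨s, hs⟩ : ∃ s, s = t - a * P := ⟨_, rfl⟩
  have hRs : R = 1 + a * s := by rw [hR, hs]; ring
  rw [← hR] at hR1 hc
  have hs0 : 0 < s := by
    by_contra h
    have : s ≤ 0 := by omega
    nlinarith
  have hbR : b * R = a * P - s := by rw [hc, hs]; ring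
  have hDR : (D : ℤ) = R * (b ^ 2 * R + 4 * P) := by
    have e : t ^ 2 + 4 * P = (2 * a * P - t) ^ 2 + 4 * P * R := by rw [hR]; ring
    rw [hDD, e, ← hc]; ring
  have hB1odd : (b * R) % 2 = 1 := by
    rw [hc]
    have e : 2 * a * P - t = 2 * (a * P) - t := by ring
    rw [e]; omega
  have hRodd : R % 2 = 1 := by
    rcases Int.emod_two_eq_zero_or_one R with h | h
    · exfalso
      rw [Int.mul_emod, h, mul_zero] at hB1odd
      exact absurd hB1odd (by norm_num)
    · exact h
  have hbodd : b % 2 = 1 := by
    rcases Int.emod_two_eq_zero_or_one b with h | h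
    · exfalso
      rw [Int.mul_emod, h, zero_mul] at hB1odd
      exact absurd hB1odd (by norm_num)
    · exact h
  have hR3 : R % 4 = 3 := by
    by_contra hcc
    have hR4 : R % 4 = 1 := by omega
    have hm : (b ^ 2 * R + 4 * P) % 4 = 1 := by
      obtain ⟨b', hb'⟩ : ∃ k, b = 2 * k + 1 := ⟨b / 2, by omega⟩
      obtain ⟨R', hR'⟩ : ∃ k, R = 4 * k + 1 := ⟨R / 4, by omega⟩
      have e : b ^ 2 * R + 4 * P = 4 * ((b' ^ 2 + b') * (4 * R' + 1) + R' + P) + 1 := by
        rw [hb', hR']; ring
      rw [e]; omega
    have hm0 : 1 < b ^ 2 * R + 4 * P := by nlinarith [sq_nonneg b]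
    have hpar' := hpar R.toNat (b ^ 2 * R + 4 * P).toNat (by omega) (by omega) (by omega) (by omega)
    apply hpar'
    have h1 : ((R.toNat : ℕ) : ℤ) = R := Int.toNat_of_nonneg (by omega)
    have h2 : (((b ^ 2 * R + 4 * P).toNat : ℕ) : ℤ) = b ^ 2 * R + 4 * P :=
      Int.toNat_of_nonneg (by omega)
    have : ((R.toNat * (b ^ 2 * R + 4 * P).toNat : ℕ) : ℤ) = D := by
      rw [Nat.cast_mul, h1, h2, hDR]
    exact_mod_cast this
  by_cases hbig : 21316 ≤ D
  · exfalso
    by_cases hPl : ∃ l ∈ L8, (l : ℤ) = P
    · -- `P` small
      obtain ⟨l, hl, hlP⟩ := hPl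
      have hchk := (allL_iff _ _).mp okP4 l hl
      have hbs : b * s < P := by
        by_contra h
        have h1 : P ≤ b * s := by omega
        have h2 : b * R = b + a * (b * s) := by rw [hRs]; ring
        have h3 : a * P ≤ a * (b * s) := by nlinarith
        rw [h2] at hbR
        linarith
      have hab : a * (P - b * s) = b + s := by
        have h2 : b * R = b + a * (b * s) := by rw [hRs]; ring
        rw [h2] at hbR
        linear_combination -hbR
      have hsP : s < P := by nlinarith
      have hbP : b < P := by nlinarith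
      have hts : t = s + a * P := by rw [hs]; ring
      subst hlP
      lift s to ℕ using hs0.le
      lift a to ℕ using ha.le
      lift b to ℕ using hb.le
      lift t to ℕ using ht.le
      have hs0' : 1 ≤ s := by exact_mod_cast hs0
      have hsl : s < l := by exact_mod_cast hsP
      have hbl : b < l := by exact_mod_cast hbP
      have hbsl : b * s < l := by exact_mod_cast hbs
      have hab' : a * (l - b * s) = b + s := by
        have : ((a * (l - b * s) : ℕ) : ℤ) = ((b + s : ℕ) : ℤ) := by
          push_cast [Nat.cast_sub hbsl.le]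
          exact hab
        exact_mod_cast this
      have hts' : t = s + a * l := by exact_mod_cast hts
      unfold chkP4 at hchk
      rw [allN_iff] at hchk
      have h1 := imp_true (hchk s hsl) (Nat.ble_eq_true_of_le hs0')
      rw [allN_iff] at h1
      have h2 := imp_true (h1 b hbl) (Nat.ble_eq_true_of_le (by change b * s + 1 ≤ l; omega))
      rw [force_eq] at h2
      have e1 : Nat.div (Nat.add b s) (Nat.sub l (Nat.mul b s)) = a := by
        change (b + s) / (l - b * s) = a
        rw [← hab']
        exact Nat.mul_div_cancel _ (by omega)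
      rw [e1] at h2
      have e2 : Nat.beq (Nat.mul a (Nat.sub l (Nat.mul b s))) (Nat.add b s) = true := by
        change Nat.beq (a * (l - b * s)) (b + s) = true
        rw [hab']; exact Nat.beq_refl _
      have h3 := imp_true h2 e2
      simp only [force_eq] at h3
      have hD' : D = t * t + 4 * l := by
        have : (D : ℤ) = ((t * t + 4 * l : ℕ) : ℤ) := by rw [hDD]; push_cast; ring
        exact_mod_cast this
      have e3 : Nat.add s (Nat.mul a l) = t := hts'.symm
      have e4 : dsc t l = D := hD'.symm
      rw [e3, e4, Bool.or_eq_true, Bool.or_eq_true] at h3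
      rcases h3 with h3 | h3 | h3
      · have := Nat.le_of_ble_eq_true h3
        omega
      · have h5 : t % 2 = 0 := Nat.eq_of_beq_eq_true h3
        have h6 : t % 2 = 1 := by exact_mod_cast hodd
        omega
      · refine wit4_sound (P := l) G ?_ h3
        change ((1 + a * s : ℕ) : ℤ) = _
        rw [← hR, hRs]; push_cast; ring
    · have hPl' : ∀ l ∈ L8, (l : ℤ) ≠ P := fun l hl h => hPl ⟨l, hl, h⟩
      have hPodd : P % 2 = 1 := by
        by_contra hcc
        have hP0 : P % 2 = 0 := by omega
        rcases G.split 2 Nat.prime_two (by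
          have : (21316 : ℤ) ≤ D := by exact_mod_cast hbig
          push_cast; linarith) ⟨0, by push_cast; omega⟩ with h | h
        · exact hPl' 2 (by unfold L8; simp) h
        · rw [← hR] at h
          push_cast at h
          omega
      have hin : ∀ l : ℕ, l.Prime → l ≠ 2 → l ≤ 73 → (l : ℤ) ≠ P → (l : ℤ) ≠ R →
          ¬ IsSquare ((t ^ 2 + 4 * P : ℤ) : ZMod l) := by
        intro l hl hl2 hl73 hlP hlR
        exact inert_of G hbig hl hl2 hl73 hlP (by rw [← hR]; exact hlR)
      by_cases h3 : R = 3
      · refine no4_3 G ha (by rw [← hR]; exact h3) hodd hPodd ?_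
        intro l hl
        by_cases h61 : l = 61
        · subst h61
          refine hin 61 (by norm_num) (by norm_num) (by norm_num) ?_ (by rw [h3]; norm_num)
          intro hP61
          -- `P = 61` is impossible
          have h1 : a * s = 2 := by rw [h3] at hRs; linarith
          rw [h3, ← hP61] at hbR
          have ha2 : a ≤ 2 := by nlinarith
          interval_cases a <;> omega
        · have hl' : l ∈ L3p := by
            unfold L3q at hl; unfold L3p
            simp only [List.mem_cons, List.not_mem_nil, or_false] at hl ⊢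
            omega
          refine hin l (L3p_prime l hl') (by rintro rfl; simp [L3p] at hl') (by
            unfold L3p at hl'; simp only [List.mem_cons, List.not_mem_nil, or_false] at hl'
            omega) (hPl' l ?_) ?_
          · unfold L3p at hl'; unfold L8
            simp only [List.mem_cons, List.not_mem_nil, or_false] at hl' ⊢
            omega
          · rw [h3]; intro h; have : l = 3 := by exact_mod_cast h
            subst this; simp [L3p] at hl'
      by_cases h7 : R = 7
      · refine no4_7 G ha (by rw [← hR]; exact h7) hodd hPodd ?_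
        intro l hl'
        refine hin l (L7p_prime l hl') (by rintro rfl; simp [L7p] at hl') (by
            unfold L7p at hl'; simp only [List.mem_cons, List.not_mem_nil, or_false] at hl'
            omega) (hPl' l ?_) ?_
        · unfold L7p at hl'; unfold L8
          simp only [List.mem_cons, List.not_mem_nil, or_false] at hl' ⊢
          omega
        · rw [h7]; intro h; have : l = 7 := by exact_mod_cast h
          subst this; simp [L7p] at hl'
      by_cases h19 : R = 19
      · refine no4_19 G ha (by rw [← hR]; exact h19) hodd hPodd ?_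
        intro l hl'
        refine hin l (L19p_prime l hl') (by rintro rfl; simp [L19p] at hl') (by
            unfold L19p at hl'; simp only [List.mem_cons, List.not_mem_nil, or_false] at hl'
            omega) (hPl' l ?_) ?_
        · unfold L19p at hl'; unfold L8
          simp only [List.mem_cons, List.not_mem_nil, or_false] at hl' ⊢
          omega
        · rw [h19]; intro h; have : l = 19 := by exact_mod_cast h
          subst this; simp [L19p] at hl'
      refine core4' allRun4 allRun0 G hPodd hodd (by rw [← hR]; exact hR3) ?_ hx.1 hx.2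
      intro l hl
      have hl8 : l ∈ L8 := by
        unfold L8
        exact List.mem_cons_of_mem _ hl
      have hl' := hl
      simp only [List.mem_cons, List.not_mem_nil, or_false] at hl'
      refine hin l (L8_prime l hl8) (by omega) (L8_le l hl8) (hPl' l hl8) ?_
      rcases hl' with rfl | rfl | rfl | rfl | rfl | rfl | rfl <;> intro h <;> push_cast at h <;>
        omega
  · have hts : t = s + a * P := by rw [hs]; ring
    lift P to ℕ using (by omega)
    lift a to ℕ using ha.le
    lift t to ℕ using ht.le
    lift s to ℕ using hs0.le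
    lift b to ℕ using hb.le
    have hD' : D = t * t + 4 * P := by
      have : (D : ℤ) = ((t * t + 4 * P : ℕ) : ℤ) := by rw [hDD]; push_cast; ring
      exact_mod_cast this
    have hb' : b * (1 + a * s) + s = a * P := by
      have : ((b * (1 + a * s) + s : ℕ) : ℤ) = ((a * P : ℕ) : ℤ) := by
        push_cast
        rw [hRs] at hbR
        linear_combination hbR
      exact_mod_cast this
    refine small4 (s := s) (b := b) (by exact_mod_cast hts) (by exact_mod_cast hP1)
      (by exact_mod_cast ha) hb' (by exact_mod_cast hodd) hD' (by omega) ?_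
    intro hw
    refine wit4_sound G ?_ hw
    rw [← hR, hRs]; push_cast; ring

end Pool.Agent.L0h49.P
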